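import Pool.Agent.H6.Win.ZetaLoc

/-!
# The classical zero-free region of the Riemann zeta function

`riemannZeta s = 0` and `0 < re s` imply `re s ≤ 1 - c / log (2 + |im s|)`
(de la Vallée Poussin).
-/

set_option autoImplicit false

open Complex Metric Set Filter Topology Real MeasureTheory
open scoped ArithmeticFunction.vonMangoldt

namespace Pool.Agent.H48.UP

open Pool.Agent.H6

/-- the Dirichlet series of the von Mangoldt function -/
private noncomputable def lam (s : ℂ) : ℂ := LSeries (fun n => ((Λ n : ℝ) : ℂ)) s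

private lemma term_re (σ t : ℝ) (n : ℕ) (hn : n ≠ 0) :
    LSeries.term (fun n => ((Λ n : ℝ) : ℂ)) ((σ : ℂ) + t * I) n =
      ((Λ n * (n : ℝ) ^ (-σ) : ℝ) : ℂ) * ((n : ℂ) ^ (-(t * I))) := by
  have hn0 : (n : ℂ) ≠ 0 := by exact_mod_cast hn
  rw [LSeries.term_of_ne_zero hn, div_eq_mul_inv, ← Complex.cpow_neg, neg_add,
    Complex.cpow_add _ _ hn0]
  push_cast
  rw [Complex.ofReal_cpow (by positivity)]
  push_cast
  ring

private lemma lam_comb {σ : ℝ} (hσ : 1 < σ) (t : ℝ) :
    0 ≤ 3 * (lam (σ : ℂ)).re + 4 * (lam ((σ : ℂ) + t * I)).re +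
      (lam ((σ : ℂ) + (2 * t : ℝ) * I)).re := by
  have hs : ∀ u : ℝ, LSeriesSummable (fun n => ((Λ n : ℝ) : ℂ)) ((σ : ℂ) + u * I) := by
    intro u
    apply ArithmeticFunction.LSeriesSummable_vonMangoldt
    simpa using hσ
  have e0 : (σ : ℂ) = (σ : ℂ) + (0 : ℝ) * I := by simp
  have hre : ∀ u : ℝ, (lam ((σ : ℂ) + u * I)).re =
      ∑' n, (LSeries.term (fun n => ((Λ n : ℝ) : ℂ)) ((σ : ℂ) + u * I) n).re := by
    intro u
    unfold lam LSeries
    exact Complex.re_tsum (hs u)
  have hsr : ∀ u : ℝ, Summable fun n =>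
      (LSeries.term (fun n => ((Λ n : ℝ) : ℂ)) ((σ : ℂ) + u * I) n).re := by
    intro u
    exact (Complex.hasSum_re (hs u).hasSum).summable
  have hre0 : (lam (σ : ℂ)).re =
      ∑' n, (LSeries.term (fun n => ((Λ n : ℝ) : ℂ)) ((σ : ℂ) + (0 : ℝ) * I) n).re := by
    rw [← hre 0, ← e0]
  rw [hre0, add_assoc, hre t, hre (2 * t), ← tsum_mul_left, ← tsum_mul_left,
    ← (((hsr t).mul_left 4).tsum_add (hsr (2 * t))),
    ← (((hsr 0).mul_left 3).tsum_add (((hsr t).mul_left 4).add (hsr (2 * t))))]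
  apply tsum_nonneg
  intro n
  rcases eq_or_ne n 0 with rfl | hn
  · simp
  rw [term_re _ _ _ hn, term_re _ _ _ hn, term_re _ _ _ hn]
  have hn0 : (n : ℂ) ≠ 0 := by exact_mod_cast hn
  have h0 : (n : ℂ) ^ (-(((0 : ℝ) : ℂ) * I)) = 1 := by simp
  have h2 : (n : ℂ) ^ (-(((2 * t : ℝ) : ℂ) * I)) = ((n : ℂ) ^ (-((t : ℂ) * I))) ^ 2 := by
    rw [← Complex.cpow_nat_mul]
    congr 1
    push_cast
    ring
  have h1 : ‖(n : ℂ) ^ (-((t : ℂ) * I))‖ = 1 := by
    have := Complex.norm_natCast_cpow_of_pos (Nat.pos_of_ne_zero hn) (-((t : ℂ) * I))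
    rw [this]
    simp
  rw [h0, h2, Complex.re_ofReal_mul, Complex.re_ofReal_mul, Complex.re_ofReal_mul]
  set z : ℂ := (n : ℂ) ^ (-((t : ℂ) * I))
  have h3 : z.re ^ 2 + z.im ^ 2 = 1 := by
    have := Complex.sq_norm z
    rw [h1, Complex.normSq_apply] at this
    nlinarith
  have h4 : (z ^ 2).re = z.re ^ 2 - z.im ^ 2 := by
    rw [pow_two, Complex.mul_re]
    ring
  have h5 : 0 ≤ Λ n * (n : ℝ) ^ (-σ) :=
    mul_nonneg ArithmeticFunction.vonMangoldt_nonneg (by positivity)
  rw [h4, Complex.one_re]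
  have h6 : 3 * (Λ n * (n : ℝ) ^ (-σ) * 1) + (4 * (Λ n * (n : ℝ) ^ (-σ) * z.re) +
      Λ n * (n : ℝ) ^ (-σ) * (z.re ^ 2 - z.im ^ 2)) =
      Λ n * (n : ℝ) ^ (-σ) * (2 * (1 + z.re) ^ 2) := by
    have : z.im ^ 2 = 1 - z.re ^ 2 := by linarith
    rw [this]
    ring
  rw [h6]
  positivity

private lemma logDeriv_zetaPole {s : ℂ} (hs : 1 < s.re) :
    deriv zetaPole s / zetaPole s = 1 / (s - 1) - lam s := by
  have hs1 : s ≠ 1 := by intro h; rw [h, one_re] at hs; exact lt_irrefl _ hs
  have h2 : zetaPole =ᶠ[𝓝 s] fun s ↦ (s - 1) * riemannZeta s := by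
    filter_upwards [isOpen_ne.mem_nhds hs1] with z hz
    exact zetaPole_of_ne hz
  rw [h2.deriv_eq, zetaPole_of_ne hs1]
  have h3 : HasDerivAt (fun s ↦ (s - 1) * riemannZeta s)
      (1 * riemannZeta s + (s - 1) * deriv riemannZeta s) s :=
    ((hasDerivAt_id s).sub_const 1).mul (differentiableAt_riemannZeta hs1).hasDerivAt
  rw [h3.deriv]
  have h4 : lam s = - deriv riemannZeta s / riemannZeta s :=
    ArithmeticFunction.LSeries_vonMangoldt_eq_deriv_riemannZeta_div hs
  rw [h4]
  have h5 := riemannZeta_ne_zero_of_one_lt_re hs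
  have h6 : s - 1 ≠ 0 := sub_ne_zero.mpr hs1
  field_simp
  ring

/-- `-ζ'/ζ(σ) ≤ 1/(σ-1) + C` -/
private lemma lam_real : ∃ C : ℝ, 0 < C ∧ ∀ σ : ℝ, 1 < σ → σ ≤ 2 →
    (lam (σ : ℂ)).re ≤ 1 / (σ - 1) + C := by
  have hc : ContinuousOn (fun x : ℝ => deriv zetaPole (x : ℂ) / zetaPole (x : ℂ)) (Icc 1 2) := by
    apply ContinuousOn.div
    · have : Continuous (deriv zetaPole) := by
        have h := zetaPole_differentiable.contDiff (n := 1)
        exact h.continuous_deriv le_rfl
      exact (this.comp continuous_ofReal).continuousOn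
    · exact (zetaPole_differentiable.continuous.comp continuous_ofReal).continuousOn
    · intro x hx
      exact zetaPole_ne_zero_of_one_le (by simpa using hx.1)
  obtain ⟨B, hB⟩ := isCompact_Icc.exists_bound_of_continuousOn hc
  refine ⟨max B 1, by positivity, fun σ h1 h2 => ?_⟩
  have h3 := hB σ ⟨h1.le, h2⟩
  have h4 := logDeriv_zetaPole (s := (σ : ℂ)) (by simpa using h1)
  have h5 : lam (σ : ℂ) = 1 / ((σ : ℂ) - 1) - deriv zetaPole σ / zetaPole σ := by
    rw [h4]; ring
  rw [h5, Complex.sub_re]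
  have h6 : (1 / ((σ : ℂ) - 1)).re = 1 / (σ - 1) := by
    have : (1 / ((σ : ℂ) - 1)) = ((1 / (σ - 1) : ℝ) : ℂ) := by push_cast; ring
    rw [this, Complex.ofReal_re]
  rw [h6]
  have h7 := (Complex.abs_re_le_norm (deriv zetaPole (σ : ℂ) / zetaPole σ)).trans h3
  rw [abs_le] at h7
  have := le_max_left B 1
  linarith [h7.1]

/-- real part of `1/(z-u)` for `z` to the right of `u` -/
private lemma re_inv_nonneg {z u : ℂ} (h : u.re ≤ z.re) (k : ℕ) :
    0 ≤ ((k : ℂ) / (z - u)).re := by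
  have : ((k : ℂ) / (z - u)).re = k * (z.re - u.re) / Complex.normSq (z - u) := by
    rw [Complex.div_re]
    simp
  rw [this]
  have h1 := Complex.normSq_nonneg (z - u)
  have h2 : 0 ≤ z.re - u.re := by linarith
  positivity

theorem classical : ∃ c : ℝ, 0 < c ∧ ∀ s : ℂ, riemannZeta s = 0 → 0 < s.re →
    s.re ≤ 1 - c / Real.log (2 + |s.im|) := by
  obtain ⟨C, hC, hloc⟩ := zeta_loc (σ1 := 3 / 4) (σ2 := 1) (by norm_num) (by norm_num)
    (by norm_num)
  obtain ⟨C0, hC0, hreal⟩ := lam_real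
  have hl2 : 0 < Real.log 2 := Real.log_pos (by norm_num)
  -- zeros of small height
  obtain ⟨c1, hc1, hc1'⟩ : ∃ c1 : ℝ, 0 < c1 ∧ ∀ s : ℂ, zetaPole s = 0 → 0 < s.re →
      |s.im| ≤ 1 → s.re ≤ 1 - c1 := by
    have hfin := zset_finite 0 1
    rcases {u : ℂ | (0:ℝ) < u.re ∧ |u.im| ≤ 1 ∧ zetaPole u = 0}.eq_empty_or_nonempty with he | hne
    · refine ⟨1, one_pos, fun s h1 h2 h3 => ?_⟩
      have : s ∈ {u : ℂ | (0:ℝ) < u.re ∧ |u.im| ≤ 1 ∧ zetaPole u = 0} := ⟨h2, h3, h1⟩
      rw [he] at this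
      exact absurd this (notMem_empty _)
    · obtain ⟨u, hu, hmax⟩ := hfin.exists_maximalFor (fun u : ℂ => u.re) _ hne
      have hlt : u.re < 1 := by
        by_contra h
        exact zetaPole_ne_zero_of_one_le (not_lt.1 h) hu.2.2
      refine ⟨1 - u.re, by linarith, fun s h1 h2 h3 => ?_⟩
      have hs : s ∈ {u : ℂ | (0:ℝ) < u.re ∧ |u.im| ≤ 1 ∧ zetaPole u = 0} := ⟨h2, h3, h1⟩
      by_contra hcon
      have h4 : u.re ≤ s.re := by linarith
      have := hmax hs h4
      simp only at this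
      linarith
  -- the constants
  set D : ℝ := 3 * C0 / Real.log 2 + 10 * C + 6 / Real.log 2 with hD
  have hDpos : 0 < D := by positivity
  set a : ℝ := min (1 / (2 * D)) (Real.log 2) with ha
  have hapos : 0 < a := lt_min (by positivity) hl2
  set c2 : ℝ := a * (1 - D * a) / (3 + D * a) with hc2
  have hDa : D * a ≤ 1 / 2 := by
    calc D * a ≤ D * (1 / (2 * D)) := by gcongr; exact min_le_left _ _
      _ = 1 / 2 := by field_simp
  have hc2pos : 0 < c2 := by
    have : 0 < 1 - D * a := by linarith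
    positivity
  set c : ℝ := min (min (c1 * Real.log 2) c2) (1 / 4 * Real.log 2) with hc
  have hcpos : 0 < c := lt_min (lt_min (by positivity) hc2pos) (by positivity)
  refine ⟨c, hcpos, fun s hs hs0 => ?_⟩
  have hs1 : s.re < 1 := by
    by_contra h
    exact riemannZeta_ne_zero_of_one_le_re (not_lt.1 h) hs
  have hsne : s ≠ 1 := by
    intro h; rw [h, one_re] at hs1; exact lt_irrefl _ hs1
  have hz : zetaPole s = 0 := by rw [zetaPole_of_ne hsne, hs, mul_zero]
  set L : ℝ := Real.log (2 + |s.im|) with hL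
  have hL2 : Real.log 2 ≤ L := Real.log_le_log (by norm_num) (by linarith [abs_nonneg s.im])
  have hLpos : 0 < L := by linarith
  rcases le_or_gt |s.im| 1 with him | him
  · have h1 := hc1' s hz hs0 him
    have h2 : c / L ≤ c1 := by
      rw [div_le_iff₀ hLpos]
      calc c ≤ c1 * Real.log 2 := (min_le_left _ _).trans (min_le_left _ _)
        _ ≤ c1 * L := by gcongr
    linarith
  rcases le_or_gt s.re (3 / 4) with hre | hre
  · have h2 : c / L ≤ 1 / 4 := by
      rw [div_le_iff₀ hLpos]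
      calc c ≤ 1 / 4 * Real.log 2 := min_le_right _ _
        _ ≤ 1 / 4 * L := by gcongr
    linarith
  -- the main case
  set t : ℝ := s.im with ht
  set σ : ℝ := 1 + a / L with hσ
  have haL : 0 < a / L := by positivity
  have haL1 : a / L ≤ 1 := by
    rw [div_le_one hLpos]
    exact (min_le_right _ _).trans hL2
  have hσ1 : 1 < σ := by rw [hσ]; linarith
  have hσ2 : σ ≤ 2 := by rw [hσ]; linarith
  -- one point at height `u`
  have hpt : ∀ u : ℝ, 1 < |u| → (lam ((σ : ℂ) + u * I)).re ≤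
      1 + C * Real.log (|u| + 2) := by
    intro u hu
    obtain ⟨S, hS1, hS2, hS3, hS4⟩ := hloc u
    have hzb : (σ : ℂ) + u * I ∈ closedBall ((2:ℂ) + u * I) (2 - 1) := by
      rw [mem_closedBall, dist_eq_norm]
      have : (σ : ℂ) + u * I - (2 + u * I) = ((σ - 2 : ℝ) : ℂ) := by push_cast; ring
      rw [this, Complex.norm_real, Real.norm_eq_abs, abs_le]
      constructor <;> linarith
    have hzne : zetaPole ((σ : ℂ) + u * I) ≠ 0 :=
      zetaPole_ne_zero_of_one_le (by simp; exact hσ1.le)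
    have h1 := hS4 _ hzb hzne
    have h2 := logDeriv_zetaPole (s := (σ : ℂ) + u * I) (by simpa using hσ1)
    rw [h2] at h1
    have h3 := (Complex.abs_re_le_norm _).trans h1
    rw [abs_le] at h3
    rw [Complex.sub_re, Complex.sub_re, Complex.re_sum] at h3
    have h4 : 0 ≤ ∑ v ∈ S, ((zord v : ℂ) / ((σ : ℂ) + u * I - v)).re := by
      apply Finset.sum_nonneg
      intro v hv
      apply re_inv_nonneg
      have h5 := (hS1 v).1 hv
      by_contra h6
      have h7 : 1 ≤ v.re := by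
        simp at h6
        linarith
      exact zetaPole_ne_zero_of_one_le h7 h5.2
    have h5 : (1 / ((σ : ℂ) + u * I - 1)).re ≤ 1 := by
      have h6 : ‖1 / ((σ : ℂ) + u * I - 1)‖ ≤ 1 := by
        rw [norm_div, norm_one]
        have h7 := Complex.abs_im_le_norm ((σ : ℂ) + u * I - 1)
        simp at h7
        rw [div_le_one (by linarith)]
        linarith
      exact (Complex.re_le_norm _).trans h6
    linarith [h3.1]
  -- the point at the height of the zero
  have hpt0 : (lam ((σ : ℂ) + t * I)).re ≤ 1 + C * Real.log (|t| + 2) - 1 / (σ - s.re) := by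
    obtain ⟨S, hS1, hS2, hS3, hS4⟩ := hloc t
    have hzb : (σ : ℂ) + t * I ∈ closedBall ((2:ℂ) + t * I) (2 - 1) := by
      rw [mem_closedBall, dist_eq_norm]
      have : (σ : ℂ) + t * I - (2 + t * I) = ((σ - 2 : ℝ) : ℂ) := by push_cast; ring
      rw [this, Complex.norm_real, Real.norm_eq_abs, abs_le]
      constructor <;> linarith
    have hzne : zetaPole ((σ : ℂ) + t * I) ≠ 0 :=
      zetaPole_ne_zero_of_one_le (by simp; exact hσ1.le)
    have h1 := hS4 _ hzb hzne
    have h2 := logDeriv_zetaPole (s := (σ : ℂ) + t * I) (by simpa using hσ1)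
    rw [h2] at h1
    have h3 := (Complex.abs_re_le_norm _).trans h1
    rw [abs_le] at h3
    rw [Complex.sub_re, Complex.sub_re, Complex.re_sum] at h3
    have hsS : s ∈ S := by
      rw [hS1]
      refine ⟨?_, hz⟩
      rw [mem_closedBall, dist_eq_norm]
      have : s - (2 + t * I) = ((s.re - 2 : ℝ) : ℂ) := by
        apply Complex.ext <;> simp [ht]
      rw [this, Complex.norm_real, Real.norm_eq_abs, abs_le]
      constructor <;> linarith
    have h4 : 1 / (σ - s.re) ≤ ∑ v ∈ S, ((zord v : ℂ) / ((σ : ℂ) + t * I - v)).re := by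
      have h5 : ((zord s : ℂ) / ((σ : ℂ) + t * I - s)).re ≤
          ∑ v ∈ S, ((zord v : ℂ) / ((σ : ℂ) + t * I - v)).re := by
        apply Finset.single_le_sum (f := fun v => ((zord v : ℂ) / ((σ : ℂ) + t * I - v)).re)
          _ hsS
        intro v hv
        apply re_inv_nonneg
        have h5 := (hS1 v).1 hv
        by_contra h6
        have h7 : 1 ≤ v.re := by
          simp at h6
          linarith
        exact zetaPole_ne_zero_of_one_le h7 h5.2
      refine le_trans ?_ h5
      have h6 : (σ : ℂ) + t * I - s = ((σ - s.re : ℝ) : ℂ) := by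
        apply Complex.ext <;> simp [ht]
      rw [h6]
      have h7 : ((zord s : ℂ) / ((σ - s.re : ℝ) : ℂ)).re = (zord s : ℝ) / (σ - s.re) := by
        have : ((zord s : ℂ) / ((σ - s.re : ℝ) : ℂ)) = (((zord s : ℝ) / (σ - s.re) : ℝ) : ℂ) := by
          push_cast
          rfl
        rw [this, Complex.ofReal_re]
      rw [h7]
      have h8 : (1 : ℝ) ≤ zord s := by exact_mod_cast zord_pos hz
      have h9 : 0 < σ - s.re := by linarith
      gcongr
    have h5 : (1 / ((σ : ℂ) + t * I - 1)).re ≤ 1 := by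
      have h6 : ‖1 / ((σ : ℂ) + t * I - 1)‖ ≤ 1 := by
        rw [norm_div, norm_one]
        have h7 := Complex.abs_im_le_norm ((σ : ℂ) + t * I - 1)
        simp at h7
        rw [div_le_one (by linarith)]
        linarith
      exact (Complex.re_le_norm _).trans h6
    linarith [h3.1]
  have hcomb := lam_comb hσ1 t
  have h1 := hreal σ hσ1 hσ2
  have h2 : 1 < |2 * t| := by
    rw [abs_mul, abs_two]
    linarith
  have h3 := hpt (2 * t) h2
  have h4 : Real.log (|t| + 2) = L := by rw [hL, add_comm]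
  have h5 : Real.log (|2 * t| + 2) ≤ 2 * L := by
    rw [hL]
    have : Real.log (|2 * t| + 2) ≤ Real.log ((2 + |t|) ^ 2) := by
      apply Real.log_le_log (by positivity)
      rw [abs_mul, abs_two]
      nlinarith [abs_nonneg t]
    rw [Real.log_pow] at this
    exact_mod_cast this
  rw [h4] at hpt0
  have h6 : (1 : ℝ) ≤ L / Real.log 2 := by rw [le_div_iff₀ hl2]; linarith
  have h7 : 1 / (σ - 1) = L / a := by
    have : σ - 1 = a / L := by rw [hσ]; ring
    rw [this, one_div_div]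
  have hσs : 0 < σ - s.re := by linarith
  have h8 : 4 * (1 / (σ - s.re)) ≤ (3 / a + D) * L := by
    have e1 : 3 * (lam (σ : ℂ)).re ≤ 3 * (L / a + C0) := by rw [← h7]; linarith
    have e2 : (lam ((σ : ℂ) + (2 * t : ℝ) * I)).re ≤ 1 + C * (2 * L) := by
      refine h3.trans ?_
      gcongr
    have e3 : 3 * C0 ≤ 3 * C0 * (L / Real.log 2) := by
      nlinarith
    have e4 : (5:ℝ) ≤ 6 * (L / Real.log 2) := by linarith
    have e5 : (3 / a + D) * L = 3 * (L / a) + 3 * C0 * (L / Real.log 2) + 10 * C * L +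
        6 * (L / Real.log 2) := by
      rw [hD]
      ring
    rw [e5]
    have e6 : 0 ≤ C * L := by positivity
    linarith
  have h9 : 4 * a / ((3 + D * a) * L) ≤ σ - s.re := by
    rw [div_le_iff₀ (by positivity)]
    have e1 : 4 ≤ (3 / a + D) * L * (σ - s.re) := by
      have := mul_le_mul_of_nonneg_right h8 hσs.le
      rw [mul_assoc, one_div, inv_mul_cancel₀ hσs.ne', mul_one] at this
      exact this
    have e2 : (3 / a + D) * L * (σ - s.re) * a = (3 + D * a) * L * (σ - s.re) := by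
      field_simp
    nlinarith [mul_le_mul_of_nonneg_right e1 hapos.le]
  have h10 : c / L ≤ 4 * a / ((3 + D * a) * L) - a / L := by
    have e1 : 4 * a / ((3 + D * a) * L) - a / L = c2 / L := by
      rw [hc2]
      field_simp
      ring
    rw [e1]
    gcongr
    exact (min_le_left _ _).trans (min_le_right _ _)
  have h11 : σ = 1 + a / L := hσ
  linarith

end Pool.Agent.H48.UP
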