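import Mathlib
import Pool.Agent.H48.UP.Classical
import Pool.Agent.H24.NB.ZeroExists

open Complex

namespace Pool.Agent.H48.UP

/-- the zeros of `ζ` in the critical strip -/
def Zer : Set ℂ := {r | riemannZeta r = 0 ∧ 0 < r.re ∧ r.re < 1}

/-- `ω(x) = inf_ρ ((1 - β) log x + log (1 + |γ|))` over the zeros `ρ = β + iγ` -/
noncomputable def om (x : ℝ) : ℝ :=
  sInf ((fun r : ℂ ↦ (1 - r.re) * Real.log x + Real.log (1 + |r.im|)) '' Zer)

lemma zer_one_sub {r : ℂ} (hr : r ∈ Zer) : 1 - r ∈ Zer := by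
  obtain ⟨h1, h2, h3⟩ := hr
  refine ⟨?_, by simp only [sub_re, one_re]; linarith, by simp only [sub_re, one_re]; linarith⟩
  rw [riemannZeta_one_sub (fun n h => ?_) (fun h => ?_), h1, mul_zero]
  · rw [h] at h2
    simp only [neg_re, natCast_re] at h2
    have : (0:ℝ) ≤ n := n.cast_nonneg
    linarith
  · rw [h] at h3
    simp at h3

lemma zer_half : ∃ r ∈ Zer, 1 / 2 ≤ r.re := by
  obtain ⟨s, h1, h2, h3⟩ := Pool.Agent.H24.NB.exists_zero
  have hs : s ∈ Zer := ⟨h3, h1, h2⟩
  by_cases h : 1 / 2 ≤ s.re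
  · exact ⟨s, hs, h⟩
  · exact ⟨1 - s, zer_one_sub hs, by simp only [sub_re, one_re]; linarith⟩

lemma term_nonneg {x : ℝ} (hx : 1 ≤ x) {r : ℂ} (hr : r ∈ Zer) :
    0 ≤ (1 - r.re) * Real.log x + Real.log (1 + |r.im|) := by
  have h1 : 0 ≤ Real.log x := Real.log_nonneg hx
  have h2 : 0 ≤ Real.log (1 + |r.im|) := Real.log_nonneg (by linarith [abs_nonneg r.im])
  have h3 : 0 ≤ 1 - r.re := by linarith [hr.2.2]
  positivity

lemma bdd {x : ℝ} (hx : 1 ≤ x) :
    BddBelow ((fun r : ℂ ↦ (1 - r.re) * Real.log x + Real.log (1 + |r.im|)) '' Zer) := by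
  refine ⟨0, ?_⟩
  rintro _ ⟨r, hr, rfl⟩
  exact term_nonneg hx hr

lemma nonem (x : ℝ) :
    ((fun r : ℂ ↦ (1 - r.re) * Real.log x + Real.log (1 + |r.im|)) '' Zer).Nonempty := by
  obtain ⟨r, hr, -⟩ := zer_half
  exact ⟨_, r, hr, rfl⟩

lemma le_om {x a : ℝ}
    (h : ∀ r ∈ Zer, a ≤ (1 - r.re) * Real.log x + Real.log (1 + |r.im|)) : a ≤ om x := by
  refine le_csInf (nonem x) ?_
  rintro _ ⟨r, hr, rfl⟩
  exact h r hr

lemma om_nonneg {x : ℝ} (hx : 1 ≤ x) : 0 ≤ om x := le_om fun _ hr => term_nonneg hx hr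

lemma om_le {x : ℝ} (hx : 1 ≤ x) {r : ℂ} (hr : r ∈ Zer) :
    om x ≤ (1 - r.re) * Real.log x + Real.log (1 + |r.im|) :=
  csInf_le (bdd hx) ⟨r, hr, rfl⟩

lemma om_near {x : ℝ} (_hx : 1 ≤ x) {d : ℝ} (hd : 0 < d) :
    ∃ r ∈ Zer, (1 - r.re) * Real.log x + Real.log (1 + |r.im|) ≤ om x + d := by
  obtain ⟨_, ⟨r, hr, rfl⟩, h⟩ := Real.lt_sInf_add_pos (nonem x) hd
  exact ⟨r, hr, h.le⟩

lemma om_concave {x y : ℝ} (hy : 1 ≤ y) (hyx : y ≤ x) (hx : 1 < x) :
    Real.log y / Real.log x * om x ≤ om y := by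
  have hlx : 0 < Real.log x := Real.log_pos hx
  have hly : 0 ≤ Real.log y := Real.log_nonneg hy
  have h1 : Real.log y / Real.log x ≤ 1 := by
    rw [div_le_one hlx]
    exact Real.log_le_log (by linarith) hyx
  have h0 : 0 ≤ Real.log y / Real.log x := by positivity
  refine le_om fun r hr => ?_
  have h2 := om_le hx.le hr
  have h3 : 0 ≤ Real.log (1 + |r.im|) := Real.log_nonneg (by linarith [abs_nonneg r.im])
  calc Real.log y / Real.log x * om x
      ≤ Real.log y / Real.log x * ((1 - r.re) * Real.log x + Real.log (1 + |r.im|)) := by gcongr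
    _ = (1 - r.re) * Real.log y + Real.log y / Real.log x * Real.log (1 + |r.im|) := by
        field_simp
    _ ≤ (1 - r.re) * Real.log y + 1 * Real.log (1 + |r.im|) := by gcongr
    _ = _ := by ring

lemma om_lower : ∃ c : ℝ, 0 < c ∧ ∀ x : ℝ, 2 ≤ x → c * Real.sqrt (Real.log x) ≤ om x := by
  obtain ⟨c, hc, hcl⟩ := classical
  refine ⟨min (Real.sqrt c) (c / 4), by positivity, fun x hx => le_om fun r hr => ?_⟩
  have hl2 : (1:ℝ) / 4 ≤ Real.log 2 := by
    have := Real.log_two_gt_d9
    linarith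
  have hlx : Real.log 2 ≤ Real.log x := Real.log_le_log (by norm_num) hx
  have hs : 0 ≤ Real.sqrt (Real.log x) := Real.sqrt_nonneg _
  have hss : Real.sqrt (Real.log x) * Real.sqrt (Real.log x) = Real.log x :=
    Real.mul_self_sqrt (by linarith)
  have hs2 : 1 / 2 ≤ Real.sqrt (Real.log x) := by
    refine Real.le_sqrt_of_sq_le ?_
    nlinarith
  have hz := hcl r hr.1 hr.2.1
  set L := Real.log (2 + |r.im|) with hL
  have hLp : 0 < L := Real.log_pos (by linarith [abs_nonneg r.im])
  have h1 : c / L ≤ 1 - r.re := by linarith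
  have h2 : 0 ≤ Real.log (1 + |r.im|) := Real.log_nonneg (by linarith [abs_nonneg r.im])
  have h3 : c / L * Real.log x ≤ (1 - r.re) * Real.log x := by
    apply mul_le_mul_of_nonneg_right h1; linarith
  by_cases hi : |r.im| ≤ 1
  · have hL2 : L ≤ 2 := by
      have : L ≤ Real.log 3 := Real.log_le_log (by linarith [abs_nonneg r.im]) (by linarith)
      have h4 : Real.log 3 ≤ 3 - 1 := Real.log_le_sub_one_of_pos (by norm_num)
      linarith
    have h5 : c / 2 ≤ c / L := by gcongr
    calc min (Real.sqrt c) (c / 4) * Real.sqrt (Real.log x)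
        ≤ c / 4 * Real.sqrt (Real.log x) := by gcongr; exact min_le_right _ _
      _ ≤ c / 2 * (Real.sqrt (Real.log x) * Real.sqrt (Real.log x)) := by
          have : c / 4 * Real.sqrt (Real.log x) = c / 2 * ((1/2) * Real.sqrt (Real.log x)) := by
            ring
          rw [this]
          gcongr
      _ = c / 2 * Real.log x := by rw [hss]
      _ ≤ c / L * Real.log x := by gcongr; linarith
      _ ≤ _ := by linarith
  · push Not at hi
    have h4 : L ≤ 2 * Real.log (1 + |r.im|) := by
      have : 2 * Real.log (1 + |r.im|) = Real.log ((1 + |r.im|) ^ 2) := by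
        rw [Real.log_pow]; norm_num
      rw [this, hL]
      apply Real.log_le_log (by linarith)
      nlinarith
    have h5 : Real.sqrt c * Real.sqrt (Real.log x) ≤ c / L * Real.log x + L / 2 := by
      have h6 : Real.sqrt c * Real.sqrt c = c := Real.mul_self_sqrt hc.le
      have h7 : Real.sqrt c * Real.sqrt (Real.log x) * L ≤
          (c / L * Real.log x + L / 2) * L := by
        have : (c / L * Real.log x + L / 2) * L = c * Real.log x + L ^ 2 / 2 := by
          field_simp
        rw [this]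
        set a := Real.sqrt c * Real.sqrt (Real.log x) with ha
        have haa : a ^ 2 = c * Real.log x := by
          rw [ha]
          calc _ = (Real.sqrt c * Real.sqrt c) * (Real.sqrt (Real.log x) *
              Real.sqrt (Real.log x)) := by ring
            _ = _ := by rw [h6, hss]
        nlinarith [sq_nonneg (a - L), sq_nonneg a]
      exact le_of_mul_le_mul_right h7 hLp
    calc min (Real.sqrt c) (c / 4) * Real.sqrt (Real.log x)
        ≤ Real.sqrt c * Real.sqrt (Real.log x) := by gcongr; exact min_le_left _ _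
      _ ≤ _ := h5
      _ ≤ _ := by linarith

lemma active (h : ∃ r ∈ Zer, 1 / 2 < r.re) {e : ℝ} (he : 0 < e) :
    ∃ k0 : ℝ, k0 < 1 / 2 ∧ ∃ x0 : ℝ, ∀ x : ℝ, x0 ≤ x → ∃ r ∈ Zer, 1 - k0 ≤ r.re ∧
      (1 - r.re) * Real.log x + Real.log (1 + |r.im|) ≤ (1 + e) * om x ∧
      om x / Real.log x * Real.log (1 + |r.im|) ≤ e * om x := by
  set K := sInf ((fun r : ℂ ↦ 1 - r.re) '' Zer) with hK
  have hbd : BddBelow ((fun r : ℂ ↦ 1 - r.re) '' Zer) := by
    refine ⟨0, ?_⟩
    rintro _ ⟨r, hr, rfl⟩
    have := hr.2.2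
    simp only
    linarith
  have hne : ((fun r : ℂ ↦ 1 - r.re) '' Zer).Nonempty := by
    obtain ⟨r, hr, -⟩ := h
    exact ⟨_, r, hr, rfl⟩
  have hK0 : 0 ≤ K := by
    refine le_csInf hne ?_
    rintro _ ⟨r, hr, rfl⟩
    have := hr.2.2
    simp only
    linarith
  have hKle : ∀ r ∈ Zer, K ≤ 1 - r.re := fun r hr => csInf_le hbd ⟨r, hr, rfl⟩
  have hlogt : Filter.Tendsto Real.log Filter.atTop Filter.atTop := Real.tendsto_log_atTop
  rcases hK0.eq_or_lt with h0 | hpos
  · -- zeros approach the line `Re s = 1`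
    set d := min (1 / 8) (e / (4 * (1 + e))) with hd
    have hdp : 0 < d := by positivity
    obtain ⟨_, ⟨r0, hr0, rfl⟩, hr0'⟩ := Real.lt_sInf_add_pos hne hdp
    have hr0d : 1 - r0.re < d := by
      have : (1 - r0.re : ℝ) < K + d := hr0'
      rw [← h0] at this
      linarith
    obtain ⟨c, hc, hlow⟩ := om_lower
    have hev : ∀ᶠ x : ℝ in Filter.atTop, 2 ≤ x ∧ 2 ≤ Real.log x ∧
        Real.log (1 + |r0.im|) / d ≤ Real.log x := by
      filter_upwards [Filter.eventually_ge_atTop 2, hlogt.eventually_ge_atTop 2,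
        hlogt.eventually_ge_atTop (Real.log (1 + |r0.im|) / d)] with x h1 h2 h3
      exact ⟨h1, h2, h3⟩
    obtain ⟨x0, hx0⟩ := Filter.eventually_atTop.1 hev
    refine ⟨1 / 2 - 1 / 16 + 0, by norm_num, x0, fun x hx => ?_⟩
    obtain ⟨hx2, hl2, hl3⟩ := hx0 x hx
    have hlp : 0 < Real.log x := by linarith
    have homp : 0 < om x := by
      have := hlow x hx2
      have h5 : 0 < Real.sqrt (Real.log x) := Real.sqrt_pos.2 hlp
      have : 0 < c * Real.sqrt (Real.log x) := by positivity
      linarith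
    -- `om x ≤ 2 d log x`
    have hom2 : om x ≤ 2 * d * Real.log x := by
      have h5 := om_le (x := x) (by linarith) hr0
      have h6 : (1 - r0.re) * Real.log x ≤ d * Real.log x := by gcongr
      have h7 : Real.log (1 + |r0.im|) ≤ d * Real.log x := by
        rw [div_le_iff₀ hdp] at hl3
        linarith
      linarith
    set e1 := min e (1 / 2) with he1
    have he1p : 0 < e1 := by positivity
    obtain ⟨r, hr, hrn⟩ := om_near (x := x) (by linarith) (d := e1 * om x) (by positivity)
    have hh : 0 ≤ Real.log (1 + |r.im|) := Real.log_nonneg (by linarith [abs_nonneg r.im])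
    have hh2 : 0 ≤ (1 - r.re) * Real.log x := by
      have : 0 ≤ 1 - r.re := by linarith [hr.2.2]
      positivity
    have he1e : e1 ≤ e := min_le_left _ _
    have he1h : e1 ≤ 1 / 2 := min_le_right _ _
    have hd8 : d ≤ 1 / 8 := min_le_left _ _
    have hde : d ≤ e / (4 * (1 + e)) := min_le_right _ _
    refine ⟨r, hr, ?_, ?_, ?_⟩
    · have h8 : (1 - r.re) * Real.log x ≤ 3 / 8 * Real.log x := by
        calc (1 - r.re) * Real.log x ≤ om x + e1 * om x := by linarith
          _ = (1 + e1) * om x := by ring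
          _ ≤ (1 + 1 / 2) * (2 * (1/8) * Real.log x) := by
              have : om x ≤ 2 * (1/8) * Real.log x := by
                calc om x ≤ 2 * d * Real.log x := hom2
                  _ ≤ _ := by gcongr
              gcongr
          _ = _ := by ring
      have := le_of_mul_le_mul_right h8 hlp
      linarith
    · calc _ ≤ om x + e1 * om x := hrn
        _ ≤ om x + e * om x := by gcongr
        _ = _ := by ring
    · have h9 : om x / Real.log x ≤ 2 * d := by
        rw [div_le_iff₀ hlp]; exact hom2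
      have h10 : Real.log (1 + |r.im|) ≤ (1 + e) * om x := by
        calc _ ≤ om x + e1 * om x := by linarith
          _ ≤ om x + e * om x := by gcongr
          _ = _ := by ring
      calc om x / Real.log x * Real.log (1 + |r.im|) ≤ 2 * d * ((1 + e) * om x) := by
            gcongr
        _ ≤ 2 * (e / (4 * (1 + e))) * ((1 + e) * om x) := by gcongr
        _ = e / 2 * om x := by field_simp; ring
        _ ≤ e * om x := by gcongr; linarith
  · -- the supremum of the real parts is less than one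
    have hlt : K < min (1 / 2) ((1 + e / 2) * K) := by
      refine lt_min ?_ (by nlinarith)
      obtain ⟨r, hr, hr2⟩ := h
      have := hKle r hr
      linarith
    obtain ⟨_, ⟨r0, hr0, rfl⟩, hr0'⟩ := exists_lt_of_csInf_lt hne hlt
    have hr0a : 1 - r0.re < 1 / 2 := lt_of_lt_of_le hr0' (min_le_left _ _)
    have hr0b : 1 - r0.re < (1 + e / 2) * K := lt_of_lt_of_le hr0' (min_le_right _ _)
    have hev : ∀ᶠ x : ℝ in Filter.atTop, 2 ≤ x ∧ 2 ≤ Real.log x ∧
        Real.log (1 + |r0.im|) / (e / 2 * K) ≤ Real.log x ∧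
        Real.log (1 + |r0.im|) / e ≤ Real.log x := by
      filter_upwards [Filter.eventually_ge_atTop 2, hlogt.eventually_ge_atTop 2,
        hlogt.eventually_ge_atTop (Real.log (1 + |r0.im|) / (e / 2 * K)),
        hlogt.eventually_ge_atTop (Real.log (1 + |r0.im|) / e)] with x h1 h2 h3 h4
      exact ⟨h1, h2, h3, h4⟩
    obtain ⟨x0, hx0⟩ := Filter.eventually_atTop.1 hev
    refine ⟨1 - r0.re, hr0a, x0, fun x hx => ⟨r0, hr0, by linarith, ?_, ?_⟩⟩
    all_goals
      obtain ⟨hx2, hl2, hl3, hl4⟩ := hx0 x hx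
      have hlp : 0 < Real.log x := by linarith
    · have hKom : K * Real.log x ≤ om x := le_om fun r hr => by
        have h5 := hKle r hr
        have h6 : 0 ≤ Real.log (1 + |r.im|) := Real.log_nonneg (by linarith [abs_nonneg r.im])
        have h7 : K * Real.log x ≤ (1 - r.re) * Real.log x := by gcongr
        linarith
      have h8 : Real.log (1 + |r0.im|) ≤ e / 2 * K * Real.log x := by
        rw [div_le_iff₀ (by positivity)] at hl3
        linarith
      have h9 : (1 - r0.re) * Real.log x ≤ (1 + e / 2) * K * Real.log x := by gcongr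
      calc _ ≤ (1 + e / 2) * K * Real.log x + e / 2 * K * Real.log x := by linarith
        _ = (1 + e) * (K * Real.log x) := by ring
        _ ≤ _ := by gcongr
    · have h8 : Real.log (1 + |r0.im|) ≤ e * Real.log x := by
        rw [div_le_iff₀ (by positivity)] at hl4
        linarith
      have h9 : 0 ≤ om x := om_nonneg (by linarith)
      calc om x / Real.log x * Real.log (1 + |r0.im|) ≤ om x / Real.log x * (e * Real.log x) := by
            gcongr
        _ = e * om x := by field_simp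

lemma rh_case (h : ¬ ∃ r ∈ Zer, 1 / 2 < r.re) :
    (∀ x : ℝ, 1 ≤ x → Real.log x / 2 ≤ om x) ∧
      ∃ C : ℝ, ∀ x : ℝ, 1 ≤ x → om x ≤ Real.log x / 2 + C := by
  push Not at h
  constructor
  · intro x hx
    refine le_om fun r hr => ?_
    have h1 := h r hr
    have h2 : 0 ≤ Real.log (1 + |r.im|) := Real.log_nonneg (by linarith [abs_nonneg r.im])
    have h3 : 0 ≤ Real.log x := Real.log_nonneg hx
    nlinarith
  · obtain ⟨r, hr, hr2⟩ := zer_half
    refine ⟨Real.log (1 + |r.im|), fun x hx => ?_⟩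
    have h1 := om_le hx hr
    have h3 : 0 ≤ Real.log x := Real.log_nonneg hx
    nlinarith

end Pool.Agent.H48.UP
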