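import Mathlib
import Pool.Agent.H6.CertEuler
import Pool.Agent.H6.LiouvilleSum

/-!
`λ = g * f` for a completely multiplicative `f` with values in `[-1,1]`, where `|g| ≤ 1 * f`.
-/

open Finset ArithmeticFunction

namespace Pool.Agent.H48.UP

open Pool.Agent.H6

/-- the Liouville function with real values -/
noncomputable def lamR : ArithmeticFunction ℝ := ⟨fun n ↦ ((liouZ n : ℤ) : ℝ), by simp⟩

/-- `μ f` -/
noncomputable def muf (f : ℕ →*₀ ℝ) : ArithmeticFunction ℝ :=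
  ⟨fun n ↦ (ArithmeticFunction.moebius n : ℝ) * f n, by simp⟩

/-- `g = λ * (μ f)` -/
noncomputable def gc (f : ℕ →*₀ ℝ) : ArithmeticFunction ℝ := lamR * muf f

lemma arith_apply (f : ℕ →*₀ ℝ) (n : ℕ) : arith f n = f n := rfl

lemma lamR_apply (n : ℕ) : lamR n = ((liouZ n : ℤ) : ℝ) := rfl

lemma muf_apply (f : ℕ →*₀ ℝ) (n : ℕ) : muf f n = (ArithmeticFunction.moebius n : ℝ) * f n := rfl

lemma muf_mul_arith (f : ℕ →*₀ ℝ) : muf f * arith f = 1 := by
  ext n
  rw [ArithmeticFunction.mul_apply]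
  have h1 : ∀ x ∈ n.divisorsAntidiagonal, muf f x.1 * arith f x.2
      = (ArithmeticFunction.moebius x.1 : ℝ) * f n := by
    intro x hx
    rw [Nat.mem_divisorsAntidiagonal] at hx
    rw [muf_apply, arith_apply, ← hx.1, map_mul]
    ring
  rw [Finset.sum_congr rfl h1, ← Finset.sum_mul]
  have h2 : ∑ x ∈ n.divisorsAntidiagonal, (ArithmeticFunction.moebius x.1 : ℝ)
      = ((ArithmeticFunction.moebius * (ArithmeticFunction.zeta : ArithmeticFunction ℤ)) n : ℤ) := by
    rw [ArithmeticFunction.mul_apply]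
    push_cast
    refine Finset.sum_congr rfl fun x hx ↦ ?_
    rw [Nat.mem_divisorsAntidiagonal] at hx
    have : x.2 ≠ 0 := by
      rintro h
      rw [h, mul_zero] at hx
      exact hx.2 hx.1.symm
    simp [ArithmeticFunction.natCoe_apply, ArithmeticFunction.zeta_apply, this]
  rw [h2, ArithmeticFunction.moebius_mul_coe_zeta]
  by_cases hn : n = 1
  · subst hn
    simp
  · simp [ArithmeticFunction.one_apply_ne hn]

/-- `λ = g * f` -/
lemma gc_mul_arith (f : ℕ →*₀ ℝ) : gc f * arith f = lamR := by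
  unfold gc
  rw [mul_assoc, muf_mul_arith, mul_one]

lemma lamR_isMultiplicative : lamR.IsMultiplicative := by
  refine ⟨?_, ?_⟩
  · simp [lamR_apply]
  · intro m n _
    simp [lamR_apply, map_mul]

lemma muf_isMultiplicative (f : ℕ →*₀ ℝ) : (muf f).IsMultiplicative := by
  refine ⟨?_, ?_⟩
  · simp [muf_apply]
  · intro m n h
    rw [muf_apply, muf_apply, muf_apply,
      ArithmeticFunction.isMultiplicative_moebius.map_mul_of_coprime h, map_mul]
    push_cast
    ring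

lemma gc_isMultiplicative (f : ℕ →*₀ ℝ) : (gc f).IsMultiplicative :=
  lamR_isMultiplicative.mul (muf_isMultiplicative f)

lemma lamR_prime_pow {p : ℕ} (hp : p.Prime) (j : ℕ) : lamR (p ^ j) = (-1) ^ j := by
  rw [lamR_apply, map_pow, liouZ_prime hp]
  push_cast
  rfl

lemma muf_prime_pow (f : ℕ →*₀ ℝ) {p : ℕ} (hp : p.Prime) (k : ℕ) :
    muf f (p ^ (k + 2)) = 0 := by
  rw [muf_apply]
  have : ArithmeticFunction.moebius (p ^ (k + 2)) = 0 := by
    rw [ArithmeticFunction.moebius_apply_prime_pow hp (by omega)]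
    simp
  rw [this]
  simp

/-- the values of `g` at prime powers -/
lemma gc_prime_pow (f : ℕ →*₀ ℝ) {p : ℕ} (hp : p.Prime) (j : ℕ) :
    gc f (p ^ (j + 1)) = (-1) ^ (j + 1) * (1 + f p) := by
  unfold gc
  rw [ArithmeticFunction.mul_apply, Nat.sum_divisorsAntidiagonal' (fun a b ↦ lamR a * muf f b),
    Nat.divisors_prime_pow hp, Finset.sum_map, Finset.sum_range_succ', Finset.sum_range_succ']
  simp only [Function.Embedding.coeFn_mk]
  have h1 : ∑ k ∈ range j, lamR (p ^ (j + 1) / p ^ (k + 1 + 1)) * muf f (p ^ (k + 1 + 1)) = 0 := by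
    refine Finset.sum_eq_zero fun k _ ↦ ?_
    rw [muf_prime_pow f hp k, mul_zero]
  rw [h1]
  have h2 : p ^ (j + 1) / p ^ (0 + 1) = p ^ j := by
    rw [zero_add, pow_one, pow_succ, Nat.mul_div_cancel _ hp.pos]
  have h3 : muf f (p ^ (0 + 1)) = - f p := by
    rw [muf_apply, zero_add, pow_one, ArithmeticFunction.moebius_apply_prime hp]
    push_cast
    ring
  have h4 : muf f (p ^ 0) = 1 := by
    rw [pow_zero]
    exact (muf_isMultiplicative f).1
  rw [h2, h3, h4, pow_zero, Nat.div_one, lamR_prime_pow hp, lamR_prime_pow hp]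
  ring

lemma alt_ge {x : ℝ} (h1 : -1 ≤ x) (h2 : x ≤ 1) (n : ℕ) :
    1 + x ≤ ∑ i ∈ Finset.range (n + 2), x ^ i := by
  rcases le_or_gt 0 x with h | h
  · rw [Finset.sum_range_succ', Finset.sum_range_succ']
    have : 0 ≤ ∑ k ∈ Finset.range n, x ^ (k + 1 + 1) :=
      Finset.sum_nonneg fun i _ ↦ by positivity
    simp only [zero_add, pow_one, pow_zero]
    linarith
  · have h3 : (∑ i ∈ Finset.range (n + 2), x ^ i) * (1 - x) = 1 - x ^ (n + 2) :=
      geom_sum_mul_neg x (n + 2)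
    have h4 : x ^ (n + 2) ≤ x ^ 2 := by
      have h5 : |x| ≤ 1 := abs_le.mpr ⟨h1, h2⟩
      calc x ^ (n + 2) ≤ |x ^ (n + 2)| := le_abs_self _
        _ = |x| ^ n * x ^ 2 := by rw [abs_pow, pow_add, sq_abs]
        _ ≤ 1 * x ^ 2 := by
            refine mul_le_mul_of_nonneg_right (pow_le_one₀ (abs_nonneg _) h5) (by positivity)
        _ = x ^ 2 := one_mul _
    have h6 : 0 < 1 - x := by linarith
    by_contra hcon
    push Not at hcon
    nlinarith

lemma abs_gc_prime_pow_le {f : ℕ →*₀ ℝ} (hf : ∀ n, |f n| ≤ 1) {p : ℕ} (hp : p.Prime) (j : ℕ) :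
    |gc f (p ^ j)| ≤ oneConv (fun n ↦ f n) (p ^ j) := by
  obtain ⟨h1, h2⟩ := abs_le.mp (hf p)
  rcases j with _ | j
  · rw [pow_zero, (gc_isMultiplicative f).1, oneConv_one]
    simp
  · rw [gc_prime_pow f hp, oneConv_prime_pow f hp, abs_mul, abs_pow, abs_neg, abs_one, one_pow,
      one_mul, abs_of_nonneg (by linarith)]
    exact alt_ge h1 h2 j

/-- **`|g| ≤ 1 * f`** -/
theorem abs_gc_le {f : ℕ →*₀ ℝ} (hf : ∀ n, |f n| ≤ 1) (k : ℕ) :
    |gc f k| ≤ oneConv (fun n ↦ f n) k := by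
  rcases eq_or_ne k 0 with rfl | hk
  · rw [oneConv_zero]
    simp
  · rw [Nat.multiplicative_factorization (fun k ↦ oneConv (fun n ↦ f n) k)
      (fun x y h ↦ oneConv_mul f h) (oneConv_one f) hk,
      Nat.multiplicative_factorization (fun k ↦ |gc f k|)
      (fun x y h ↦ by
        rw [(gc_isMultiplicative f).map_mul_of_coprime h, abs_mul])
      (by rw [(gc_isMultiplicative f).1, abs_one]) hk]
    refine Finset.prod_le_prod (fun p hp ↦ abs_nonneg _) fun p hp ↦ ?_
    have hpp : p.Prime := Nat.prime_of_mem_primeFactors (Nat.support_factorization k ▸ hp)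
    exact abs_gc_prime_pow_le hf hpp _

/-- sums of a Dirichlet convolution -/
lemma sum_conv {R : Type*} [CommRing R] (a b : ArithmeticFunction R) (w : ℕ → R) (X : ℕ) :
    ∑ k ∈ Icc 1 X, (a * b) k * w k = ∑ m ∈ Icc 1 X, a m * ∑ j ∈ Icc 1 (X / m), b j * w (m * j) := by
  have h0 : ∀ k ∈ Icc 1 X, (a * b) k * w k = ∑ m ∈ k.divisors, a m * b (k / m) * w k := by
    intro k _
    rw [ArithmeticFunction.mul_apply, Nat.sum_divisorsAntidiagonal (fun x y ↦ a x * b y),
      Finset.sum_mul]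
  rw [Finset.sum_congr rfl h0]
  rw [Finset.sum_comm' (t' := Icc 1 X) (s' := fun d ↦ (Icc 1 X).filter (d ∣ ·))]
  · refine Finset.sum_congr rfl fun d hd ↦ ?_
    rw [Finset.mem_Icc] at hd
    rw [Finset.mul_sum]
    symm
    refine Finset.sum_bij (fun j _ ↦ d * j) ?_ ?_ ?_ ?_
    · intro j hj
      rw [Finset.mem_Icc] at hj
      rw [Finset.mem_filter, Finset.mem_Icc]
      refine ⟨⟨Nat.mul_pos hd.1 hj.1, ?_⟩, dvd_mul_right d j⟩
      calc d * j ≤ d * (X / d) := Nat.mul_le_mul_left d hj.2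
        _ ≤ X := Nat.mul_div_le X d
    · intro a _ b _ h
      exact Nat.eq_of_mul_eq_mul_left hd.1 h
    · intro k hk
      rw [Finset.mem_filter, Finset.mem_Icc] at hk
      obtain ⟨⟨h1, h2⟩, j, rfl⟩ := hk
      refine ⟨j, ?_, rfl⟩
      rw [Finset.mem_Icc]
      constructor
      · rcases Nat.eq_zero_or_pos j with rfl | h
        · simp at h1
        · exact h
      · rw [Nat.le_div_iff_mul_le hd.1]
        rwa [mul_comm] at h2
    · intro j _
      rw [Nat.mul_div_cancel_left _ hd.1]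
      ring
  · intro k d
    simp only [Finset.mem_Icc, Nat.mem_divisors, Finset.mem_filter]
    constructor
    · rintro ⟨⟨h1, h2⟩, h3, h4⟩
      exact ⟨⟨⟨h1, h2⟩, h3⟩, Nat.pos_of_dvd_of_pos h3 h1, (Nat.le_of_dvd h1 h3).trans h2⟩
    · rintro ⟨⟨⟨h1, h2⟩, h3⟩, h4, h5⟩
      exact ⟨⟨h1, h2⟩, h3, by omega⟩

/-- `S_λ(x) = ∑_{m ≤ x} g(m)/m S_f(x/m)` -/
theorem lsum_lam (f : ℕ →*₀ ℝ) (X : ℕ) :
    lsum (fun n ↦ lamR n) X = ∑ m ∈ Icc 1 X, gc f m / m * lsum (fun n ↦ f n) (X / m) := by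
  have h := sum_conv (gc f) (arith f) (fun k ↦ (1 : ℝ) / k) X
  rw [gc_mul_arith] at h
  unfold lsum
  calc ∑ n ∈ Icc 1 X, lamR n / n = ∑ k ∈ Icc 1 X, lamR k * (1 / k) := by
        refine Finset.sum_congr rfl fun k _ ↦ ?_
        ring
    _ = _ := h
    _ = _ := by
        refine Finset.sum_congr rfl fun m _ ↦ ?_
        rw [Finset.mul_sum, Finset.mul_sum]
        refine Finset.sum_congr rfl fun j _ ↦ ?_
        rw [arith_apply]
        push_cast
        rw [one_div, mul_inv]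
        ring

end Pool.Agent.H48.UP
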