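import Mathlib
import Pool.Agent.H48.UP.Gcoef

/-!
Comparison of the logarithmic sums of a completely multiplicative `f : ℕ → [-1,1]` with those of
Liouville's function.
-/

open Finset ArithmeticFunction

namespace Pool.Agent.H48.UP

open Pool.Agent.H6

/-- logarithmic sums of `f` -/
noncomputable def S (f : ℕ →*₀ ℝ) (m : ℕ) : ℝ := lsum (fun n ↦ f n) m

/-- logarithmic sums of `λ` -/
noncomputable def Sl (m : ℕ) : ℝ := lsum (fun n ↦ lamR n) m

/-- `1 * f` -/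
noncomputable def hc (f : ℕ →*₀ ℝ) (k : ℕ) : ℝ := oneConv (fun n ↦ f n) k

variable {f : ℕ →*₀ ℝ}

lemma hc_nonneg (hf : ∀ n, |f n| ≤ 1) (k : ℕ) : 0 ≤ hc f k := oneConv_nonneg hf k

lemma Sl_eq (f : ℕ →*₀ ℝ) (X : ℕ) : Sl X = ∑ m ∈ Icc 1 X, gc f m / m * S f (X / m) :=
  lsum_lam f X

lemma abs_Sl_le (hf : ∀ n, |f n| ≤ 1) (X : ℕ) :
    |Sl X| ≤ ∑ m ∈ Icc 1 X, hc f m / m * |S f (X / m)| := by
  rw [Sl_eq f]
  refine (Finset.abs_sum_le_sum_abs _ _).trans (Finset.sum_le_sum fun m _ ↦ ?_)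
  rw [abs_mul, abs_div, Nat.abs_cast]
  refine mul_le_mul_of_nonneg_right ?_ (abs_nonneg _)
  exact div_le_div_of_nonneg_right (abs_gc_le hf m) (by positivity)

/-- the harmonic sum -/
lemma harm_le {X : ℕ} (_hX : 1 ≤ X) : ∑ n ∈ Icc 1 X, (1 : ℝ) / n ≤ 1 + Real.log X := by
  have h := harmonic_le_one_add_log X
  rw [harmonic_eq_sum_Icc] at h
  push_cast at h
  simpa [one_div] using h

lemma abs_S_le (hf : ∀ n, |f n| ≤ 1) {y : ℕ} (hy : 1 ≤ y) : |S f y| ≤ 1 + Real.log y := by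
  refine le_trans ?_ (harm_le hy)
  unfold S lsum
  refine (Finset.abs_sum_le_sum_abs _ _).trans (Finset.sum_le_sum fun m _ ↦ ?_)
  rw [abs_div, Nat.abs_cast]
  exact div_le_div_of_nonneg_right (hf m) (by positivity)

lemma abs_Sl_le_log {y : ℕ} (hy : 1 ≤ y) : |Sl y| ≤ 1 + Real.log y := by
  refine le_trans ?_ (harm_le hy)
  unfold Sl lsum
  refine (Finset.abs_sum_le_sum_abs _ _).trans (Finset.sum_le_sum fun m _ ↦ ?_)
  rw [abs_div, Nat.abs_cast]
  refine div_le_div_of_nonneg_right ?_ (by positivity)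
  show |lamR m| ≤ 1
  rw [lamR_apply]
  rcases eq_or_ne m 0 with rfl | hm
  · simp
  · rcases liouZ_eq hm with h | h <;> rw [h] <;> norm_num

/-- the positive part -/
noncomputable def Sp (f : ℕ →*₀ ℝ) (m : ℕ) : ℝ := max (S f m) 0

lemma Sp_nonneg (m : ℕ) : 0 ≤ Sp f m := le_max_right _ _

lemma S_le_Sp (m : ℕ) : S f m ≤ Sp f m := le_max_left _ _

/-- `P(X) = ∑_{m < X} S_f(m)^+` -/
noncomputable def P (f : ℕ →*₀ ℝ) (X : ℕ) : ℝ := ∑ m ∈ Ico 1 X, Sp f m

lemma P_nonneg (X : ℕ) : 0 ≤ P f X := Finset.sum_nonneg fun m _ ↦ Sp_nonneg m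

lemma P_mono {X Y : ℕ} (h : X ≤ Y) : P f X ≤ P f Y :=
  Finset.sum_le_sum_of_subset_of_nonneg (Finset.Ico_subset_Ico_right h) fun m _ _ ↦ Sp_nonneg m

lemma sum_kap_Sp_le (X : ℕ) : ∑ m ∈ Ico 1 X, Sp f m * kap X m ≤ 2 * X * P f X := by
  unfold P
  rw [Finset.mul_sum]
  refine Finset.sum_le_sum fun m hm ↦ ?_
  rw [Finset.mem_Ico] at hm
  have h1 := kap_le hm.1 hm.2
  have h2 : 0 ≤ Sp f m := Sp_nonneg m
  nlinarith

/-- `A(Y) = ∑_{k ≤ Y} (1*f)(k) ≤ 4 P(2Y)` -/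
theorem A_le (hf : ∀ n, |f n| ≤ 1) (Y : ℕ) : ∑ k ∈ Icc 1 Y, hc f k ≤ 4 * P f (2 * Y) := by
  rcases Nat.eq_zero_or_pos Y with rfl | hY0
  · simp [P]
  have hY0' : (0 : ℝ) < Y := by exact_mod_cast hY0
  have h1 : ∑ k ∈ Icc 1 (2 * Y), hc f k * (((2 * Y : ℕ) : ℝ) - k) ≤ 2 * (2 * Y : ℕ) * P f (2 * Y) := by
    unfold hc
    rw [sum_oneConv_linear]
    refine le_trans ?_ (sum_kap_Sp_le (2 * Y))
    refine Finset.sum_le_sum fun m hm ↦ ?_
    rw [Finset.mem_Ico] at hm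
    exact mul_le_mul_of_nonneg_right (S_le_Sp m) (kap_nonneg hm.1 hm.2)
  have h2 : (∑ k ∈ Icc 1 Y, hc f k) * Y
      ≤ ∑ k ∈ Icc 1 (2 * Y), hc f k * (((2 * Y : ℕ) : ℝ) - k) := by
    rw [Finset.sum_mul]
    calc ∑ k ∈ Icc 1 Y, hc f k * (Y : ℝ)
        ≤ ∑ k ∈ Icc 1 Y, hc f k * (((2 * Y : ℕ) : ℝ) - k) := by
          refine Finset.sum_le_sum fun k hk ↦ ?_
          rw [Finset.mem_Icc] at hk
          refine mul_le_mul_of_nonneg_left ?_ (hc_nonneg hf k)
          have : (k : ℝ) ≤ Y := by exact_mod_cast hk.2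
          push_cast
          linarith
      _ ≤ _ := by
          refine Finset.sum_le_sum_of_subset_of_nonneg ?_ ?_
          · intro k hk
            rw [Finset.mem_Icc] at hk ⊢
            omega
          · intro k hk _
            rw [Finset.mem_Icc] at hk
            refine mul_nonneg (hc_nonneg hf k) ?_
            have : (k : ℝ) ≤ ((2 * Y : ℕ) : ℝ) := by exact_mod_cast hk.2
            linarith
  have h3 : (∑ k ∈ Icc 1 Y, hc f k) * Y ≤ (4 * P f (2 * Y)) * Y := by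
    refine (h2.trans h1).trans (le_of_eq ?_)
    push_cast
    ring
  exact le_of_mul_le_mul_right h3 hY0'

/-- the top part of the `L¹` norm -/
theorem top_le (hf : ∀ n, |f n| ≤ 1) {X : ℕ} (hX1 : 1 ≤ X) :
    ∑ m ∈ (Ico 1 X).filter (fun m ↦ 3 * X ≤ 4 * m), |S f m| ≤ 8 * P f X := by
  have hX0 : (0 : ℝ) < X := by exact_mod_cast hX1
  have h0 : 0 ≤ ∑ m ∈ Ico 1 X, S f m * kap X m := by
    unfold S
    rw [← sum_oneConv_linear]
    refine Finset.sum_nonneg fun k hk ↦ ?_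
    rw [Finset.mem_Icc] at hk
    refine mul_nonneg (oneConv_nonneg hf k) ?_
    have : (k : ℝ) ≤ X := by exact_mod_cast hk.2
    linarith
  have h1 : ∀ m, |S f m| = 2 * Sp f m - S f m := by
    intro m
    unfold Sp
    rcases le_total (S f m) 0 with h | h
    · rw [max_eq_right h, abs_of_nonpos h]; ring
    · rw [max_eq_left h, abs_of_nonneg h]; ring
  have h2 : ∑ m ∈ Ico 1 X, |S f m| * kap X m ≤ 4 * X * P f X := by
    calc ∑ m ∈ Ico 1 X, |S f m| * kap X m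
        = 2 * ∑ m ∈ Ico 1 X, Sp f m * kap X m - ∑ m ∈ Ico 1 X, S f m * kap X m := by
          rw [Finset.mul_sum, ← Finset.sum_sub_distrib]
          refine Finset.sum_congr rfl fun m _ ↦ ?_
          rw [h1 m]
          ring
      _ ≤ 2 * (2 * X * P f X) - 0 := by
          have := sum_kap_Sp_le (f := f) X
          linarith
      _ = _ := by ring
  have h3 : (∑ m ∈ (Ico 1 X).filter (fun m ↦ 3 * X ≤ 4 * m), |S f m|) * (X / 2)
      ≤ ∑ m ∈ Ico 1 X, |S f m| * kap X m := by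
    rw [Finset.sum_mul]
    calc ∑ m ∈ (Ico 1 X).filter (fun m ↦ 3 * X ≤ 4 * m), |S f m| * ((X : ℝ) / 2)
        ≤ ∑ m ∈ (Ico 1 X).filter (fun m ↦ 3 * X ≤ 4 * m), |S f m| * kap X m := by
          refine Finset.sum_le_sum fun m hm ↦ ?_
          rw [Finset.mem_filter, Finset.mem_Ico] at hm
          refine mul_le_mul_of_nonneg_left ?_ (abs_nonneg _)
          rw [kap_top hm.1.2 (by omega)]
          have : (3 : ℝ) * X ≤ 4 * m := by exact_mod_cast hm.2
          linarith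
      _ ≤ _ := by
          refine Finset.sum_le_sum_of_subset_of_nonneg (Finset.filter_subset _ _) ?_
          intro m hm _
          rw [Finset.mem_Ico] at hm
          exact mul_nonneg (abs_nonneg _) (kap_nonneg hm.1 hm.2)
  have h5 : (∑ m ∈ (Ico 1 X).filter (fun m ↦ 3 * X ≤ 4 * m), |S f m|) * (X / 2)
      ≤ 8 * P f X * (X / 2) := by
    refine (h3.trans h2).trans (le_of_eq ?_)
    ring
  exact le_of_mul_le_mul_right h5 (by positivity)

/-- `∑_{k ≤ X} (1*f)(k)/k ≤ (1 + log X)²` -/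
theorem sum_hc_div_le (hf : ∀ n, |f n| ≤ 1) {X : ℕ} (hX : 1 ≤ X) :
    ∑ k ∈ Icc 1 X, hc f k / k ≤ (1 + Real.log X) ^ 2 := by
  have hL : 0 ≤ Real.log X := Real.log_natCast_nonneg X
  have h := sum_oneConv_mul (fun n ↦ f n) (fun k ↦ (1 : ℝ) / k) X
  have h1 : ∑ k ∈ Icc 1 X, hc f k / k = ∑ k ∈ Icc 1 X, oneConv (fun n ↦ f n) k * (1 / k) := by
    refine Finset.sum_congr rfl fun k _ ↦ ?_
    unfold hc
    ring
  rw [h1, h]
  calc ∑ d ∈ Icc 1 X, f d * ∑ j ∈ Icc 1 (X / d), (1 : ℝ) / ((d * j : ℕ) : ℝ)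
      ≤ ∑ d ∈ Icc 1 X, (1 : ℝ) / d * (1 + Real.log X) := by
        refine Finset.sum_le_sum fun d hd ↦ ?_
        rw [Finset.mem_Icc] at hd
        have hq : 1 ≤ X / d := Nat.div_pos hd.2 hd.1
        have e1 : ∑ j ∈ Icc 1 (X / d), (1 : ℝ) / ((d * j : ℕ) : ℝ)
            = (1 : ℝ) / d * ∑ j ∈ Icc 1 (X / d), (1 : ℝ) / j := by
          rw [Finset.mul_sum]
          refine Finset.sum_congr rfl fun j _ ↦ ?_
          push_cast
          rw [one_div, mul_inv]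
          ring
        have e2 : ∑ j ∈ Icc 1 (X / d), (1 : ℝ) / j ≤ 1 + Real.log X := by
          refine (harm_le hq).trans ?_
          have : Real.log ((X / d : ℕ) : ℝ) ≤ Real.log X := by
            refine Real.log_le_log (by exact_mod_cast hq) ?_
            exact_mod_cast Nat.div_le_self X d
          linarith
        have e3 : 0 ≤ ∑ j ∈ Icc 1 (X / d), (1 : ℝ) / j := Finset.sum_nonneg fun j _ ↦ by positivity
        rw [e1]
        have e4 : f d ≤ 1 := (abs_le.mp (hf d)).2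
        calc f d * ((1 : ℝ) / d * ∑ j ∈ Icc 1 (X / d), (1 : ℝ) / j)
            ≤ 1 * ((1 : ℝ) / d * ∑ j ∈ Icc 1 (X / d), (1 : ℝ) / j) :=
              mul_le_mul_of_nonneg_right e4 (by positivity)
          _ ≤ _ := by
              rw [one_mul]
              exact mul_le_mul_of_nonneg_left e2 (by positivity)
    _ = (∑ d ∈ Icc 1 X, (1 : ℝ) / d) * (1 + Real.log X) := by rw [Finset.sum_mul]
    _ ≤ (1 + Real.log X) * (1 + Real.log X) :=
        mul_le_mul_of_nonneg_right (harm_le hX) (by linarith)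
    _ = _ := by ring

end Pool.Agent.H48.UP
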