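import Mathlib
import Pool.Agent.H48.UP.Comp

/-!
`1 * λ` is the indicator function of the squares.
-/

open Finset ArithmeticFunction

namespace Pool.Agent.H48.UP

open Pool.Agent.H6

/-- Liouville's function as a homomorphism -/
noncomputable def lamH : ℕ →*₀ ℝ := (Int.castRingHom ℝ).toMonoidWithZeroHom.comp liouZ

lemma lamH_apply (n : ℕ) : lamH n = lamR n := rfl

lemma lamH_prime {p : ℕ} (hp : p.Prime) : lamH p = -1 := by
  rw [lamH_apply, lamR_apply, liouZ_prime hp]
  norm_num

lemma abs_lamH_le (n : ℕ) : |lamH n| ≤ 1 := by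
  rw [lamH_apply, lamR_apply]
  rcases eq_or_ne n 0 with rfl | hm
  · simp
  · rcases liouZ_eq hm with h | h <;> rw [h] <;> norm_num

lemma hc_lam_prime_pow {p : ℕ} (hp : p.Prime) (a : ℕ) :
    hc lamH (p ^ a) = if Even a then 1 else 0 := by
  unfold hc
  rw [oneConv_prime_pow lamH hp, lamH_prime hp, neg_one_geom_sum]
  by_cases h : Even a
  · rw [if_pos h, if_neg]
    intro h2
    exact (Nat.even_add_one.mp h2) h
  · rw [if_neg h, if_pos (Nat.even_add_one.mpr h)]

lemma hc_lam_sq {r : ℕ} (hr : r ≠ 0) : hc lamH (r ^ 2) = 1 := by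
  unfold hc
  rw [Nat.multiplicative_factorization (fun k ↦ oneConv (fun n ↦ lamH n) k)
    (fun x y h ↦ oneConv_mul lamH h) (oneConv_one lamH) (pow_ne_zero 2 hr)]
  refine Finset.prod_eq_one fun p hp ↦ ?_
  have hpp : p.Prime := Nat.prime_of_mem_primeFactors (Nat.support_factorization _ ▸ hp)
  have := hc_lam_prime_pow hpp ((r ^ 2).factorization p)
  unfold hc at this
  simp only
  rw [this, if_pos]
  rw [Nat.factorization_pow]
  simp

lemma hc_lam_nonsq {k : ℕ} (hk : k ≠ 0) (h : ∀ r : ℕ, r ^ 2 ≠ k) : hc lamH k = 0 := by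
  unfold hc
  rw [Nat.multiplicative_factorization (fun k ↦ oneConv (fun n ↦ lamH n) k)
    (fun x y h ↦ oneConv_mul lamH h) (oneConv_one lamH) hk]
  have h1 : ∃ p ∈ k.factorization.support, ¬ Even (k.factorization p) := by
    by_contra hcon
    push Not at hcon
    refine h (k.factorization.prod fun p a ↦ p ^ (a / 2)) ?_
    conv_rhs => rw [← Nat.prod_factorization_pow_eq_self hk]
    unfold Finsupp.prod
    rw [← Finset.prod_pow]
    refine Finset.prod_congr rfl fun p hp ↦ ?_
    rw [← pow_mul]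
    congr 1
    exact Nat.div_mul_cancel (even_iff_two_dvd.mp (hcon p hp))
  obtain ⟨p, hp, hodd⟩ := h1
  have hpp : p.Prime := Nat.prime_of_mem_primeFactors (Nat.support_factorization k ▸ hp)
  refine Finset.prod_eq_zero hp ?_
  have := hc_lam_prime_pow hpp (k.factorization p)
  unfold hc at this
  simp only
  rw [this, if_neg hodd]

/-- sums over squares -/
theorem sum_hc_lam {R : Type*} [CommRing R] [Algebra ℝ R] (w : ℕ → R) (N : ℕ) :
    ∑ k ∈ Icc 1 N, algebraMap ℝ R (hc lamH k) * w k = ∑ r ∈ Icc 1 (Nat.sqrt N), w (r ^ 2) := by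
  symm
  rw [← Finset.sum_subset (s₁ := (Icc 1 (Nat.sqrt N)).image (fun r ↦ r ^ 2)) (s₂ := Icc 1 N)]
  · rw [Finset.sum_image]
    · refine Finset.sum_congr rfl fun r hr ↦ ?_
      rw [Finset.mem_Icc] at hr
      rw [hc_lam_sq (by omega), map_one, one_mul]
    · intro a _ b _ hab
      exact Nat.pow_left_injective (n := 2) (by norm_num) hab
  · intro k hk
    rw [Finset.mem_image] at hk
    obtain ⟨r, hr, rfl⟩ := hk
    rw [Finset.mem_Icc] at hr ⊢
    refine ⟨Nat.pos_of_ne_zero (pow_ne_zero 2 (by omega)), ?_⟩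
    rw [← Nat.le_sqrt']
    exact hr.2
  · intro k hk hk2
    rw [Finset.mem_Icc] at hk
    rw [hc_lam_nonsq (by omega), _root_.map_zero, zero_mul]
    intro r hr
    refine hk2 (Finset.mem_image.mpr ⟨r, ?_, hr⟩)
    rw [Finset.mem_Icc]
    constructor
    · rcases Nat.eq_zero_or_pos r with rfl | h0
      · simp at hr; omega
      · exact h0
    · rw [Nat.le_sqrt', hr]
      exact hk.2

end Pool.Agent.H48.UP
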