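import Mathlib
import Pool.Agent.H48.UP.Sq

/-!
Lower bound for `∑_{r² ≤ N} r^{-2s} (N - r²)`, `re s > 1/2`.
-/

open Finset Complex

namespace Pool.Agent.H48.UP

open Pool.Agent.H6

/-- lower bound for `|ζ|` in the half-plane `re w ≥ 1 + η` -/
lemma zeta_lower {η : ℝ} (hη : 0 < η) : ∃ c : ℝ, 0 < c ∧ ∀ w : ℂ, 1 + η ≤ w.re →
    c ≤ ‖riemannZeta w‖ := by
  set Z : ℝ := ∑' n : ℕ, 1 / (n : ℝ) ^ (1 + η) with hZ
  have hsum : Summable fun n : ℕ ↦ 1 / (n : ℝ) ^ (1 + η) :=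
    Real.summable_one_div_nat_rpow.mpr (by linarith)
  have hZ1 : 1 ≤ Z := by
    have := hsum.sum_le_tsum {1} (fun n _ ↦ by positivity)
    rw [hZ]
    refine le_trans (le_of_eq ?_) this
    simp
  refine ⟨1 / Z, by positivity, fun w hw ↦ ?_⟩
  have hw1 : 1 < w.re := by linarith
  have h1 : riemannZeta w * LSeries (fun n ↦ ((ArithmeticFunction.moebius n : ℤ) : ℂ)) w = 1 := by
    have h2 := ArithmeticFunction.LSeries_zeta_mul_Lseries_moebius hw1
    rwa [ArithmeticFunction.LSeries_zeta_eq_riemannZeta hw1] at h2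
  have h2 : ‖LSeries (fun n ↦ ((ArithmeticFunction.moebius n : ℤ) : ℂ)) w‖ ≤ Z := by
    unfold LSeries
    have hb : ∀ n : ℕ, ‖LSeries.term (fun n ↦ ((ArithmeticFunction.moebius n : ℤ) : ℂ)) w n‖
        ≤ 1 / (n : ℝ) ^ (1 + η) := by
      intro n
      rcases Nat.eq_zero_or_pos n with rfl | hn
      · simp [LSeries.term, Real.zero_rpow (by linarith : (1 : ℝ) + η ≠ 0)]
      have hn1 : (1 : ℝ) ≤ n := by exact_mod_cast hn
      rw [LSeries.term_of_ne_zero (by omega), norm_div, norm_natCast_cpow_of_pos hn]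
      have h3 : ‖((ArithmeticFunction.moebius n : ℤ) : ℂ)‖ ≤ 1 := by
        rw [Complex.norm_intCast]
        exact_mod_cast ArithmeticFunction.abs_moebius_le_one
      have h4 : (n : ℝ) ^ (1 + η) ≤ (n : ℝ) ^ w.re := Real.rpow_le_rpow_of_exponent_le hn1 hw
      have h5 : 0 < (n : ℝ) ^ (1 + η) := by positivity
      calc _ ≤ 1 / (n : ℝ) ^ w.re := div_le_div_of_nonneg_right h3 (by positivity)
        _ ≤ _ := one_div_le_one_div_of_le h5 h4
    exact tsum_of_norm_bounded hsum.hasSum hb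
  have h3 : 1 = ‖riemannZeta w‖ * ‖LSeries (fun n ↦ ((ArithmeticFunction.moebius n : ℤ) : ℂ)) w‖ := by
    rw [← norm_mul, h1, norm_one]
  rw [div_le_iff₀ (by linarith)]
  have h4 : 0 ≤ ‖riemannZeta w‖ := norm_nonneg _
  nlinarith

/-- the smoothed sum over squares -/
theorem sq_lower {k0 : ℝ} (hk00 : 0 ≤ k0) (hk0 : k0 < 1 / 2) : ∃ c : ℝ, 0 < c ∧ ∃ N1 : ℕ, ∀ N : ℕ, N1 ≤ N →
    ∀ s : ℂ, 1 - k0 ≤ s.re → c * N ≤
      ‖∑ r ∈ Icc 1 (Nat.sqrt N), (((r ^ 2 : ℕ) : ℂ) ^ (-s) * ((N : ℂ) - ((r ^ 2 : ℕ) : ℂ)))‖ := by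
  set η : ℝ := 1 / 2 - k0 with hη
  have hη0 : 0 < η := by rw [hη]; linarith
  obtain ⟨c, hc, hzeta⟩ := zeta_lower (η := 2 * η) (by linarith)
  have hsum : Summable fun n : ℕ ↦ 1 / (n : ℝ) ^ (1 + η) :=
    Real.summable_one_div_nat_rpow.mpr (by linarith)
  set Z : ℝ := ∑' n : ℕ, 1 / (n : ℝ) ^ (1 + η) with hZ
  have hlim : Filter.Tendsto (fun N : ℕ ↦ Z * (N : ℝ) ^ (-(η / 2))) Filter.atTop (nhds (Z * 0)) :=
    ((tendsto_rpow_neg_atTop (by linarith : 0 < η / 2)).comp tendsto_natCast_atTop_atTop).const_mul Z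
  rw [mul_zero] at hlim
  obtain ⟨N1, hN1⟩ := Filter.eventually_atTop.mp (hlim.eventually (gt_mem_nhds (half_pos hc)))
  refine ⟨c / 2, by linarith, max N1 1, fun N hN s hs ↦ ?_⟩
  have hN0 : 1 ≤ N := (le_max_right _ _).trans hN
  have hNr : (0 : ℝ) < N := by exact_mod_cast hN0
  have hNc : (N : ℂ) ≠ 0 := by exact_mod_cast hNr.ne'
  have hsmall := hN1 N ((le_max_left _ _).trans hN)
  set w : ℂ := 2 * s with hw
  have hwre : w.re = 2 * s.re := by simp [hw]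
  have hw1 : 1 + 2 * η ≤ w.re := by rw [hwre, hη]; linarith
  -- the smooth weight
  set g : ℕ → ℝ := fun r ↦ max (1 - (r : ℝ) ^ 2 / N) 0 with hg
  have hbd : ∀ r : ℕ, ‖(1 / (r : ℂ) ^ w) * ((1 - g r : ℝ) : ℂ)‖
      ≤ (N : ℝ) ^ (-(η / 2)) * (1 / (r : ℝ) ^ (1 + η)) := by
    intro r
    rcases Nat.eq_zero_or_pos r with rfl | hr
    · have : (0 : ℂ) ^ w = 0 := zero_cpow (by
        intro h
        rw [h, zero_re] at hw1
        linarith)
      simp [this, Real.zero_rpow (by linarith : (1 : ℝ) + η ≠ 0)]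
    have hr1 : (1 : ℝ) ≤ r := by exact_mod_cast hr
    have hr0 : (0 : ℝ) < r := by linarith
    rw [norm_mul, norm_div, norm_one, norm_natCast_cpow_of_pos hr, norm_real, Real.norm_eq_abs]
    set q : ℝ := (r : ℝ) ^ 2 / N with hq
    have hq0 : 0 < q := by positivity
    have h1 : |1 - g r| ≤ q ^ (η / 2) := by
      rcases le_total q 1 with hq1 | hq1
      · have : g r = 1 - q := by rw [hg]; exact max_eq_left (by linarith)
        rw [this, show 1 - (1 - q) = q by ring, abs_of_pos hq0]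
        calc q = q ^ (1 : ℝ) := (Real.rpow_one q).symm
          _ ≤ q ^ (η / 2) := Real.rpow_le_rpow_of_exponent_ge hq0 hq1 (by rw [hη]; linarith)
      · have : g r = 0 := by rw [hg]; exact max_eq_right (by linarith)
        rw [this, sub_zero, abs_one]
        exact Real.one_le_rpow hq1 (by linarith)
    have h2 : q ^ (η / 2) = (r : ℝ) ^ η * (N : ℝ) ^ (-(η / 2)) := by
      rw [hq, Real.div_rpow (by positivity) hNr.le, Real.rpow_neg hNr.le, ← Real.rpow_natCast,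
        ← Real.rpow_mul hr0.le]
      have : ((2 : ℕ) : ℝ) * (η / 2) = η := by push_cast; ring
      rw [this]
      rfl
    have h3 : 1 / (r : ℝ) ^ w.re * (r : ℝ) ^ η ≤ 1 / (r : ℝ) ^ (1 + η) := by
      have h4 : (r : ℝ) ^ (1 + 2 * η) ≤ (r : ℝ) ^ w.re := Real.rpow_le_rpow_of_exponent_le hr1 hw1
      have h5 : (r : ℝ) ^ (1 + 2 * η) = (r : ℝ) ^ (1 + η) * (r : ℝ) ^ η := by
        rw [← Real.rpow_add hr0]
        ring_nf
      have h6 : 0 < (r : ℝ) ^ η := by positivity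
      have h7 : 0 < (r : ℝ) ^ (1 + η) := by positivity
      calc 1 / (r : ℝ) ^ w.re * (r : ℝ) ^ η ≤ 1 / (r : ℝ) ^ (1 + 2 * η) * (r : ℝ) ^ η := by
            refine mul_le_mul_of_nonneg_right ?_ h6.le
            exact one_div_le_one_div_of_le (by positivity) h4
        _ = _ := by rw [h5]; field_simp
    calc 1 / (r : ℝ) ^ w.re * |1 - g r|
        ≤ 1 / (r : ℝ) ^ w.re * ((r : ℝ) ^ η * (N : ℝ) ^ (-(η / 2))) := by
          rw [← h2]
          exact mul_le_mul_of_nonneg_left h1 (by positivity)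
      _ = (1 / (r : ℝ) ^ w.re * (r : ℝ) ^ η) * (N : ℝ) ^ (-(η / 2)) := by ring
      _ ≤ (1 / (r : ℝ) ^ (1 + η)) * (N : ℝ) ^ (-(η / 2)) :=
          mul_le_mul_of_nonneg_right h3 (by positivity)
      _ = _ := by ring
  have hsumD : Summable fun r : ℕ ↦ (1 / (r : ℂ) ^ w) * ((1 - g r : ℝ) : ℂ) :=
    Summable.of_norm_bounded (hsum.mul_left _) hbd
  have hD : ‖∑' r : ℕ, (1 / (r : ℂ) ^ w) * ((1 - g r : ℝ) : ℂ)‖ ≤ (N : ℝ) ^ (-(η / 2)) * Z :=
    tsum_of_norm_bounded (hsum.hasSum.mul_left _) hbd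
  have hw1' : 1 < w.re := by linarith
  have hsumz : Summable fun r : ℕ ↦ 1 / (r : ℂ) ^ w := Complex.summable_one_div_nat_cpow.mpr hw1'
  have hz := zeta_eq_tsum_one_div_nat_cpow hw1'
  -- the finite sum
  have hfin : ∑ r ∈ Icc 1 (Nat.sqrt N), (((r ^ 2 : ℕ) : ℂ) ^ (-s) * ((N : ℂ) - ((r ^ 2 : ℕ) : ℂ)))
      = N * (riemannZeta w - ∑' r : ℕ, (1 / (r : ℂ) ^ w) * ((1 - g r : ℝ) : ℂ)) := by
    have e1 : riemannZeta w - ∑' r : ℕ, (1 / (r : ℂ) ^ w) * ((1 - g r : ℝ) : ℂ)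
        = ∑' r : ℕ, (1 / (r : ℂ) ^ w) * (g r : ℂ) := by
      rw [hz, ← hsumz.tsum_sub hsumD]
      refine tsum_congr fun r ↦ ?_
      push_cast
      ring
    rw [e1, tsum_eq_sum (s := Icc 1 (Nat.sqrt N)), Finset.mul_sum]
    · refine Finset.sum_congr rfl fun r hr ↦ ?_
      rw [Finset.mem_Icc] at hr
      have hr0 : (r : ℂ) ≠ 0 := by
        have : r ≠ 0 := by omega
        exact_mod_cast this
      have hle : (r : ℝ) ^ 2 ≤ N := by
        have := Nat.le_sqrt'.mp hr.2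
        exact_mod_cast this
      have hg2 : g r = 1 - (r : ℝ) ^ 2 / N := by
        rw [hg]
        refine max_eq_left ?_
        rw [sub_nonneg, div_le_one hNr]
        exact hle
      have e2 : (((r ^ 2 : ℕ) : ℂ)) ^ (-s) = 1 / (r : ℂ) ^ w := by
        push_cast
        rw [← natCast_cpow_natCast_mul, one_div, ← cpow_neg]
        congr 1
        rw [hw]
        push_cast
        ring
      rw [e2, hg2]
      push_cast
      field_simp
    · intro r hr
      rw [Finset.mem_Icc] at hr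
      rcases Nat.eq_zero_or_pos r with rfl | hr1
      · have : (0 : ℂ) ^ w = 0 := zero_cpow (by
          intro h
          rw [h, zero_re] at hw1
          linarith)
        simp [this]
      · have h1 : Nat.sqrt N < r := by
          by_contra hcon
          exact hr ⟨hr1, by omega⟩
        have h2 : N < r ^ 2 := Nat.sqrt_lt'.mp h1
        have h3 : (N : ℝ) ≤ (r : ℝ) ^ 2 := by exact_mod_cast h2.le
        have : g r = 0 := by
          rw [hg]
          refine max_eq_right ?_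
          rw [sub_nonpos, one_le_div hNr]
          exact h3
        rw [this]
        simp
  rw [hfin, norm_mul, Complex.norm_natCast]
  have h1 := hzeta w (by linarith)
  have h2 : ‖riemannZeta w‖ - ‖∑' r : ℕ, (1 / (r : ℂ) ^ w) * ((1 - g r : ℝ) : ℂ)‖
      ≤ ‖riemannZeta w - ∑' r : ℕ, (1 / (r : ℂ) ^ w) * ((1 - g r : ℝ) : ℂ)‖ := norm_sub_norm_le _ _
  have h3 : c / 2 ≤ ‖riemannZeta w - ∑' r : ℕ, (1 / (r : ℂ) ^ w) * ((1 - g r : ℝ) : ℂ)‖ := by
    have : (N : ℝ) ^ (-(η / 2)) * Z = Z * (N : ℝ) ^ (-(η / 2)) := mul_comm _ _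
    linarith
  nlinarith

end Pool.Agent.H48.UP
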