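import Mathlib
import Pool.Agent.H48.UP.Comp

/-!
Theorem 1: at every scale the logarithmic sums of Liouville's function are the smallest ones.
-/

open Finset ArithmeticFunction

namespace Pool.Agent.H48.UP

open Pool.Agent.H6

variable {f : ℕ →*₀ ℝ}

/-- hypothesis: `S_f(y) ≤ ε` for `z < y ≤ 2x` -/
def Small (f : ℕ →*₀ ℝ) (z x : ℕ) (ε : ℝ) : Prop := ∀ y : ℕ, z < y → y ≤ 2 * x → S f y ≤ ε

lemma Sp_le_log (hf : ∀ n, |f n| ≤ 1) {x y : ℕ} (hy : 1 ≤ y) (hyx : y ≤ 2 * x) :
    Sp f y ≤ 1 + Real.log (2 * x) := by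
  have h1 := abs_S_le hf hy
  have h2 : Real.log y ≤ Real.log (2 * x) := by
    refine Real.log_le_log (by exact_mod_cast hy) ?_
    exact_mod_cast hyx
  have h3 : 0 ≤ Real.log y := Real.log_natCast_nonneg y
  unfold Sp
  refine max_le ((le_abs_self _).trans (by linarith)) (by linarith)

/-- `P(X) ≤ zL + Xε` -/
lemma P_le (hf : ∀ n, |f n| ≤ 1) {z x : ℕ} {ε : ℝ} (hε : 0 ≤ ε) (h : Small f z x ε) {X : ℕ}
    (hX : X ≤ 2 * x + 1) : P f X ≤ z * (1 + Real.log (2 * x)) + X * ε := by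
  have hL : 0 ≤ Real.log (2 * x) := by
    have := Real.log_natCast_nonneg (2 * x)
    push_cast at this
    exact this
  unfold P
  have h1 : ∀ m ∈ Ico 1 X, Sp f m ≤ (if m ≤ z then 1 + Real.log (2 * x) else 0) + ε := by
    intro m hm
    rw [Finset.mem_Ico] at hm
    split_ifs with hz
    · have := Sp_le_log hf (x := x) hm.1 (by omega)
      linarith
    · rw [zero_add]
      unfold Sp
      exact max_le (h m (by omega) (by omega)) hε
  refine (Finset.sum_le_sum h1).trans ?_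
  rw [Finset.sum_add_distrib, Finset.sum_const, Nat.card_Ico, nsmul_eq_mul, ← Finset.sum_filter,
    Finset.sum_const, nsmul_eq_mul]
  have h2 : (((Ico 1 X).filter (fun m ↦ m ≤ z)).card : ℝ) ≤ z := by
    have h3 : ((Ico 1 X).filter (fun m ↦ m ≤ z)) ⊆ Icc 1 z := by
      intro m hm
      rw [Finset.mem_filter, Finset.mem_Ico] at hm
      rw [Finset.mem_Icc]
      omega
    have h4 := Finset.card_le_card h3
    rw [Nat.card_Icc] at h4
    have h5 : ((Ico 1 X).filter (fun m ↦ m ≤ z)).card ≤ z := by omega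
    exact_mod_cast h5
  have h3 : ((X - 1 : ℕ) : ℝ) ≤ X := by exact_mod_cast Nat.sub_le X 1
  have h4 : 0 ≤ 1 + Real.log (2 * x) := by linarith
  nlinarith [mul_le_mul_of_nonneg_right h2 h4, mul_le_mul_of_nonneg_right h3 hε]

/-- `A(Y) ≤ 4zL + 8Yε` -/
lemma A_small (hf : ∀ n, |f n| ≤ 1) {z x : ℕ} {ε : ℝ} (hε : 0 ≤ ε) (h : Small f z x ε) {Y : ℕ}
    (hY : Y ≤ x) : ∑ k ∈ Icc 1 Y, hc f k ≤ 4 * z * (1 + Real.log (2 * x)) + 8 * Y * ε := by
  have h1 := A_le hf Y
  have h2 := P_le hf hε h (X := 2 * Y) (by omega)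
  push_cast at h2
  nlinarith

/-- partial summation -/
lemma tail_abel (hf : ∀ n, |f n| ≤ 1) {M : ℕ} (hM : 1 ≤ M) {x : ℕ} (hMx : M ≤ x) :
    ∑ m ∈ Icc M x, hc f m / m ≤ (∑ k ∈ Icc 1 x, hc f k) / x
      + ∑ m ∈ Ico M x, (∑ k ∈ Icc 1 m, hc f k) * (1 / m - 1 / ((m : ℝ) + 1)) := by
  induction x, hMx using Nat.le_induction with
  | base =>
    rw [Finset.Icc_self, Finset.sum_singleton, Finset.Ico_self, Finset.sum_empty, add_zero]
    refine div_le_div_of_nonneg_right ?_ (by positivity)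
    exact Finset.single_le_sum (f := fun k ↦ hc f k) (fun k _ ↦ hc_nonneg hf k)
      (Finset.mem_Icc.mpr ⟨hM, le_rfl⟩)
  | succ x hMx ih =>
    have hx0 : (0 : ℝ) < x := by
      have : 0 < x := by omega
      exact_mod_cast this
    rw [Finset.sum_Icc_succ_top (by omega), Finset.sum_Ico_succ_top hMx,
      Finset.sum_Icc_succ_top (by omega)]
    push_cast
    have e : (∑ k ∈ Icc 1 x, hc f k) / x + hc f (x + 1) / ((x : ℝ) + 1)
        = ((∑ k ∈ Icc 1 x, hc f k) + hc f (x + 1)) / ((x : ℝ) + 1)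
          + (∑ k ∈ Icc 1 x, hc f k) * (1 / x - 1 / ((x : ℝ) + 1)) := by
      field_simp
      ring
    linarith

/-- tails of `∑ h(m)/m` -/
lemma tail_le (hf : ∀ n, |f n| ≤ 1) {z x : ℕ} {ε : ℝ} (hε : 0 ≤ ε) (h : Small f z x ε)
    (hx : 1 ≤ x) {M : ℕ} (hM : 1 ≤ M) (hMx : M ≤ x) :
    ∑ m ∈ Icc M x, hc f m / m ≤ 8 * z * (1 + Real.log (2 * x)) / M
      + 16 * ε * (1 + Real.log (2 * x)) := by
  have hL : 0 ≤ Real.log (2 * x) := by
    have := Real.log_natCast_nonneg (2 * x)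
    push_cast at this
    exact this
  have hlx : Real.log x ≤ Real.log (2 * x) := by
    refine Real.log_le_log (by exact_mod_cast hx) ?_
    have : (0 : ℝ) ≤ x := by positivity
    linarith
  have hM0 : (0 : ℝ) < M := by exact_mod_cast hM
  have hx0 : (0 : ℝ) < x := by exact_mod_cast hx
  set a : ℝ := 4 * z * (1 + Real.log (2 * x)) with ha
  set b : ℝ := 8 * ε with hb
  have ha0 : 0 ≤ a := by positivity
  have hb0 : 0 ≤ b := by positivity
  have hA : ∀ m : ℕ, m ≤ x → ∑ k ∈ Icc 1 m, hc f k ≤ a + b * m := by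
    intro m hm
    have := A_small hf hε h hm
    rw [ha, hb]
    linarith
  refine (tail_abel hf hM hMx).trans ?_
  have h1 : (∑ k ∈ Icc 1 x, hc f k) / x ≤ a / M + b := by
    calc (∑ k ∈ Icc 1 x, hc f k) / x ≤ (a + b * x) / x :=
          div_le_div_of_nonneg_right (hA x le_rfl) hx0.le
      _ = a / x + b := by field_simp
      _ ≤ a / M + b := by
          have : a / x ≤ a / M := div_le_div_of_nonneg_left ha0 hM0 (by exact_mod_cast hMx)
          linarith
  have h2 : ∑ m ∈ Ico M x, (∑ k ∈ Icc 1 m, hc f k) * (1 / m - 1 / ((m : ℝ) + 1))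
      ≤ ∑ m ∈ Ico M x, (a * (1 / m - 1 / ((m : ℝ) + 1)) + b * (1 / ((m : ℝ) + 1))) := by
    refine Finset.sum_le_sum fun m hm ↦ ?_
    rw [Finset.mem_Ico] at hm
    have hm0 : (0 : ℝ) < m := by
      have : 0 < m := by omega
      exact_mod_cast this
    have e1 : (0 : ℝ) ≤ 1 / m - 1 / ((m : ℝ) + 1) := by
      rw [sub_nonneg]
      exact one_div_le_one_div_of_le hm0 (by linarith)
    refine (mul_le_mul_of_nonneg_right (hA m hm.2.le) e1).trans (le_of_eq ?_)
    field_simp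
    ring
  have h3 : ∑ m ∈ Ico M x, (1 / (m : ℝ) - 1 / ((m : ℝ) + 1)) ≤ 1 / M := by
    have e : ∀ y : ℕ, M ≤ y →
        ∑ m ∈ Ico M y, (1 / (m : ℝ) - 1 / ((m : ℝ) + 1)) = 1 / M - 1 / y := by
      intro y hy
      induction y, hy using Nat.le_induction with
      | base => simp
      | succ y hy ih =>
        rw [Finset.sum_Ico_succ_top hy, ih]
        push_cast
        ring
    rw [e x hMx]
    have : (0 : ℝ) ≤ 1 / x := by positivity
    linarith
  have h4 : ∑ m ∈ Ico M x, (1 / ((m : ℝ) + 1)) ≤ 1 + Real.log x := by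
    refine le_trans ?_ (harm_le hx)
    have e : ∑ m ∈ Ico M x, (1 / ((m : ℝ) + 1)) = ∑ n ∈ Ico (M + 1) (x + 1), (1 : ℝ) / n := by
      rw [← Finset.sum_Ico_add' (fun n : ℕ ↦ (1 : ℝ) / n) M x 1]
      refine Finset.sum_congr rfl fun m _ ↦ ?_
      push_cast
      rfl
    rw [e]
    refine Finset.sum_le_sum_of_subset_of_nonneg ?_ fun _ _ _ ↦ by positivity
    intro n hn
    rw [Finset.mem_Ico] at hn
    rw [Finset.mem_Icc]
    omega
  rw [Finset.sum_add_distrib, ← Finset.mul_sum, ← Finset.mul_sum] at h2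
  have h5 := mul_le_mul_of_nonneg_left h3 ha0
  have h6 := mul_le_mul_of_nonneg_left h4 hb0
  have h7 : a * (1 / M) = a / M := by ring
  have h8 : 8 * z * (1 + Real.log (2 * x)) / M = 2 * (a / M) := by rw [ha]; ring
  have h9 : b * Real.log x ≤ b * Real.log (2 * x) := mul_le_mul_of_nonneg_left hlx hb0
  rw [h8]
  have h10 : 16 * ε * (1 + Real.log (2 * x)) = 2 * b * (1 + Real.log (2 * x)) := by rw [hb]; ring
  rw [h10]
  have h11 : 0 ≤ b * Real.log (2 * x) := by positivity
  linarith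

/-- if `x/m ≤ z` then `m > x/(z+1)`: sum of the terms with `x/m ≤ z` -/
lemma low_le (hf : ∀ n, |f n| ≤ 1) {z x : ℕ} {ε : ℝ} (hε : 0 ≤ ε) (h : Small f z x ε)
    (hz : 1 ≤ z) (hx : 1 ≤ x) :
    ∑ m ∈ (Icc 1 x).filter (fun m ↦ x / m ≤ z), hc f m / m ≤
      16 * (1 + Real.log (2 * x)) * (ε + z ^ 2 / x) := by
  have hL : 0 ≤ Real.log (2 * x) := by
    have := Real.log_natCast_nonneg (2 * x)
    push_cast at this
    exact this
  have hx0 : (0 : ℝ) < x := by exact_mod_cast hx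
  have hz0 : (1 : ℝ) ≤ z := by exact_mod_cast hz
  set M : ℕ := x / (z + 1) + 1 with hM
  have hM1 : 1 ≤ M := Nat.le_add_left 1 _
  have hsub : (Icc 1 x).filter (fun m ↦ x / m ≤ z) ⊆ Icc M x := by
    intro m hm
    rw [Finset.mem_filter, Finset.mem_Icc] at hm
    obtain ⟨⟨h1, h2⟩, h3⟩ := hm
    rw [Finset.mem_Icc]
    refine ⟨?_, h2⟩
    have h4 : x < m * (z + 1) := by
      have := Nat.lt_succ_of_le h3
      rwa [Nat.succ_eq_add_one, Nat.div_lt_iff_lt_mul (by omega), mul_comm] at this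
    have h5 : x / (z + 1) < m := by
      rw [Nat.div_lt_iff_lt_mul (by omega)]
      exact h4
    omega
  rcases Nat.lt_or_ge x M with hlt | hMx
  · have : (Icc M x) = ∅ := Finset.Icc_eq_empty (by omega)
    rw [this, Finset.subset_empty] at hsub
    rw [hsub, Finset.sum_empty]
    positivity
  have h1 := tail_le hf hε h hx hM1 hMx
  have h2 : ∑ m ∈ (Icc 1 x).filter (fun m ↦ x / m ≤ z), hc f m / m ≤ ∑ m ∈ Icc M x, hc f m / m :=
    Finset.sum_le_sum_of_subset_of_nonneg hsub fun m _ _ ↦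
      div_nonneg (hc_nonneg hf m) (by positivity)
  have h3 : (x : ℝ) / (2 * z) ≤ M := by
    have h4 : x ≤ (z + 1) * M := by
      have := Nat.lt_div_mul_add (a := x) (b := z + 1) (by omega)
      rw [hM]
      nlinarith
    have h5 : (x : ℝ) ≤ (z + 1) * M := by exact_mod_cast h4
    rw [div_le_iff₀ (by positivity)]
    have h6 : (0 : ℝ) ≤ M := by positivity
    nlinarith
  have h4 : 8 * z * (1 + Real.log (2 * x)) / M ≤ 16 * (1 + Real.log (2 * x)) * (z ^ 2 / x) := by
    have h5 : 0 < (x : ℝ) / (2 * z) := by positivity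
    calc 8 * z * (1 + Real.log (2 * x)) / M ≤ 8 * z * (1 + Real.log (2 * x)) / (x / (2 * z)) :=
          div_le_div_of_nonneg_left (by positivity) h5 h3
      _ = _ := by field_simp; ring
  calc _ ≤ _ := h2
    _ ≤ _ := h1
    _ ≤ 16 * (1 + Real.log (2 * x)) * (z ^ 2 / x) + 16 * ε * (1 + Real.log (2 * x)) := by linarith
    _ = _ := by ring

/-- **Theorem 1**, two-sided -/
theorem ext_two (hf : ∀ n, |f n| ≤ 1) {z x : ℕ} {ε : ℝ} (hε : 0 ≤ ε) (hz : 1 ≤ z) (hx : 1 ≤ x)
    (h : ∀ y : ℕ, z < y → y ≤ 2 * x → |S f y| ≤ ε) :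
    |Sl x| ≤ 17 * (1 + Real.log (2 * x)) ^ 2 * (ε + z ^ 2 / x) := by
  have hsm : Small f z x ε := fun y h1 h2 ↦ (le_abs_self _).trans (h y h1 h2)
  have hL : 0 ≤ Real.log (2 * x) := by
    have := Real.log_natCast_nonneg (2 * x)
    push_cast at this
    exact this
  have hx0 : (0 : ℝ) < x := by exact_mod_cast hx
  have hlx : Real.log x ≤ Real.log (2 * x) := Real.log_le_log hx0 (by linarith)
  have hlx0 : 0 ≤ Real.log x := Real.log_natCast_nonneg x
  set L : ℝ := 1 + Real.log (2 * x) with hLdef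
  have hL1 : 1 ≤ L := by linarith
  refine (abs_Sl_le hf x).trans ?_
  rw [← Finset.sum_filter_add_sum_filter_not (Icc 1 x) (fun m ↦ x / m ≤ z)]
  have h1 : ∑ m ∈ (Icc 1 x).filter (fun m ↦ x / m ≤ z), hc f m / m * |S f (x / m)|
      ≤ (∑ m ∈ (Icc 1 x).filter (fun m ↦ x / m ≤ z), hc f m / m) * L := by
    rw [Finset.sum_mul]
    refine Finset.sum_le_sum fun m hm ↦ ?_
    rw [Finset.mem_filter, Finset.mem_Icc] at hm
    refine mul_le_mul_of_nonneg_left ?_ (div_nonneg (hc_nonneg hf m) (by positivity))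
    have hq : 1 ≤ x / m := Nat.div_pos hm.1.2 hm.1.1
    refine (abs_S_le hf hq).trans ?_
    have : Real.log ((x / m : ℕ) : ℝ) ≤ Real.log x := by
      refine Real.log_le_log (by exact_mod_cast hq) ?_
      exact_mod_cast Nat.div_le_self x m
    linarith
  have h2 : ∑ m ∈ (Icc 1 x).filter (fun m ↦ ¬ x / m ≤ z), hc f m / m * |S f (x / m)|
      ≤ L ^ 2 * ε := by
    calc ∑ m ∈ (Icc 1 x).filter (fun m ↦ ¬ x / m ≤ z), hc f m / m * |S f (x / m)|
        ≤ ∑ m ∈ (Icc 1 x).filter (fun m ↦ ¬ x / m ≤ z), hc f m / m * ε := by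
          refine Finset.sum_le_sum fun m hm ↦ ?_
          rw [Finset.mem_filter, Finset.mem_Icc] at hm
          refine mul_le_mul_of_nonneg_left ?_ (div_nonneg (hc_nonneg hf m) (by positivity))
          refine h _ (by omega) ?_
          have := Nat.div_le_self x m
          omega
      _ ≤ ∑ m ∈ Icc 1 x, hc f m / m * ε := by
          refine Finset.sum_le_sum_of_subset_of_nonneg (Finset.filter_subset _ _) fun m _ _ ↦ ?_
          exact mul_nonneg (div_nonneg (hc_nonneg hf m) (by positivity)) hε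
      _ = (∑ m ∈ Icc 1 x, hc f m / m) * ε := by rw [Finset.sum_mul]
      _ ≤ (1 + Real.log x) ^ 2 * ε := mul_le_mul_of_nonneg_right (sum_hc_div_le hf hx) hε
      _ ≤ L ^ 2 * ε := by
          refine mul_le_mul_of_nonneg_right ?_ hε
          exact pow_le_pow_left₀ (by linarith) (by linarith) 2
  have h3 := low_le hf hε hsm hz hx
  rw [← hLdef] at h3
  have h4 : 0 ≤ ε + (z : ℝ) ^ 2 / x := by positivity
  have h5 : (0 : ℝ) ≤ (z : ℝ) ^ 2 / x := by positivity
  calc _ ≤ (∑ m ∈ (Icc 1 x).filter (fun m ↦ x / m ≤ z), hc f m / m) * L + L ^ 2 * ε :=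
        add_le_add h1 h2
    _ ≤ (16 * L * (ε + z ^ 2 / x)) * L + L ^ 2 * ε := by
        have := mul_le_mul_of_nonneg_right h3 (by linarith : 0 ≤ L)
        linarith
    _ ≤ 17 * L ^ 2 * (ε + z ^ 2 / x) := by
        have : 0 ≤ L ^ 2 * ((z : ℝ) ^ 2 / x) := by positivity
        nlinarith

/-- `L¹` norm of `S_f` -/
theorem G_le (hf : ∀ n, |f n| ≤ 1) {z x : ℕ} {ε : ℝ} (hε : 0 ≤ ε) (hz : 1 ≤ z)
    (h : Small f z x ε) (X : ℕ) (hX1 : 1 ≤ X) (hX : X ≤ 2 * x + 1) :
    ∑ m ∈ Ico 1 X, |S f m| ≤ 64 * ε * X + 64 * z * (1 + Real.log (2 * x)) * (1 + Real.log X) := by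
  have hL : 0 ≤ Real.log (2 * x) := by
    have := Real.log_natCast_nonneg (2 * x)
    push_cast at this
    exact this
  set L : ℝ := 1 + Real.log (2 * x) with hLdef
  have hL1 : 1 ≤ L := by linarith
  have hz0 : (1 : ℝ) ≤ z := by exact_mod_cast hz
  induction X using Nat.strong_induction_on with
  | _ X ih =>
    have hXr : (1 : ℝ) ≤ X := by exact_mod_cast hX1
    have hlX : 0 ≤ Real.log X := Real.log_natCast_nonneg X
    have hzL : 1 ≤ z * L := by nlinarith
    rcases Nat.lt_or_ge X 6 with hsm | hlg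
    · have h2 : ∑ m ∈ Ico 1 X, |S f m| ≤ ∑ m ∈ Ico 1 X, (6 : ℝ) := by
        refine Finset.sum_le_sum fun m hm ↦ ?_
        rw [Finset.mem_Ico] at hm
        refine (abs_lsum_le hf m).trans ?_
        have : m ≤ 6 := by omega
        exact_mod_cast this
      have h3 : ∑ m ∈ Ico 1 X, (6 : ℝ) ≤ 36 := by
        rw [Finset.sum_const, Nat.card_Ico, nsmul_eq_mul]
        have h4 : X - 1 ≤ 6 := by omega
        have h5 : ((X - 1 : ℕ) : ℝ) ≤ 6 := by exact_mod_cast h4
        linarith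
      have h4 : 0 ≤ 64 * ε * X := by positivity
      have h5 : 0 ≤ (z * L) * Real.log X := by positivity
      nlinarith
    · set X' : ℕ := (3 * X + 3) / 4 with hX'
      have hX'lt : X' < X := by omega
      have hX'1 : 1 ≤ X' := by omega
      have h1 := ih X' hX'lt hX'1 (by omega)
      have h2 := top_le hf hX1
      have h2' := P_le hf hε h hX
      rw [← hLdef] at h2'
      have h3 : ∑ m ∈ Ico 1 X, |S f m| ≤ ∑ m ∈ Ico 1 X', |S f m| +
          ∑ m ∈ (Ico 1 X).filter (fun m ↦ 3 * X ≤ 4 * m), |S f m| := by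
        rw [← Finset.sum_filter_add_sum_filter_not (Ico 1 X) (fun m ↦ 3 * X ≤ 4 * m), add_comm]
        refine add_le_add ?_ le_rfl
        refine Finset.sum_le_sum_of_subset_of_nonneg ?_ fun _ _ _ ↦ abs_nonneg _
        intro m hm
        rw [Finset.mem_filter, Finset.mem_Ico] at hm
        rw [Finset.mem_Ico]
        omega
      have h4 : (X' : ℝ) ≤ 7 / 8 * X := by
        have h5 : 8 * X' ≤ 7 * X := by omega
        have h6 : (8 : ℝ) * X' ≤ 7 * X := by exact_mod_cast h5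
        linarith
      have hX'0 : (0 : ℝ) < X' := by exact_mod_cast hX'1
      have h5 : Real.log X' ≤ Real.log X - 1 / 8 := by
        have e1 : Real.log X' ≤ Real.log (7 / 8 * X) := Real.log_le_log hX'0 h4
        have e2 : Real.log (7 / 8 * X) = Real.log (7 / 8) + Real.log X :=
          Real.log_mul (by norm_num) (by linarith)
        have e3 : Real.log (7 / 8) ≤ 7 / 8 - 1 := Real.log_le_sub_one_of_pos (by norm_num)
        linarith
      have h6 : 64 * ε * X' ≤ 56 * ε * X := by nlinarith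
      have h7 : 64 * z * L * (1 + Real.log X') ≤ 64 * z * L * (1 + Real.log X) - 8 * (z * L) := by
        have : 0 ≤ z * L := by positivity
        nlinarith
      calc ∑ m ∈ Ico 1 X, |S f m| ≤ _ := h3
        _ ≤ (64 * ε * X' + 64 * z * L * (1 + Real.log X')) + 8 * (z * L + X * ε) :=
            add_le_add h1 (h2.trans (by linarith))
        _ ≤ _ := by linarith

/-- each value of `n / m` is taken at most `m` times -/
lemma sum_div_le {F : ℕ → ℝ} (hF : ∀ l, 0 ≤ F l) {m x : ℕ} (hm : 1 ≤ m) :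
    ∑ n ∈ Icc m x, F (n / m) ≤ m * ∑ l ∈ Icc 1 (x / m), F l := by
  have hmaps : ∀ n ∈ Icc m x, n / m ∈ Icc 1 (x / m) := by
    intro n hn
    rw [Finset.mem_Icc] at hn ⊢
    exact ⟨Nat.div_pos hn.1 hm, Nat.div_le_div_right hn.2⟩
  rw [← Finset.sum_fiberwise_of_maps_to hmaps, Finset.mul_sum]
  refine Finset.sum_le_sum fun l _ ↦ ?_
  have h1 : ∑ n ∈ (Icc m x).filter (fun n ↦ n / m = l), F (n / m)
      = ∑ n ∈ (Icc m x).filter (fun n ↦ n / m = l), F l := by
    refine Finset.sum_congr rfl fun n hn ↦ ?_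
    rw [Finset.mem_filter] at hn
    rw [hn.2]
  rw [h1, Finset.sum_const, nsmul_eq_mul]
  refine mul_le_mul_of_nonneg_right ?_ (hF l)
  have h2 : (Icc m x).filter (fun n ↦ n / m = l) ⊆ Ico (l * m) (l * m + m) := by
    intro n hn
    rw [Finset.mem_filter, Finset.mem_Icc] at hn
    rw [Finset.mem_Ico]
    obtain ⟨_, h3⟩ := hn
    have h4 := Nat.div_add_mod n m
    have h5 := Nat.mod_lt n (by omega : 0 < m)
    rw [h3] at h4
    have h6 : l * m = m * l := Nat.mul_comm _ _
    omega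
  have h3 := Finset.card_le_card h2
  rw [Nat.card_Ico] at h3
  have h4 : ((Icc m x).filter (fun n ↦ n / m = l)).card ≤ m := by omega
  exact_mod_cast h4

/-- `∑_{n ≤ x} |S_λ(n)| ≤ ∑_m h(m) ∑_{l ≤ x/m} |S_f(l)|` -/
lemma sum_abs_Sl_le (hf : ∀ n, |f n| ≤ 1) (x : ℕ) :
    ∑ n ∈ Icc 1 x, |Sl n| ≤ ∑ m ∈ Icc 1 x, hc f m * ∑ l ∈ Icc 1 (x / m), |S f l| := by
  calc ∑ n ∈ Icc 1 x, |Sl n| ≤ ∑ n ∈ Icc 1 x, ∑ m ∈ Icc 1 n, hc f m / m * |S f (n / m)| :=
        Finset.sum_le_sum fun n _ ↦ abs_Sl_le hf n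
    _ = ∑ m ∈ Icc 1 x, ∑ n ∈ Icc m x, hc f m / m * |S f (n / m)| := by
        refine Finset.sum_comm' ?_
        intro n m
        simp only [Finset.mem_Icc]
        omega
    _ ≤ _ := by
        refine Finset.sum_le_sum fun m hm ↦ ?_
        rw [Finset.mem_Icc] at hm
        have hm0 : (0 : ℝ) < m := by
          have : 0 < m := by omega
          exact_mod_cast this
        rw [← Finset.mul_sum]
        have h1 := sum_div_le (F := fun l ↦ |S f l|) (fun l ↦ abs_nonneg _) (x := x) hm.1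
        calc hc f m / m * ∑ n ∈ Icc m x, |S f (n / m)|
            ≤ hc f m / m * (m * ∑ l ∈ Icc 1 (x / m), |S f l|) :=
              mul_le_mul_of_nonneg_left h1 (div_nonneg (hc_nonneg hf m) hm0.le)
          _ = _ := by field_simp

/-- **Theorem 1**, one-sided -/
theorem ext_one (hf : ∀ n, |f n| ≤ 1) {z x : ℕ} {ε : ℝ} (hε : 0 ≤ ε) (hz : 1 ≤ z) (hx : 1 ≤ x)
    (h : Small f z x ε) :
    ∑ n ∈ Icc 1 x, |Sl n| ≤ 700 * (1 + Real.log (2 * x)) ^ 3 * (ε * x + z ^ 2) := by
  have hL : 0 ≤ Real.log (2 * x) := by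
    have := Real.log_natCast_nonneg (2 * x)
    push_cast at this
    exact this
  have hx0 : (0 : ℝ) < x := by exact_mod_cast hx
  have hz0 : (1 : ℝ) ≤ z := by exact_mod_cast hz
  have hlx : Real.log x ≤ Real.log (2 * x) := Real.log_le_log hx0 (by linarith)
  have hlx0 : 0 ≤ Real.log x := Real.log_natCast_nonneg x
  have h3 := low_le hf hε h hz hx
  set L : ℝ := 1 + Real.log (2 * x) with hLdef
  have hL1 : 1 ≤ L := by linarith
  refine (sum_abs_Sl_le hf x).trans ?_
  rw [← Finset.sum_filter_add_sum_filter_not (Icc 1 x) (fun m ↦ x / m ≤ z)]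
  have h1 : ∑ m ∈ (Icc 1 x).filter (fun m ↦ x / m ≤ z), hc f m * ∑ l ∈ Icc 1 (x / m), |S f l|
      ≤ 16 * L ^ 2 * (ε * x + z ^ 2) := by
    calc ∑ m ∈ (Icc 1 x).filter (fun m ↦ x / m ≤ z), hc f m * ∑ l ∈ Icc 1 (x / m), |S f l|
        ≤ ∑ m ∈ (Icc 1 x).filter (fun m ↦ x / m ≤ z), hc f m / m * (x * L) := by
          refine Finset.sum_le_sum fun m hm ↦ ?_
          rw [Finset.mem_filter, Finset.mem_Icc] at hm
          have hm0 : (0 : ℝ) < m := by
            have : 0 < m := by omega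
            exact_mod_cast this
          have e1 : ∑ l ∈ Icc 1 (x / m), |S f l| ≤ ∑ l ∈ Icc 1 (x / m), L := by
            refine Finset.sum_le_sum fun l hl ↦ ?_
            rw [Finset.mem_Icc] at hl
            refine (abs_S_le hf hl.1).trans ?_
            have : Real.log l ≤ Real.log x := by
              refine Real.log_le_log (by exact_mod_cast hl.1) ?_
              exact_mod_cast hl.2.trans (Nat.div_le_self x m)
            linarith
          rw [Finset.sum_const, Nat.card_Icc, nsmul_eq_mul, Nat.add_sub_cancel] at e1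
          have e2 : ((x / m : ℕ) : ℝ) ≤ x / m := Nat.cast_div_le
          calc hc f m * ∑ l ∈ Icc 1 (x / m), |S f l| ≤ hc f m * ((x / m) * L) := by
                refine mul_le_mul_of_nonneg_left ?_ (hc_nonneg hf m)
                exact e1.trans (mul_le_mul_of_nonneg_right e2 (by linarith))
            _ = _ := by ring
      _ = (∑ m ∈ (Icc 1 x).filter (fun m ↦ x / m ≤ z), hc f m / m) * (x * L) := by
          rw [Finset.sum_mul]
      _ ≤ (16 * L * (ε + z ^ 2 / x)) * (x * L) := by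
          refine mul_le_mul_of_nonneg_right h3 (by positivity)
      _ = _ := by field_simp
  set M : ℕ := x / (z + 1) with hM
  have hMx : M ≤ x := Nat.div_le_self _ _
  have hMz : (M : ℝ) * z ≤ x := by
    have h5 : M * (z + 1) ≤ x := Nat.div_mul_le_self x (z + 1)
    have h6 : (M : ℝ) * (z + 1) ≤ x := by exact_mod_cast h5
    have h7 : (0 : ℝ) ≤ M := by positivity
    linarith
  have hsub : (Icc 1 x).filter (fun m ↦ ¬ x / m ≤ z) ⊆ Icc 1 M := by
    intro m hm
    rw [Finset.mem_filter, Finset.mem_Icc] at hm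
    obtain ⟨⟨h1, h2⟩, h3⟩ := hm
    rw [Finset.mem_Icc]
    refine ⟨h1, ?_⟩
    rw [hM, Nat.le_div_iff_mul_le (by omega), mul_comm]
    have h4 : z + 1 ≤ x / m := by omega
    rwa [Nat.le_div_iff_mul_le (by omega)] at h4
  have h2 : ∑ m ∈ (Icc 1 x).filter (fun m ↦ ¬ x / m ≤ z), hc f m * ∑ l ∈ Icc 1 (x / m), |S f l|
      ≤ 128 * ε * x * L ^ 2 + 64 * z * L ^ 2 * (4 * z * L + 8 * M * ε) := by
    calc ∑ m ∈ (Icc 1 x).filter (fun m ↦ ¬ x / m ≤ z), hc f m * ∑ l ∈ Icc 1 (x / m), |S f l|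
        ≤ ∑ m ∈ (Icc 1 x).filter (fun m ↦ ¬ x / m ≤ z),
            (hc f m / m * (128 * ε * x) + hc f m * (64 * z * L ^ 2)) := by
          refine Finset.sum_le_sum fun m hm ↦ ?_
          rw [Finset.mem_filter, Finset.mem_Icc] at hm
          have hm0 : (0 : ℝ) < m := by
            have : 0 < m := by omega
            exact_mod_cast this
          have hq : 1 ≤ x / m := Nat.div_pos hm.1.2 hm.1.1
          have hqx : x / m ≤ x := Nat.div_le_self x m
          have e0 : Icc 1 (x / m) = Ico 1 (x / m + 1) := by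
            ext l
            simp only [Finset.mem_Icc, Finset.mem_Ico]
            omega
          have e1 := G_le hf hε hz h (x / m + 1) (by omega) (by omega)
          rw [← hLdef, ← e0] at e1
          have e2 : ((x / m : ℕ) : ℝ) ≤ x / m := Nat.cast_div_le
          have e3 : (1 : ℝ) ≤ ((x / m : ℕ) : ℝ) := by exact_mod_cast hq
          have e4 : ((x / m + 1 : ℕ) : ℝ) ≤ 2 * (x / m) := by
            push_cast
            linarith
          have e5 : Real.log ((x / m + 1 : ℕ) : ℝ) ≤ Real.log (2 * x) := by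
            refine Real.log_le_log (by positivity) ?_
            have : x / m + 1 ≤ 2 * x := by omega
            exact_mod_cast this
          have e6 : ∑ l ∈ Icc 1 (x / m), |S f l| ≤ 128 * ε * x / m + 64 * z * L ^ 2 := by
            refine e1.trans ?_
            have e7 : 64 * ε * ((x / m + 1 : ℕ) : ℝ) ≤ 128 * ε * x / m := by
              have := mul_le_mul_of_nonneg_left e4 (by positivity : 0 ≤ 64 * ε)
              refine this.trans (le_of_eq (by ring))
            have e8 : 64 * z * L * (1 + Real.log ((x / m + 1 : ℕ) : ℝ)) ≤ 64 * z * L ^ 2 := by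
              have : 1 + Real.log ((x / m + 1 : ℕ) : ℝ) ≤ L := by linarith
              have := mul_le_mul_of_nonneg_left this (by positivity : 0 ≤ 64 * z * L)
              refine this.trans (le_of_eq (by ring))
            linarith
          calc hc f m * ∑ l ∈ Icc 1 (x / m), |S f l|
              ≤ hc f m * (128 * ε * x / m + 64 * z * L ^ 2) :=
                mul_le_mul_of_nonneg_left e6 (hc_nonneg hf m)
            _ = _ := by ring
      _ = (∑ m ∈ (Icc 1 x).filter (fun m ↦ ¬ x / m ≤ z), hc f m / m) * (128 * ε * x)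
          + (∑ m ∈ (Icc 1 x).filter (fun m ↦ ¬ x / m ≤ z), hc f m) * (64 * z * L ^ 2) := by
          rw [Finset.sum_add_distrib, ← Finset.sum_mul, ← Finset.sum_mul]
      _ ≤ L ^ 2 * (128 * ε * x) + (4 * z * L + 8 * M * ε) * (64 * z * L ^ 2) := by
          refine add_le_add ?_ ?_
          · refine mul_le_mul_of_nonneg_right ?_ (by positivity)
            calc ∑ m ∈ (Icc 1 x).filter (fun m ↦ ¬ x / m ≤ z), hc f m / m
                ≤ ∑ m ∈ Icc 1 x, hc f m / m :=
                  Finset.sum_le_sum_of_subset_of_nonneg (Finset.filter_subset _ _)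
                    fun m _ _ ↦ div_nonneg (hc_nonneg hf m) (by positivity)
              _ ≤ (1 + Real.log x) ^ 2 := sum_hc_div_le hf hx
              _ ≤ L ^ 2 := pow_le_pow_left₀ (by linarith) (by linarith) 2
          · refine mul_le_mul_of_nonneg_right ?_ (by positivity)
            calc ∑ m ∈ (Icc 1 x).filter (fun m ↦ ¬ x / m ≤ z), hc f m
                ≤ ∑ m ∈ Icc 1 M, hc f m :=
                  Finset.sum_le_sum_of_subset_of_nonneg hsub fun m _ _ ↦ hc_nonneg hf m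
              _ ≤ _ := A_small hf hε h hMx
      _ = _ := by ring
  have h4 : 64 * z * L ^ 2 * (4 * z * L + 8 * M * ε) ≤ 256 * z ^ 2 * L ^ 3 + 512 * L ^ 2 * (ε * x) := by
    have : L ^ 2 * ε * (M * z) ≤ L ^ 2 * ε * x := mul_le_mul_of_nonneg_left hMz (by positivity)
    nlinarith
  have h5 : L ^ 2 * (ε * x) ≤ L ^ 3 * (ε * x) :=
    mul_le_mul_of_nonneg_right (pow_le_pow_right₀ hL1 (by norm_num)) (by positivity)
  have h6 : L ^ 2 * (z : ℝ) ^ 2 ≤ L ^ 3 * z ^ 2 :=
    mul_le_mul_of_nonneg_right (pow_le_pow_right₀ hL1 (by norm_num)) (by positivity)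
  have h7 : 0 ≤ L ^ 3 * (z : ℝ) ^ 2 := by positivity
  have h8 : 0 ≤ L ^ 3 * (ε * x) := by positivity
  calc _ ≤ 16 * L ^ 2 * (ε * x + z ^ 2) +
        (128 * ε * x * L ^ 2 + 64 * z * L ^ 2 * (4 * z * L + 8 * M * ε)) := add_le_add h1 h2
    _ ≤ 700 * L ^ 3 * (ε * x + z ^ 2) := by nlinarith

end Pool.Agent.H48.UP
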