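import Mathlib
import Pool.Agent.H48.UP.Ext

/-!
Power form of the comparison: `S_f(y) ≤ K y^{-d}` for `y ≤ 2x` implies
`∑_{n ≤ x} |S_λ(n)| ≤ C K² x^{1-d} (1 + log x)`.
-/

open Finset ArithmeticFunction

namespace Pool.Agent.H48.UP

open Pool.Agent.H6

variable {f : ℕ →*₀ ℝ}

/-- hypothesis: `S_f(y) ≤ K y^{-d}` for `1 ≤ y ≤ N` -/
def PowB (f : ℕ →*₀ ℝ) (d K : ℝ) (N : ℕ) : Prop :=
  ∀ y : ℕ, 1 ≤ y → y ≤ N → S f y ≤ K * (y : ℝ) ^ (-d)

lemma rpow_step4 {d : ℝ} (hd0 : 0 < d) (hd : d ≤ 3 / 4) {m : ℕ} (hm : 1 ≤ m) :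
    (m : ℝ) ^ (-d) ≤ 4 * ((m : ℝ) ^ (1 - d) - ((m : ℝ) - 1) ^ (1 - d)) := by
  have hm0 : (0 : ℝ) < m := by exact_mod_cast hm
  have hm1 : (1 : ℝ) ≤ m := by exact_mod_cast hm
  have h1 : ((m : ℝ) - 1) = m * (1 + -(1 / m)) := by field_simp; ring
  have h2 : (-1 : ℝ) ≤ -(1 / m) := by
    rw [neg_le_neg_iff, div_le_one hm0]; exact hm1
  have h3 : (1 + -(1 / (m : ℝ))) ^ (1 - d) ≤ 1 + (1 - d) * -(1 / m) :=
    rpow_one_add_le_one_add_mul_self h2 (by linarith) (by linarith)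
  have h4 : ((m : ℝ) - 1) ^ (1 - d) = (m : ℝ) ^ (1 - d) * (1 + -(1 / m)) ^ (1 - d) := by
    rw [← Real.mul_rpow hm0.le (by linarith), ← h1]
  have h5 : (m : ℝ) ^ (1 - d) = m * (m : ℝ) ^ (-d) := by
    rw [show (1 : ℝ) - d = 1 + -d by ring, Real.rpow_add hm0, Real.rpow_one]
  have h6 : 0 < (m : ℝ) ^ (-d) := Real.rpow_pos_of_pos hm0 _
  rw [h4]
  have h7 : (m : ℝ) ^ (1 - d) * (1 + -(1 / m)) ^ (1 - d)
      ≤ (m : ℝ) ^ (1 - d) * (1 + (1 - d) * -(1 / m)) := by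
    gcongr
  have h8 : (m : ℝ) ^ (1 - d) * (1 + (1 - d) * -(1 / m))
      = (m : ℝ) ^ (1 - d) - (1 - d) * (m : ℝ) ^ (-d) := by
    rw [h5]
    field_simp
    ring
  nlinarith

lemma sum_rpow_le4 {d : ℝ} (hd0 : 0 < d) (hd : d ≤ 3 / 4) (X : ℕ) :
    ∑ m ∈ Icc 1 X, (m : ℝ) ^ (-d) ≤ 4 * (X : ℝ) ^ (1 - d) := by
  induction X with
  | zero => simp [Real.zero_rpow (by linarith : (1 : ℝ) - d ≠ 0)]
  | succ X ih =>
    rw [Finset.sum_Icc_succ_top (by omega)]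
    have h := rpow_step4 hd0 hd (m := X + 1) (by omega)
    have h2 : (((X + 1 : ℕ) : ℝ) - 1) = X := by push_cast; ring
    rw [h2] at h
    linarith

lemma P_pow {d K : ℝ} (hd0 : 0 < d) (hd : d ≤ 3 / 4) (hK : 0 ≤ K) {N : ℕ} (h : PowB f d K N)
    {X : ℕ} (hX : X ≤ N + 1) : P f X ≤ 4 * K * (X : ℝ) ^ (1 - d) := by
  unfold P
  calc ∑ m ∈ Ico 1 X, Sp f m ≤ ∑ m ∈ Ico 1 X, K * (m : ℝ) ^ (-d) := by
        refine Finset.sum_le_sum fun m hm ↦ ?_
        rw [Finset.mem_Ico] at hm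
        exact max_le (h m hm.1 (by omega)) (by positivity)
    _ = K * ∑ m ∈ Ico 1 X, (m : ℝ) ^ (-d) := by rw [Finset.mul_sum]
    _ ≤ K * ∑ m ∈ Icc 1 X, (m : ℝ) ^ (-d) := by
        refine mul_le_mul_of_nonneg_left ?_ hK
        exact Finset.sum_le_sum_of_subset_of_nonneg Finset.Ico_subset_Icc_self
          fun m _ _ ↦ by positivity
    _ ≤ K * (4 * (X : ℝ) ^ (1 - d)) := mul_le_mul_of_nonneg_left (sum_rpow_le4 hd0 hd X) hK
    _ = _ := by ring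

/-- `A(Y) ≤ 32 K Y^{1-d}` -/
lemma A_pow (hf : ∀ n, |f n| ≤ 1) {d K : ℝ} (hd0 : 0 < d) (hd : d ≤ 3 / 4) (hK : 0 ≤ K) {N : ℕ}
    (h : PowB f d K N) {Y : ℕ} (hY : 2 * Y ≤ N) :
    ∑ k ∈ Icc 1 Y, hc f k ≤ 32 * K * (Y : ℝ) ^ (1 - d) := by
  refine (A_le hf Y).trans ?_
  have h1 := P_pow hd0 hd hK h (X := 2 * Y) (by omega)
  have h2 : (((2 * Y : ℕ) : ℝ)) ^ (1 - d) ≤ 2 * (Y : ℝ) ^ (1 - d) := by
    push_cast
    rw [Real.mul_rpow (by norm_num) (by positivity)]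
    refine mul_le_mul_of_nonneg_right ?_ (by positivity)
    calc (2 : ℝ) ^ (1 - d) ≤ 2 ^ (1 : ℝ) :=
          Real.rpow_le_rpow_of_exponent_le (by norm_num) (by linarith)
      _ = 2 := Real.rpow_one 2
  calc 4 * P f (2 * Y) ≤ 4 * (4 * K * ((2 * Y : ℕ) : ℝ) ^ (1 - d)) := by linarith
    _ ≤ 4 * (4 * K * (2 * (Y : ℝ) ^ (1 - d))) := by gcongr
    _ = _ := by ring

/-- `L¹` norm of `S_f` -/
theorem G_pow (hf : ∀ n, |f n| ≤ 1) {d K : ℝ} (hd0 : 0 < d) (hd : d ≤ 3 / 4) (hK : 1 ≤ K) {N : ℕ}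
    (h : PowB f d K N) (X : ℕ) (hX : X ≤ N + 1) :
    ∑ m ∈ Ico 1 X, |S f m| ≤ 2048 * K * (X : ℝ) ^ (1 - d) := by
  induction X using Nat.strong_induction_on with
  | _ X ih =>
    rcases Nat.lt_or_ge X 6 with hsm | hlg
    · rcases Nat.eq_zero_or_pos X with rfl | hX0
      · simp [Real.zero_rpow (by linarith : (1 : ℝ) - d ≠ 0)]
      have hX1 : (1 : ℝ) ≤ X := by exact_mod_cast hX0
      have h1 : (1 : ℝ) ≤ (X : ℝ) ^ (1 - d) := Real.one_le_rpow hX1 (by linarith)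
      have h2 : ∑ m ∈ Ico 1 X, |S f m| ≤ ∑ m ∈ Ico 1 X, (6 : ℝ) := by
        refine Finset.sum_le_sum fun m hm ↦ ?_
        rw [Finset.mem_Ico] at hm
        refine (abs_lsum_le hf m).trans ?_
        have : m ≤ 6 := by omega
        exact_mod_cast this
      have h3 : ∑ m ∈ Ico 1 X, (6 : ℝ) ≤ 36 := by
        rw [Finset.sum_const, Nat.card_Ico, nsmul_eq_mul]
        have h4 : X - 1 ≤ 6 := by omega
        have h5 : ((X - 1 : ℕ) : ℝ) ≤ 6 := by exact_mod_cast h4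
        linarith
      nlinarith
    · have hX0 : (0 : ℝ) < X := by
        have : 0 < X := by omega
        exact_mod_cast this
      set X' : ℕ := (3 * X + 3) / 4 with hX'
      have hX'lt : X' < X := by omega
      have h1 := ih X' hX'lt (by omega)
      have h2 := (top_le hf (X := X) (by omega)).trans
        (mul_le_mul_of_nonneg_left (P_pow hd0 hd (by linarith) h hX) (by norm_num : (0 : ℝ) ≤ 8))
      have h3 : ∑ m ∈ Ico 1 X, |S f m| ≤ ∑ m ∈ Ico 1 X', |S f m| +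
          ∑ m ∈ (Ico 1 X).filter (fun m ↦ 3 * X ≤ 4 * m), |S f m| := by
        rw [← Finset.sum_filter_add_sum_filter_not (Ico 1 X) (fun m ↦ 3 * X ≤ 4 * m), add_comm]
        refine add_le_add ?_ le_rfl
        refine Finset.sum_le_sum_of_subset_of_nonneg ?_ fun _ _ _ ↦ abs_nonneg _
        intro m hm
        rw [Finset.mem_filter, Finset.mem_Ico] at hm
        rw [Finset.mem_Ico]
        omega
      have h4 : (X' : ℝ) ≤ 7 / 8 * X := by
        have h5 : 8 * X' ≤ 7 * X := by omega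
        have h6 : (8 : ℝ) * X' ≤ 7 * X := by exact_mod_cast h5
        linarith
      have h5 : (X' : ℝ) ^ (1 - d) ≤ 63 / 64 * (X : ℝ) ^ (1 - d) := by
        calc (X' : ℝ) ^ (1 - d) ≤ (7 / 8 * X) ^ (1 - d) :=
              Real.rpow_le_rpow (by positivity) h4 (by linarith)
          _ = (7 / 8) ^ (1 - d) * (X : ℝ) ^ (1 - d) := Real.mul_rpow (by norm_num) hX0.le
          _ ≤ (7 / 8) ^ (1 / 4 : ℝ) * (X : ℝ) ^ (1 - d) := by
              refine mul_le_mul_of_nonneg_right ?_ (by positivity)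
              exact Real.rpow_le_rpow_of_exponent_ge (by norm_num) (by norm_num) (by linarith)
          _ ≤ 63 / 64 * (X : ℝ) ^ (1 - d) := by
              refine mul_le_mul_of_nonneg_right ?_ (by positivity)
              have e1 : (63 / 64 : ℝ) = ((63 / 64 : ℝ) ^ (4 : ℕ)) ^ (1 / 4 : ℝ) := by
                rw [← Real.rpow_natCast, ← Real.rpow_mul (by norm_num)]
                norm_num
              rw [e1]
              refine Real.rpow_le_rpow (by norm_num) ?_ (by norm_num)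
              norm_num
      calc ∑ m ∈ Ico 1 X, |S f m| ≤ _ := h3
        _ ≤ 2048 * K * (63 / 64 * (X : ℝ) ^ (1 - d)) + 8 * (4 * K * (X : ℝ) ^ (1 - d)) := by
            refine add_le_add (h1.trans ?_) h2
            gcongr
        _ = _ := by ring

/-- `∑_{m ≤ x} h(m) m^{-(1-d)} ≤ 32 K (2 + log x)` -/
lemma weighted_pow (hf : ∀ n, |f n| ≤ 1) {d K : ℝ} (hd0 : 0 < d) (hd : d ≤ 3 / 4) (hK : 0 ≤ K)
    {N : ℕ} (h : PowB f d K N) {x : ℕ} (hx1 : 1 ≤ x) (hx : 2 * x ≤ N) :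
    ∑ m ∈ Icc 1 x, hc f m * (m : ℝ) ^ (d - 1) ≤ 32 * K * (2 + Real.log x) := by
  rw [abel_sum]
  have hA : ∀ m : ℕ, m ≤ x → ∑ k ∈ Icc 1 m, hc f k ≤ 32 * K * (m : ℝ) ^ (1 - d) :=
    fun m hm ↦ A_pow hf hd0 hd hK h (by omega)
  have hx0 : (0 : ℝ) < x := by exact_mod_cast hx1
  have h1 : (∑ k ∈ Icc 1 x, hc f k) * (x : ℝ) ^ (d - 1) ≤ 32 * K := by
    calc (∑ k ∈ Icc 1 x, hc f k) * (x : ℝ) ^ (d - 1)
        ≤ 32 * K * (x : ℝ) ^ (1 - d) * (x : ℝ) ^ (d - 1) :=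
          mul_le_mul_of_nonneg_right (hA x le_rfl) (by positivity)
      _ = 32 * K * ((x : ℝ) ^ (1 - d) * (x : ℝ) ^ (d - 1)) := by ring
      _ = 32 * K := by
          rw [← Real.rpow_add hx0]
          simp
  have h2 : ∀ m ∈ Ico 1 x, (∑ k ∈ Icc 1 m, hc f k) * ((m : ℝ) ^ (d - 1) - ((m + 1 : ℕ) : ℝ) ^ (d - 1))
      ≤ 32 * K * (1 / ((m : ℝ) + 1)) := by
    intro m hm
    rw [Finset.mem_Ico] at hm
    have hm0 : (0 : ℝ) < m := by
      have : 0 < m := by omega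
      exact_mod_cast this
    have hm1 : (0 : ℝ) < (m : ℝ) + 1 := by positivity
    have e0 : (0 : ℝ) ≤ (m : ℝ) ^ (d - 1) - ((m + 1 : ℕ) : ℝ) ^ (d - 1) := by
      rw [sub_nonneg]
      push_cast
      exact Real.rpow_le_rpow_of_nonpos hm0 (by linarith) (by linarith)
    have e1 : (m : ℝ) ^ (1 - d) * ((m : ℝ) ^ (d - 1) - ((m + 1 : ℕ) : ℝ) ^ (d - 1))
        ≤ 1 / ((m : ℝ) + 1) := by
      push_cast
      have e2 : (m : ℝ) ^ (1 - d) * (m : ℝ) ^ (d - 1) = 1 := by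
        rw [← Real.rpow_add hm0]
        simp
      have e3 : (m : ℝ) ^ (1 - d) * ((m : ℝ) + 1) ^ (d - 1) = (m / ((m : ℝ) + 1)) ^ (1 - d) := by
        rw [Real.div_rpow hm0.le hm1.le, show d - 1 = -(1 - d) by ring, Real.rpow_neg hm1.le]
        ring
      have e4 : m / ((m : ℝ) + 1) ≤ (m / ((m : ℝ) + 1)) ^ (1 - d) := by
        have e5 : m / ((m : ℝ) + 1) ≤ 1 := by rw [div_le_one hm1]; linarith
        calc m / ((m : ℝ) + 1) = (m / ((m : ℝ) + 1)) ^ (1 : ℝ) := (Real.rpow_one _).symm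
          _ ≤ _ := Real.rpow_le_rpow_of_exponent_ge (by positivity) e5 (by linarith)
      rw [mul_sub, e2, e3]
      have e6 : 1 - m / ((m : ℝ) + 1) = 1 / ((m : ℝ) + 1) := by field_simp; ring
      linarith
    calc _ ≤ 32 * K * (m : ℝ) ^ (1 - d) * ((m : ℝ) ^ (d - 1) - ((m + 1 : ℕ) : ℝ) ^ (d - 1)) :=
          mul_le_mul_of_nonneg_right (hA m (by omega)) e0
      _ = 32 * K * ((m : ℝ) ^ (1 - d) * ((m : ℝ) ^ (d - 1) - ((m + 1 : ℕ) : ℝ) ^ (d - 1))) := by ring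
      _ ≤ _ := mul_le_mul_of_nonneg_left e1 (by positivity)
  have h3 : ∑ m ∈ Ico 1 x, (1 / ((m : ℝ) + 1)) ≤ 1 + Real.log x := by
    refine le_trans ?_ (harm_le hx1)
    have e : ∑ m ∈ Ico 1 x, (1 / ((m : ℝ) + 1)) = ∑ n ∈ Ico (1 + 1) (x + 1), (1 : ℝ) / n := by
      rw [← Finset.sum_Ico_add' (fun n : ℕ ↦ (1 : ℝ) / n) 1 x 1]
      refine Finset.sum_congr rfl fun m _ ↦ ?_
      push_cast
      rfl
    rw [e]
    refine Finset.sum_le_sum_of_subset_of_nonneg ?_ fun _ _ _ ↦ by positivity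
    intro n hn
    rw [Finset.mem_Ico] at hn
    rw [Finset.mem_Icc]
    omega
  have h4 := Finset.sum_le_sum h2
  rw [← Finset.mul_sum] at h4
  have h5 := mul_le_mul_of_nonneg_left h3 (by positivity : 0 ≤ 32 * K)
  linarith

/-- **power form of Theorem 1** -/
theorem lam_pow (hf : ∀ n, |f n| ≤ 1) {d K : ℝ} (hd0 : 0 < d) (hd : d ≤ 3 / 4) (hK : 1 ≤ K)
    {N : ℕ} (h : PowB f d K N) {x : ℕ} (hx1 : 1 ≤ x) (hx : 2 * x ≤ N) :
    ∑ n ∈ Icc 1 x, |Sl n| ≤ 2 ^ 18 * K ^ 2 * (x : ℝ) ^ (1 - d) * (1 + Real.log x) := by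
  have hx0 : (0 : ℝ) < x := by exact_mod_cast hx1
  have hlx0 : 0 ≤ Real.log x := Real.log_natCast_nonneg x
  refine (sum_abs_Sl_le hf x).trans ?_
  have h1 : ∀ m ∈ Icc 1 x, hc f m * ∑ l ∈ Icc 1 (x / m), |S f l|
      ≤ 4096 * K * (x : ℝ) ^ (1 - d) * (hc f m * (m : ℝ) ^ (d - 1)) := by
    intro m hm
    rw [Finset.mem_Icc] at hm
    have hm0 : (0 : ℝ) < m := by
      have : 0 < m := by omega
      exact_mod_cast this
    have hq : 1 ≤ x / m := Nat.div_pos hm.2 hm.1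
    have hqx : x / m ≤ x := Nat.div_le_self x m
    have e0 : Icc 1 (x / m) = Ico 1 (x / m + 1) := by
      ext l
      simp only [Finset.mem_Icc, Finset.mem_Ico]
      omega
    have e1 := G_pow hf hd0 hd hK h (x / m + 1) (by omega)
    rw [← e0] at e1
    have e2 : ((x / m : ℕ) : ℝ) ≤ x / m := Nat.cast_div_le
    have e3 : (1 : ℝ) ≤ ((x / m : ℕ) : ℝ) := by exact_mod_cast hq
    have e4 : ((x / m + 1 : ℕ) : ℝ) ≤ 2 * (x / m) := by
      push_cast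
      linarith
    have e5 : ((x / m + 1 : ℕ) : ℝ) ^ (1 - d) ≤ 2 * ((x : ℝ) ^ (1 - d) * (m : ℝ) ^ (d - 1)) := by
      calc ((x / m + 1 : ℕ) : ℝ) ^ (1 - d) ≤ (2 * ((x : ℝ) / m)) ^ (1 - d) :=
            Real.rpow_le_rpow (by positivity) e4 (by linarith)
        _ = 2 ^ (1 - d) * ((x : ℝ) / m) ^ (1 - d) :=
            Real.mul_rpow (by norm_num) (by positivity)
        _ ≤ 2 * ((x : ℝ) / m) ^ (1 - d) := by
            refine mul_le_mul_of_nonneg_right ?_ (by positivity)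
            calc (2 : ℝ) ^ (1 - d) ≤ 2 ^ (1 : ℝ) :=
                  Real.rpow_le_rpow_of_exponent_le (by norm_num) (by linarith)
              _ = 2 := Real.rpow_one 2
        _ = _ := by
            rw [Real.div_rpow hx0.le hm0.le, show d - 1 = -(1 - d) by ring, Real.rpow_neg hm0.le]
            ring
    calc hc f m * ∑ l ∈ Icc 1 (x / m), |S f l|
        ≤ hc f m * (2048 * K * (2 * ((x : ℝ) ^ (1 - d) * (m : ℝ) ^ (d - 1)))) := by
          refine mul_le_mul_of_nonneg_left (e1.trans ?_) (hc_nonneg hf m)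
          exact mul_le_mul_of_nonneg_left e5 (by positivity)
      _ = _ := by ring
  refine (Finset.sum_le_sum h1).trans ?_
  rw [← Finset.mul_sum]
  have h2 := weighted_pow hf hd0 hd (by linarith) h hx1 hx
  have h3 : 0 ≤ 4096 * K * (x : ℝ) ^ (1 - d) := by positivity
  refine (mul_le_mul_of_nonneg_left h2 h3).trans ?_
  have h4 : 2 + Real.log x ≤ 2 * (1 + Real.log x) := by linarith
  calc 4096 * K * (x : ℝ) ^ (1 - d) * (32 * K * (2 + Real.log x))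
      ≤ 4096 * K * (x : ℝ) ^ (1 - d) * (32 * K * (2 * (1 + Real.log x))) := by gcongr
    _ = _ := by ring

end Pool.Agent.H48.UP
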