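import Pool.Agent.H6.CertZero3

/-!
# A second bound for the steps of the weight `wfun`

Term by term `wfun s N t = ∑ m^{-s} t^{1-s} max (N - t m, 0)`.
-/

set_option autoImplicit false

open Complex Filter Topology MeasureTheory Set

namespace Pool.Agent.H48.UP

open Pool.Agent.H6

private lemma wfun_eq_sum {s : ℂ} {N t : ℕ} (ht : 1 ≤ t) :
    wfun s N t = ∑ m ∈ Finset.Icc 1 N, (m : ℂ) ^ (-s) *
      (((t : ℝ) : ℂ) ^ (1 - s) * ((max ((N : ℝ) - t * m) 0 : ℝ) : ℂ)) := by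
  have ht0 : (0 : ℝ) < t := by exact_mod_cast ht
  have htc : ((t : ℝ) : ℂ) ≠ 0 := by exact_mod_cast ht0.ne'
  unfold wfun vfun
  rw [Finset.mul_sum]
  refine Finset.sum_congr rfl fun m _ => ?_
  have h1 : ((t : ℝ) : ℂ) ^ (2 - s) = ((t : ℝ) : ℂ) ^ (1 - s) * ((t : ℝ) : ℂ) := by
    rw [show (2 : ℂ) - s = (1 - s) + 1 by ring, Complex.cpow_add _ _ htc, Complex.cpow_one]
  have h2 : (max ((N : ℝ) - t * m) 0 : ℝ) = t * max ((N : ℝ) / t - m) 0 := by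
    rw [mul_max_of_nonneg _ _ ht0.le, mul_zero, mul_sub]
    congr 2
    field_simp
  rw [h1, h2]
  push_cast
  ring

private lemma sum_rpow_le {κ : ℝ} (h0 : 0 < κ) (h1 : κ ≤ 1) (M : ℕ) :
    ∑ m ∈ Finset.Icc 1 M, (m : ℝ) ^ (κ - 1) ≤ (M : ℝ) ^ κ / κ := by
  induction M with
  | zero =>
    simp only [Finset.Icc_eq_empty_of_lt (Nat.lt_succ_self 0), Finset.sum_empty]
    positivity
  | succ M ih =>
    rw [Finset.sum_Icc_succ_top (by omega)]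
    have hM : (0 : ℝ) < ((M + 1 : ℕ) : ℝ) := by positivity
    have h2 : (M : ℝ) ^ κ ≤ ((M + 1 : ℕ) : ℝ) ^ κ - κ * ((M + 1 : ℕ) : ℝ) ^ (κ - 1) := by
      have h3 : (M : ℝ) = ((M + 1 : ℕ) : ℝ) * (1 + (-1 / ((M + 1 : ℕ) : ℝ))) := by
        field_simp
        push_cast
        ring
      have h4 : -1 ≤ -1 / ((M + 1 : ℕ) : ℝ) := by
        rw [neg_div, neg_le_neg_iff, div_le_one hM]
        push_cast
        have : (0 : ℝ) ≤ M := Nat.cast_nonneg M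
        linarith
      have h5 := _root_.rpow_one_add_le_one_add_mul_self h4 h0.le h1
      have h6 : (0 : ℝ) ≤ 1 + (-1 / ((M + 1 : ℕ) : ℝ)) := by linarith
      calc (M : ℝ) ^ κ = (((M + 1 : ℕ) : ℝ) * (1 + (-1 / ((M + 1 : ℕ) : ℝ)))) ^ κ := by
            rw [← h3]
        _ = ((M + 1 : ℕ) : ℝ) ^ κ * (1 + (-1 / ((M + 1 : ℕ) : ℝ))) ^ κ :=
            Real.mul_rpow hM.le h6
        _ ≤ ((M + 1 : ℕ) : ℝ) ^ κ * (1 + κ * (-1 / ((M + 1 : ℕ) : ℝ))) := by gcongr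
        _ = ((M + 1 : ℕ) : ℝ) ^ κ - κ * (((M + 1 : ℕ) : ℝ) ^ κ / ((M + 1 : ℕ) : ℝ)) := by
            ring
        _ = _ := by rw [Real.rpow_sub_one hM.ne']
    have h7 : ((M + 1 : ℕ) : ℝ) ^ (κ - 1) =
        (κ * ((M + 1 : ℕ) : ℝ) ^ (κ - 1)) / κ := by field_simp
    rw [h7]
    calc ∑ m ∈ Finset.Icc 1 M, (m : ℝ) ^ (κ - 1) + κ * ((M + 1 : ℕ) : ℝ) ^ (κ - 1) / κ
        ≤ (M : ℝ) ^ κ / κ + κ * ((M + 1 : ℕ) : ℝ) ^ (κ - 1) / κ := by gcongr
      _ = ((M : ℝ) ^ κ + κ * ((M + 1 : ℕ) : ℝ) ^ (κ - 1)) / κ := by ring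
      _ ≤ _ := by
          gcongr
          linarith

/-- the step of `t^{1-s}` -/
private lemma norm_cpow_step {s : ℂ} (hs0 : 0 < s.re) (hs' : s.re < 1) {t : ℕ} (ht : 1 ≤ t) :
    ‖((t : ℝ) : ℂ) ^ (1 - s) - (((t + 1 : ℕ) : ℝ) : ℂ) ^ (1 - s)‖ ≤
      ‖1 - s‖ * (t : ℝ) ^ (-s.re) := by
  have ht0 : (0 : ℝ) < t := by exact_mod_cast ht
  have hw : (1 : ℂ) - s ≠ 0 := by
    intro h
    have := congrArg Complex.re h
    simp at this
    linarith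
  have hle : (t : ℝ) ≤ ((t + 1 : ℕ) : ℝ) := by push_cast; linarith
  have hderiv : ∀ x ∈ Icc (t : ℝ) ((t + 1 : ℕ) : ℝ),
      HasDerivWithinAt (fun x : ℝ ↦ (x : ℂ) ^ (1 - s))
        ((1 - s) * (x : ℂ) ^ ((1 - s) - 1)) (Icc (t : ℝ) ((t + 1 : ℕ) : ℝ)) x := by
    intro x hx
    exact (cpow_hasDerivAt hw (lt_of_lt_of_le ht0 hx.1)).hasDerivWithinAt
  have hbd : ∀ x ∈ Icc (t : ℝ) ((t + 1 : ℕ) : ℝ), ‖(1 - s) * (x : ℂ) ^ ((1 - s) - 1)‖
      ≤ ‖1 - s‖ * (t : ℝ) ^ (-s.re) := by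
    intro x hx
    have hx0 : 0 < x := lt_of_lt_of_le ht0 hx.1
    have e : ((1 : ℂ) - s - 1).re = -s.re := by simp
    rw [norm_mul, norm_cpow_eq_rpow_re_of_pos hx0, e]
    have : x ^ (-s.re) ≤ (t : ℝ) ^ (-s.re) :=
      Real.rpow_le_rpow_of_nonpos ht0 hx.1 (by linarith)
    gcongr
  have h2 := (convex_Icc (t : ℝ) ((t + 1 : ℕ) : ℝ)).norm_image_sub_le_of_norm_hasDerivWithin_le
    hderiv hbd (right_mem_Icc.mpr hle) (left_mem_Icc.mpr hle)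
  refine h2.trans ?_
  have h3 : ‖(t : ℝ) - ((t + 1 : ℕ) : ℝ)‖ = 1 := by
    rw [Real.norm_eq_abs]
    push_cast
    rw [show (t : ℝ) - (t + 1) = -1 by ring]
    simp
  rw [h3, mul_one]

theorem wfun_step2 {s : ℂ} {k : ℝ} (hk0 : 0 < k) (hk : k ≤ 1 / 2) (hs : 1 - k ≤ s.re)
    (hs' : s.re < 1) {N t : ℕ} (ht : 1 ≤ t) (htN : t < N) :
    ‖wfun s N t - wfun s N (t + 1)‖ ≤ 3 * (1 + ‖s‖) * (N : ℝ) ^ (1 + k) / (t * k) := by
  have ht0 : (0 : ℝ) < t := by exact_mod_cast ht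
  have hN0 : (0 : ℝ) < N := by
    have : 0 < N := by omega
    exact_mod_cast this
  have hsre : 0 < s.re := by linarith
  rw [wfun_eq_sum ht, wfun_eq_sum (by omega : 1 ≤ t + 1), ← Finset.sum_sub_distrib]
  set M : ℕ := N / t with hM
  have hMle : (M : ℝ) ≤ (N : ℝ) / t := by
    rw [le_div_iff₀ ht0]
    exact_mod_cast Nat.div_mul_le_self N t
  have hMN : M ≤ N := Nat.div_le_self N t
  -- the terms
  have hterm : ∀ m ∈ Finset.Icc 1 N, ‖(m : ℂ) ^ (-s) *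
      (((t : ℝ) : ℂ) ^ (1 - s) * ((max ((N : ℝ) - t * m) 0 : ℝ) : ℂ)) -
      (m : ℂ) ^ (-s) * ((((t + 1 : ℕ) : ℝ) : ℂ) ^ (1 - s) *
        ((max ((N : ℝ) - ((t + 1 : ℕ) : ℝ) * m) 0 : ℝ) : ℂ))‖ ≤
      if m ≤ M then (m : ℝ) ^ (k - 1) * (‖1 - s‖ * (t : ℝ) ^ (k - 1) * N) +
        2 * (t : ℝ) ^ k * (M : ℝ) ^ k else 0 := by
    intro m hm
    rw [Finset.mem_Icc] at hm
    have hm0 : (0 : ℝ) < m := by
      have : 0 < m := by omega
      exact_mod_cast this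
    split_ifs with hmM
    · have hmt : (t : ℝ) * m ≤ N := by
        have : (m : ℝ) ≤ (N : ℝ) / t := (by exact_mod_cast hmM : (m : ℝ) ≤ M).trans hMle
        rw [le_div_iff₀ ht0] at this
        linarith
      have e1 : (m : ℂ) ^ (-s) *
          (((t : ℝ) : ℂ) ^ (1 - s) * ((max ((N : ℝ) - t * m) 0 : ℝ) : ℂ)) -
          (m : ℂ) ^ (-s) * ((((t + 1 : ℕ) : ℝ) : ℂ) ^ (1 - s) *
            ((max ((N : ℝ) - ((t + 1 : ℕ) : ℝ) * m) 0 : ℝ) : ℂ)) =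
          (m : ℂ) ^ (-s) * ((((t : ℝ) : ℂ) ^ (1 - s) - (((t + 1 : ℕ) : ℝ) : ℂ) ^ (1 - s)) *
            ((max ((N : ℝ) - t * m) 0 : ℝ) : ℂ) +
            (((t + 1 : ℕ) : ℝ) : ℂ) ^ (1 - s) * ((max ((N : ℝ) - t * m) 0 -
              max ((N : ℝ) - ((t + 1 : ℕ) : ℝ) * m) 0 : ℝ) : ℂ)) := by
        push_cast
        ring
      rw [e1, norm_mul]
      have hmn : ‖(m : ℂ) ^ (-s)‖ = (m : ℝ) ^ (-s.re) := by
        rw [Complex.norm_natCast_cpow_of_pos (by omega)]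
        simp
      have hm1 : (1 : ℝ) ≤ m := by exact_mod_cast hm.1
      have ht1 : (1 : ℝ) ≤ t := by exact_mod_cast ht
      have h1 := norm_cpow_step hsre hs' ht
      have h2 : ‖((max ((N : ℝ) - t * m) 0 : ℝ) : ℂ)‖ ≤ N := by
        rw [Complex.norm_real, Real.norm_of_nonneg (le_max_right _ _)]
        apply max_le _ hN0.le
        nlinarith
      have h3 : ‖(((t + 1 : ℕ) : ℝ) : ℂ) ^ (1 - s)‖ ≤ 2 * (t : ℝ) ^ k := by
        have hp : (0 : ℝ) < ((t + 1 : ℕ) : ℝ) := by positivity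
        rw [norm_cpow_eq_rpow_re_of_pos hp]
        have e : ((1 : ℂ) - s).re = 1 - s.re := by simp
        rw [e]
        calc ((t + 1 : ℕ) : ℝ) ^ (1 - s.re) ≤ ((t + 1 : ℕ) : ℝ) ^ k := by
              apply Real.rpow_le_rpow_of_exponent_le
              · push_cast; linarith
              · linarith
          _ ≤ (2 * t) ^ k := by
              apply Real.rpow_le_rpow hp.le _ hk0.le
              push_cast; linarith
          _ = 2 ^ k * (t : ℝ) ^ k := Real.mul_rpow (by norm_num) ht0.le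
          _ ≤ 2 * (t : ℝ) ^ k := by
              have : (2 : ℝ) ^ k ≤ 2 := by
                calc (2 : ℝ) ^ k ≤ 2 ^ (1 : ℝ) :=
                      Real.rpow_le_rpow_of_exponent_le (by norm_num) (by linarith)
                  _ = 2 := Real.rpow_one 2
              gcongr
      have h4 : ‖((max ((N : ℝ) - t * m) 0 - max ((N : ℝ) - ((t + 1 : ℕ) : ℝ) * m) 0 : ℝ) : ℂ)‖
          ≤ m := by
        rw [Complex.norm_real, Real.norm_eq_abs, abs_le]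
        have e2 : ((t + 1 : ℕ) : ℝ) * m = t * m + m := by push_cast; ring
        rw [e2]
        have a1 : max ((N : ℝ) - t * m) 0 = (N : ℝ) - t * m := max_eq_left (by linarith)
        rw [a1]
        have a2 := le_max_left ((N : ℝ) - (t * m + m)) 0
        have a3 := le_max_right ((N : ℝ) - (t * m + m)) 0
        have a4 : max ((N : ℝ) - (t * m + m)) 0 ≤ (N : ℝ) - t * m :=
          max_le (by linarith) (by linarith)
        constructor <;> linarith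
      have h5 : ‖(((t : ℝ) : ℂ) ^ (1 - s) - (((t + 1 : ℕ) : ℝ) : ℂ) ^ (1 - s)) *
            ((max ((N : ℝ) - t * m) 0 : ℝ) : ℂ) +
            (((t + 1 : ℕ) : ℝ) : ℂ) ^ (1 - s) * ((max ((N : ℝ) - t * m) 0 -
              max ((N : ℝ) - ((t + 1 : ℕ) : ℝ) * m) 0 : ℝ) : ℂ)‖ ≤
          ‖1 - s‖ * (t : ℝ) ^ (-s.re) * N + 2 * (t : ℝ) ^ k * m := by
        refine (norm_add_le _ _).trans ?_
        rw [norm_mul, norm_mul]
        gcongr
      rw [hmn]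
      have h6 : (m : ℝ) ^ (-s.re) ≤ (m : ℝ) ^ (k - 1) :=
        Real.rpow_le_rpow_of_exponent_le hm1 (by linarith)
      have h7 : (t : ℝ) ^ (-s.re) ≤ (t : ℝ) ^ (k - 1) :=
        Real.rpow_le_rpow_of_exponent_le ht1 (by linarith)
      have h8 : (m : ℝ) ^ (k - 1) * m = (m : ℝ) ^ k := by
        rw [Real.rpow_sub_one hm0.ne']
        field_simp
      have h9 : (m : ℝ) ^ k ≤ (M : ℝ) ^ k :=
        Real.rpow_le_rpow hm0.le (by exact_mod_cast hmM) hk0.le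
      calc (m : ℝ) ^ (-s.re) * _ ≤ (m : ℝ) ^ (k - 1) *
            (‖1 - s‖ * (t : ℝ) ^ (k - 1) * N + 2 * (t : ℝ) ^ k * m) := by
            gcongr
            exact h5.trans (by gcongr)
        _ = (m : ℝ) ^ (k - 1) * (‖1 - s‖ * (t : ℝ) ^ (k - 1) * N) +
            2 * (t : ℝ) ^ k * ((m : ℝ) ^ (k - 1) * m) := by ring
        _ = (m : ℝ) ^ (k - 1) * (‖1 - s‖ * (t : ℝ) ^ (k - 1) * N) +
            2 * (t : ℝ) ^ k * (m : ℝ) ^ k := by rw [h8]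
        _ ≤ _ := by gcongr
    · have hmt : (N : ℝ) ≤ t * m := by
        have h1 : M < m := not_le.1 hmM
        have h2 : N < m * t := (Nat.div_lt_iff_lt_mul (by omega)).1 h1
        have : (N : ℝ) < m * t := by exact_mod_cast h2
        linarith
      have a1 : max ((N : ℝ) - t * m) 0 = 0 := max_eq_right (by linarith)
      have a2 : max ((N : ℝ) - ((t + 1 : ℕ) : ℝ) * m) 0 = 0 := by
        apply max_eq_right
        push_cast
        nlinarith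
      rw [a1, a2]
      simp
  refine (norm_sum_le _ _).trans ((Finset.sum_le_sum hterm).trans ?_)
  rw [← Finset.sum_filter]
  have hfil : (Finset.Icc 1 N).filter (fun m => m ≤ M) = Finset.Icc 1 M := by
    ext m
    simp only [Finset.mem_filter, Finset.mem_Icc]
    omega
  rw [hfil, Finset.sum_add_distrib, ← Finset.sum_mul, Finset.sum_const, Nat.card_Icc,
    nsmul_eq_mul, Nat.add_sub_cancel]
  have hM0 : (0 : ℝ) ≤ M := Nat.cast_nonneg M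
  have hs1 := sum_rpow_le hk0 (by linarith) M
  have hMk : (M : ℝ) ^ k ≤ ((N : ℝ) / t) ^ k := Real.rpow_le_rpow hM0 hMle hk0.le
  have hid : ((N : ℝ) / t) ^ k * (t : ℝ) ^ (k - 1) * N = (N : ℝ) ^ (1 + k) / t := by
    rw [Real.div_rpow hN0.le ht0.le, Real.rpow_sub_one ht0.ne', Real.rpow_add hN0,
      Real.rpow_one]
    have : (t : ℝ) ^ k ≠ 0 := (Real.rpow_pos_of_pos ht0 k).ne'
    field_simp
  have h1 : (∑ m ∈ Finset.Icc 1 M, (m : ℝ) ^ (k - 1)) * (‖1 - s‖ * (t : ℝ) ^ (k - 1) * N) ≤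
      ‖1 - s‖ * ((N : ℝ) ^ (1 + k) / (t * k)) := by
    calc (∑ m ∈ Finset.Icc 1 M, (m : ℝ) ^ (k - 1)) * (‖1 - s‖ * (t : ℝ) ^ (k - 1) * N)
        ≤ (((N : ℝ) / t) ^ k / k) * (‖1 - s‖ * (t : ℝ) ^ (k - 1) * N) := by
          gcongr
          exact hs1.trans (by gcongr)
      _ = ‖1 - s‖ * ((((N : ℝ) / t) ^ k * (t : ℝ) ^ (k - 1) * N) / k) := by ring
      _ = ‖1 - s‖ * (((N : ℝ) ^ (1 + k) / t) / k) := by rw [hid]
      _ = _ := by rw [div_div]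
  have h2 : (M : ℝ) * (2 * (t : ℝ) ^ k * (M : ℝ) ^ k) ≤ (N : ℝ) ^ (1 + k) / (t * k) := by
    calc (M : ℝ) * (2 * (t : ℝ) ^ k * (M : ℝ) ^ k)
        ≤ ((N : ℝ) / t) * (2 * (t : ℝ) ^ k * ((N : ℝ) / t) ^ k) := by gcongr
      _ = 2 * ((((N : ℝ) / t) ^ k * (t : ℝ) ^ (k - 1) * N)) := by
          rw [Real.rpow_sub_one ht0.ne']
          field_simp
      _ = 2 * ((N : ℝ) ^ (1 + k) / t) := by rw [hid]
      _ ≤ (1 / k) * ((N : ℝ) ^ (1 + k) / t) := by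
          gcongr
          rw [le_div_iff₀ hk0]
          linarith
      _ = _ := by
          field_simp
  have h3 : ‖1 - s‖ ≤ 1 + ‖s‖ := by
    refine (norm_sub_le _ _).trans ?_
    simp
  have h4 : 0 ≤ (N : ℝ) ^ (1 + k) / (t * k) := by positivity
  have h5 : 0 ≤ ‖s‖ := norm_nonneg s
  calc _ ≤ ‖1 - s‖ * ((N : ℝ) ^ (1 + k) / (t * k)) + (N : ℝ) ^ (1 + k) / (t * k) :=
        add_le_add h1 h2
    _ ≤ (1 + ‖s‖) * ((N : ℝ) ^ (1 + k) / (t * k)) + (N : ℝ) ^ (1 + k) / (t * k) := by gcongr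
    _ ≤ 3 * (1 + ‖s‖) * ((N : ℝ) ^ (1 + k) / (t * k)) := by nlinarith
    _ = _ := by ring

end Pool.Agent.H48.UP
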