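import Mathlib
import Pool.Agent.H48.UP.Pow
import Pool.Agent.H48.UP.LowSq
import Pool.Agent.H48.UP.Wfun

/-!
Theorem 2: explicit certificates.
-/

open Finset Complex

namespace Pool.Agent.H48.UP

open Pool.Agent.H6

/-- the weighted sum, general form -/
theorem weighted_gen (f : ℕ → ℝ) {s : ℂ} (N : ℕ) :
    ‖∑ k ∈ Finset.Icc 1 N, ((oneConv f k : ℝ) : ℂ) * ((k : ℂ) ^ (-s) * ((N : ℂ) - k))‖
      ≤ ∑ m ∈ Finset.Ico 1 N, |lsum f m| * ‖wfun s N m - wfun s N (m + 1)‖ := by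
  rcases Nat.eq_zero_or_pos N with rfl | hN
  · simp
  have hcast : ∀ k : ℕ, ((oneConv f k : ℝ) : ℂ) = oneConv (fun n ↦ (f n : ℂ)) k := by
    intro k
    unfold oneConv
    push_cast
    rfl
  simp_rw [hcast]
  rw [sum_oneConv_mul (fun n ↦ (f n : ℂ)) (fun k : ℕ ↦ (k : ℂ) ^ (-s) * ((N : ℂ) - k))]
  have h1 : ∀ n ∈ Finset.Icc 1 N, (f n : ℂ) * ∑ j ∈ Finset.Icc 1 (N / n),
      (((n * j : ℕ) : ℂ) ^ (-s) * ((N : ℂ) - ((n * j : ℕ) : ℂ)))
      = ((f n : ℂ) / n) * wfun s N n := by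
    intro n hn
    rw [Finset.mem_Icc] at hn
    rw [inner_sum hn.1]
    ring
  rw [Finset.sum_congr rfl h1, abel_sum, wfun_self hN, mul_zero, zero_add]
  refine (norm_sum_le _ _).trans (le_of_eq ?_)
  refine Finset.sum_congr rfl fun m hm ↦ ?_
  rw [norm_mul]
  have h2 : ‖∑ n ∈ Finset.Icc 1 m, (f n : ℂ) / n‖ = |lsum f m| := by
    unfold lsum
    rw [← Real.norm_eq_abs, ← norm_real]
    congr 1
    push_cast
    rfl
  rw [h2]

/-- the `L¹` norm of `S_λ` up to `M` -/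
noncomputable def Gl (M : ℕ) : ℝ := ∑ m ∈ Icc 1 M, |Sl m|

lemma Gl_nonneg (M : ℕ) : 0 ≤ Gl M := Finset.sum_nonneg fun _ _ ↦ abs_nonneg _

/-- partial summation for the tail -/
lemma tail_Gl {B d : ℝ} (hB : 0 ≤ B) (hd0 : 0 < d) {X : ℕ}
    (h : ∀ M : ℕ, 1 ≤ M → M ≤ X → Gl M ≤ B * (M : ℝ) ^ (1 - d)) {a : ℕ} (ha : 1 ≤ a) (haX : a ≤ X) :
    ∑ m ∈ Icc a X, |Sl m| / m ≤ B * (a : ℝ) ^ (-d) * (1 + Real.log (X / a)) := by
  have h1 : ∀ y : ℕ, a ≤ y → ∑ m ∈ Icc a y, |Sl m| / m ≤ Gl y / y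
      + ∑ m ∈ Ico a y, Gl m * (1 / m - 1 / ((m : ℝ) + 1)) := by
    intro y hy
    induction y, hy using Nat.le_induction with
    | base =>
      rw [Finset.Icc_self, Finset.sum_singleton, Finset.Ico_self, Finset.sum_empty, add_zero]
      refine div_le_div_of_nonneg_right ?_ (by positivity)
      exact Finset.single_le_sum (f := fun k ↦ |Sl k|) (fun k _ ↦ abs_nonneg _)
        (Finset.mem_Icc.mpr ⟨ha, le_rfl⟩)
    | succ x hMx ih =>
      have hx0 : (0 : ℝ) < x := by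
        have : 0 < x := by omega
        exact_mod_cast this
      have hG : Gl (x + 1) = Gl x + |Sl (x + 1)| := by
        unfold Gl
        rw [Finset.sum_Icc_succ_top (by omega)]
      rw [Finset.sum_Icc_succ_top (by omega), Finset.sum_Ico_succ_top hMx, hG]
      push_cast
      have e : Gl x / x + |Sl (x + 1)| / ((x : ℝ) + 1)
          = (Gl x + |Sl (x + 1)|) / ((x : ℝ) + 1) + Gl x * (1 / x - 1 / ((x : ℝ) + 1)) := by
        field_simp
        ring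
      linarith
  refine (h1 X haX).trans ?_
  have ha0 : (0 : ℝ) < a := by exact_mod_cast ha
  have hX0 : (0 : ℝ) < X := by
    have : 0 < X := by omega
    exact_mod_cast this
  have hpow : ∀ m : ℕ, a ≤ m → (m : ℝ) ^ (-d) ≤ (a : ℝ) ^ (-d) := by
    intro m hm
    exact Real.rpow_le_rpow_of_nonpos ha0 (by exact_mod_cast hm) (by linarith)
  have h2 : Gl X / X ≤ B * (a : ℝ) ^ (-d) := by
    rw [div_le_iff₀ hX0]
    refine (h X (by omega) le_rfl).trans ?_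
    have e1 : (X : ℝ) ^ (1 - d) = (X : ℝ) ^ (-d) * X := by
      rw [show (1 : ℝ) - d = -d + 1 by ring, Real.rpow_add hX0, Real.rpow_one]
    rw [e1]
    have := hpow X haX
    calc B * ((X : ℝ) ^ (-d) * X) ≤ B * ((a : ℝ) ^ (-d) * X) := by gcongr
      _ = _ := by ring
  have h3 : ∀ m ∈ Ico a X, Gl m * (1 / m - 1 / ((m : ℝ) + 1))
      ≤ B * (a : ℝ) ^ (-d) * (1 / ((m : ℝ) + 1)) := by
    intro m hm
    rw [Finset.mem_Ico] at hm
    have hm0 : (0 : ℝ) < m := by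
      have : 0 < m := by omega
      exact_mod_cast this
    have e1 : (m : ℝ) ^ (1 - d) = (m : ℝ) ^ (-d) * m := by
      rw [show (1 : ℝ) - d = -d + 1 by ring, Real.rpow_add hm0, Real.rpow_one]
    have e2 : (1 : ℝ) / m - 1 / ((m : ℝ) + 1) = 1 / (m * ((m : ℝ) + 1)) := by
      field_simp
      ring
    have e3 := h m (by omega) hm.2.le
    rw [e1] at e3
    have e4 := hpow m hm.1
    rw [e2]
    calc Gl m * (1 / (m * ((m : ℝ) + 1))) ≤ (B * ((m : ℝ) ^ (-d) * m)) * (1 / (m * ((m : ℝ) + 1))) := by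
          gcongr
      _ = B * (m : ℝ) ^ (-d) * (1 / ((m : ℝ) + 1)) := by field_simp
      _ ≤ _ := by gcongr
  have h4 : ∀ y : ℕ, a ≤ y → ∑ m ∈ Ico a y, (1 / ((m : ℝ) + 1)) ≤ Real.log (y / a) := by
    intro y hy
    induction y, hy using Nat.le_induction with
    | base => simp [div_self ha0.ne']
    | succ x hx ih =>
      have hx0 : (0 : ℝ) < x := by
        have : 0 < x := by omega
        exact_mod_cast this
      rw [Finset.sum_Ico_succ_top hx]
      have e1 : Real.log (((x + 1 : ℕ) : ℝ) / a) = Real.log (x / a) + Real.log (((x : ℝ) + 1) / x) := by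
        rw [← Real.log_mul (by positivity) (by positivity)]
        congr 1
        push_cast
        field_simp
      have e2 : 1 / ((x : ℝ) + 1) ≤ Real.log (((x : ℝ) + 1) / x) := by
        have e3 := Real.one_sub_inv_le_log_of_pos (x := ((x : ℝ) + 1) / x) (by positivity)
        have e4 : 1 - (((x : ℝ) + 1) / x)⁻¹ = 1 / ((x : ℝ) + 1) := by
          field_simp
          ring
        linarith
      linarith
  have h5 := Finset.sum_le_sum h3
  rw [← Finset.mul_sum] at h5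
  have h6 : 0 ≤ B * (a : ℝ) ^ (-d) := by positivity
  have h7 := mul_le_mul_of_nonneg_left (h4 X haX) h6
  calc _ ≤ B * (a : ℝ) ^ (-d) + B * (a : ℝ) ^ (-d) * Real.log (X / a) := by linarith
    _ = _ := by ring

/-- the weighted sum over squares, bounded through the `L¹` norm of `S_λ` -/
theorem up_bound {B d κ : ℝ} (hB : 0 ≤ B) (hd0 : 0 < d) (hd : d ≤ 3 / 4) (hκ0 : 0 < κ)
    (hκ : κ ≤ 1 / 2) {s : ℂ} (hs : 1 - κ ≤ s.re) (hs' : s.re < 1) (hz : riemannZeta s = 0) {X : ℕ}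
    (hX : 1 + ‖s‖ ≤ X)
    (h : ∀ M : ℕ, 1 ≤ M → M ≤ X → Gl M ≤ B * (M : ℝ) ^ (1 - d)) :
    ‖∑ k ∈ Finset.Icc 1 X, ((hc lamH k : ℝ) : ℂ) * ((k : ℂ) ^ (-s) * ((X : ℂ) - k))‖
      ≤ 50 * B * (1 + ‖s‖) ^ (1 + d) * (X : ℝ) ^ (1 + κ - d) * (1 + Real.log (1 + ‖s‖)) / κ := by
  set τ : ℝ := 1 + ‖s‖ with hτ
  have hτ1 : 1 ≤ τ := by have := norm_nonneg s; linarith
  have hτ0 : 0 < τ := by linarith
  have hX0 : (0 : ℝ) < X := by linarith
  have hX1 : 1 ≤ X := by exact_mod_cast hτ1.trans hX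
  have hlτ : 0 ≤ Real.log τ := Real.log_nonneg hτ1
  set M0 : ℕ := ⌊(X : ℝ) / τ⌋₊ with hM0
  have hM0le : (M0 : ℝ) ≤ X / τ := Nat.floor_le (by positivity)
  have hM0lt : (X : ℝ) / τ < M0 + 1 := Nat.lt_floor_add_one _
  have hM01 : 1 ≤ M0 := by
    rw [hM0, Nat.one_le_floor_iff, one_le_div hτ0]
    exact hX
  have hM0X : M0 ≤ X := by
    have : (M0 : ℝ) ≤ X := hM0le.trans (div_le_self hX0.le hτ1)
    exact_mod_cast this
  have hw := weighted_gen (fun n ↦ lamH n) (s := s) X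
  unfold hc
  refine hw.trans ?_
  have hS : ∀ m, lsum (fun n ↦ lamH n) m = Sl m := fun m ↦ rfl
  simp_rw [hS]
  rw [← Finset.sum_filter_add_sum_filter_not (Ico 1 X) (fun m ↦ m ≤ M0)]
  -- small `m`
  have h1 : ∑ m ∈ (Ico 1 X).filter (fun m ↦ m ≤ M0), |Sl m| * ‖wfun s X m - wfun s X (m + 1)‖
      ≤ 40 * B * τ ^ (1 + d) * (X : ℝ) ^ (1 + κ - d) / κ := by
    calc ∑ m ∈ (Ico 1 X).filter (fun m ↦ m ≤ M0), |Sl m| * ‖wfun s X m - wfun s X (m + 1)‖
        ≤ ∑ m ∈ (Ico 1 X).filter (fun m ↦ m ≤ M0), |Sl m| * (40 * τ ^ 2 / κ * (X : ℝ) ^ κ) := by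
          refine Finset.sum_le_sum fun m hm ↦ ?_
          rw [Finset.mem_filter, Finset.mem_Ico] at hm
          refine mul_le_mul_of_nonneg_left ?_ (abs_nonneg _)
          exact wfun_step hκ0 hκ hs hs' hz hm.1.1 hm.1.2
      _ = (∑ m ∈ (Ico 1 X).filter (fun m ↦ m ≤ M0), |Sl m|) * (40 * τ ^ 2 / κ * (X : ℝ) ^ κ) := by
          rw [Finset.sum_mul]
      _ ≤ Gl M0 * (40 * τ ^ 2 / κ * (X : ℝ) ^ κ) := by
          refine mul_le_mul_of_nonneg_right ?_ (by positivity)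
          refine Finset.sum_le_sum_of_subset_of_nonneg ?_ fun _ _ _ ↦ abs_nonneg _
          intro m hm
          rw [Finset.mem_filter, Finset.mem_Ico] at hm
          rw [Finset.mem_Icc]
          omega
      _ ≤ (B * ((X : ℝ) / τ) ^ (1 - d)) * (40 * τ ^ 2 / κ * (X : ℝ) ^ κ) := by
          refine mul_le_mul_of_nonneg_right ?_ (by positivity)
          refine (h M0 hM01 hM0X).trans ?_
          refine mul_le_mul_of_nonneg_left ?_ hB
          exact Real.rpow_le_rpow (by positivity) hM0le (by linarith)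
      _ = _ := by
          have e1 : ((X : ℝ) / τ) ^ (1 - d) = (X : ℝ) ^ (1 - d) / τ ^ (1 - d) :=
            Real.div_rpow hX0.le hτ0.le _
          have e2 : (X : ℝ) ^ (1 + κ - d) = (X : ℝ) ^ (1 - d) * (X : ℝ) ^ κ := by
            rw [← Real.rpow_add hX0]
            ring_nf
          have e3 : τ ^ (1 + d) * τ ^ (1 - d) = τ ^ 2 := by
            rw [← Real.rpow_add hτ0, ← Real.rpow_natCast]
            congr 1
            push_cast
            ring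
          have e4 : 0 < τ ^ (1 - d) := by positivity
          rw [e1, e2, ← e3]
          field_simp
  -- large `m`
  have h2 : ∑ m ∈ (Ico 1 X).filter (fun m ↦ ¬ m ≤ M0), |Sl m| * ‖wfun s X m - wfun s X (m + 1)‖
      ≤ 3 * B * τ ^ (1 + d) * (X : ℝ) ^ (1 + κ - d) * (1 + Real.log τ) / κ := by
    rcases Nat.lt_or_ge X (M0 + 1) with hlt | hge
    · have : (Ico 1 X).filter (fun m ↦ ¬ m ≤ M0) = ∅ := by
        rw [Finset.filter_eq_empty_iff]
        intro m hm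
        rw [Finset.mem_Ico] at hm
        omega
      rw [this, Finset.sum_empty]
      positivity
    calc ∑ m ∈ (Ico 1 X).filter (fun m ↦ ¬ m ≤ M0), |Sl m| * ‖wfun s X m - wfun s X (m + 1)‖
        ≤ ∑ m ∈ (Ico 1 X).filter (fun m ↦ ¬ m ≤ M0), |Sl m| / m * (3 * τ * (X : ℝ) ^ (1 + κ) / κ) := by
          refine Finset.sum_le_sum fun m hm ↦ ?_
          rw [Finset.mem_filter, Finset.mem_Ico] at hm
          have hm0 : (0 : ℝ) < m := by
            have : 0 < m := by omega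
            exact_mod_cast this
          have e1 := wfun_step2 hκ0 hκ hs hs' hm.1.1 hm.1.2
          calc |Sl m| * ‖wfun s X m - wfun s X (m + 1)‖
              ≤ |Sl m| * (3 * (1 + ‖s‖) * (X : ℝ) ^ (1 + κ) / (m * κ)) :=
                mul_le_mul_of_nonneg_left e1 (abs_nonneg _)
            _ = _ := by rw [← hτ]; field_simp
      _ = (∑ m ∈ (Ico 1 X).filter (fun m ↦ ¬ m ≤ M0), |Sl m| / m) *
            (3 * τ * (X : ℝ) ^ (1 + κ) / κ) := by rw [Finset.sum_mul]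
      _ ≤ (∑ m ∈ Icc (M0 + 1) X, |Sl m| / m) * (3 * τ * (X : ℝ) ^ (1 + κ) / κ) := by
          refine mul_le_mul_of_nonneg_right ?_ (by positivity)
          refine Finset.sum_le_sum_of_subset_of_nonneg ?_ fun _ _ _ ↦ by positivity
          intro m hm
          rw [Finset.mem_filter, Finset.mem_Ico] at hm
          rw [Finset.mem_Icc]
          omega
      _ ≤ (B * (τ ^ d * (X : ℝ) ^ (-d)) * (1 + Real.log τ)) * (3 * τ * (X : ℝ) ^ (1 + κ) / κ) := by
          refine mul_le_mul_of_nonneg_right ?_ (by positivity)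
          have e1 := tail_Gl hB hd0 h (a := M0 + 1) (by omega) hge
          have hpos : (0 : ℝ) < ((M0 + 1 : ℕ) : ℝ) := by positivity
          have hlow : (X : ℝ) / τ ≤ ((M0 + 1 : ℕ) : ℝ) := by push_cast; exact hM0lt.le
          have e2 : ((M0 + 1 : ℕ) : ℝ) ^ (-d) ≤ τ ^ d * (X : ℝ) ^ (-d) := by
            calc ((M0 + 1 : ℕ) : ℝ) ^ (-d) ≤ ((X : ℝ) / τ) ^ (-d) :=
                  Real.rpow_le_rpow_of_nonpos (by positivity) hlow (by linarith)
              _ = _ := by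
                  rw [Real.div_rpow hX0.le hτ0.le, Real.rpow_neg hτ0.le d]
                  field_simp
          have e3 : Real.log (X / ((M0 + 1 : ℕ) : ℝ)) ≤ Real.log τ := by
            refine Real.log_le_log (by positivity) ?_
            rw [div_le_iff₀ hpos]
            rw [div_le_iff₀ hτ0] at hlow
            linarith
          refine e1.trans ?_
          have e4 : 0 ≤ Real.log (X / ((M0 + 1 : ℕ) : ℝ)) := by
            refine Real.log_nonneg ?_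
            rw [one_le_div hpos]
            exact_mod_cast hge
          gcongr
      _ = _ := by
          have e1 : τ ^ (1 + d) = τ ^ d * τ := by
            rw [show 1 + d = d + 1 by ring, Real.rpow_add hτ0, Real.rpow_one]
          have e2 : (X : ℝ) ^ (1 + κ - d) = (X : ℝ) ^ (-d) * (X : ℝ) ^ (1 + κ) := by
            rw [← Real.rpow_add hX0]
            ring_nf
          rw [e1, e2]
          ring
  have h3 : 40 * B * τ ^ (1 + d) * (X : ℝ) ^ (1 + κ - d) / κ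
      ≤ 40 * B * τ ^ (1 + d) * (X : ℝ) ^ (1 + κ - d) * (1 + Real.log τ) / κ := by
    refine div_le_div_of_nonneg_right ?_ hκ0.le
    have : 0 ≤ 40 * B * τ ^ (1 + d) * (X : ℝ) ^ (1 + κ - d) := by positivity
    nlinarith
  have h4 : 0 ≤ B * τ ^ (1 + d) * (X : ℝ) ^ (1 + κ - d) * (1 + Real.log τ) / κ := by positivity
  calc _ ≤ 40 * B * τ ^ (1 + d) * (X : ℝ) ^ (1 + κ - d) * (1 + Real.log τ) / κ
        + 3 * B * τ ^ (1 + d) * (X : ℝ) ^ (1 + κ - d) * (1 + Real.log τ) / κ :=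
        add_le_add (h1.trans h3) h2
    _ = 43 * (B * τ ^ (1 + d) * (X : ℝ) ^ (1 + κ - d) * (1 + Real.log τ) / κ) := by ring
    _ ≤ 50 * (B * τ ^ (1 + d) * (X : ℝ) ^ (1 + κ - d) * (1 + Real.log τ) / κ) := by linarith
    _ = _ := by ring

/-- **Theorem 2** (certificates, polynomial in all parameters) -/
theorem cert {k0 : ℝ} (hk00 : 0 ≤ k0) (hk0 : k0 < 1 / 2) : ∃ C : ℝ, 1 ≤ C ∧
    ∀ f : ℕ →*₀ ℝ, (∀ n, |f n| ≤ 1) → ∀ d K : ℝ, 0 < d → d ≤ 3 / 4 → 1 ≤ K → ∀ X : ℕ, 1 ≤ X →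
    PowB f d K (2 * X) → ∀ s : ℂ, riemannZeta s = 0 → 1 - k0 ≤ s.re → s.re < 1 →
      (X : ℝ) ^ (d - (1 - s.re)) ≤ C * K ^ 2 * (1 + ‖s‖) ^ (1 + d) * (1 + Real.log X)
        * (1 + Real.log (1 + ‖s‖)) / (1 - s.re) := by
  obtain ⟨c, hcp, N1, hlow⟩ := sq_lower hk00 hk0
  refine ⟨max (max 1 ((N1 : ℝ) + 1)) (50 * 2 ^ 18 / c), ?_, ?_⟩
  · exact (le_max_left _ _).trans (le_max_left _ _)
  intro f hf d K hd0 hd hK X hX1 hP s hz hs hs'
  set C : ℝ := max (max 1 ((N1 : ℝ) + 1)) (50 * 2 ^ 18 / c) with hC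
  have hC1 : 1 ≤ C := (le_max_left _ _).trans (le_max_left _ _)
  have hCN : (N1 : ℝ) + 1 ≤ C := (le_max_right _ _).trans (le_max_left _ _)
  have hCc : 50 * 2 ^ 18 / c ≤ C := le_max_right _ _
  set κ : ℝ := 1 - s.re with hκ
  have hκ0 : 0 < κ := by rw [hκ]; linarith
  have hκ1 : κ ≤ 1 / 2 := by rw [hκ]; linarith
  set τ : ℝ := 1 + ‖s‖ with hτ
  have hτ1 : 1 ≤ τ := by have := norm_nonneg s; linarith
  have hτ0 : 0 < τ := by linarith
  have hlτ : 0 ≤ Real.log τ := Real.log_nonneg hτ1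
  have hX0 : (0 : ℝ) < X := by exact_mod_cast hX1
  have hX1r : (1 : ℝ) ≤ X := by exact_mod_cast hX1
  have hlX : 0 ≤ Real.log X := Real.log_nonneg hX1r
  have hK2 : 1 ≤ K ^ 2 := one_le_pow₀ hK
  have hτd : 1 ≤ τ ^ (1 + d) := Real.one_le_rpow hτ1 (by linarith)
  -- a general lower bound of the right side
  have hrhs : C * τ ^ (1 + d) ≤ C * K ^ 2 * τ ^ (1 + d) * (1 + Real.log X) * (1 + Real.log τ) / κ := by
    rw [le_div_iff₀ hκ0]
    have e1 : C * τ ^ (1 + d) * κ ≤ C * τ ^ (1 + d) := by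
      have : 0 ≤ C * τ ^ (1 + d) := by positivity
      nlinarith
    have e2 : C * τ ^ (1 + d) ≤ C * K ^ 2 * τ ^ (1 + d) := by
      have : 0 ≤ C * τ ^ (1 + d) := by positivity
      nlinarith
    have e3 : C * K ^ 2 * τ ^ (1 + d) ≤ C * K ^ 2 * τ ^ (1 + d) * (1 + Real.log X) := by
      have : 0 ≤ C * K ^ 2 * τ ^ (1 + d) := by positivity
      nlinarith
    have e4 : C * K ^ 2 * τ ^ (1 + d) * (1 + Real.log X)
        ≤ C * K ^ 2 * τ ^ (1 + d) * (1 + Real.log X) * (1 + Real.log τ) := by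
      have : 0 ≤ C * K ^ 2 * τ ^ (1 + d) * (1 + Real.log X) := by positivity
      nlinarith
    linarith
  rcases lt_or_ge (X : ℝ) τ with hXτ | hXτ
  · refine le_trans ?_ hrhs
    calc (X : ℝ) ^ (d - κ) ≤ (X : ℝ) ^ (1 + d) :=
          Real.rpow_le_rpow_of_exponent_le hX1r (by linarith)
      _ ≤ τ ^ (1 + d) := Real.rpow_le_rpow hX0.le hXτ.le (by linarith)
      _ ≤ C * τ ^ (1 + d) := by nlinarith
  rcases Nat.lt_or_ge X N1 with hXN | hXN
  · refine le_trans ?_ hrhs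
    have e1 : (X : ℝ) ≤ N1 := by exact_mod_cast hXN.le
    calc (X : ℝ) ^ (d - κ) ≤ (X : ℝ) ^ (1 : ℝ) :=
          Real.rpow_le_rpow_of_exponent_le hX1r (by linarith)
      _ = X := Real.rpow_one _
      _ ≤ C := by linarith
      _ ≤ C * τ ^ (1 + d) := by nlinarith
  -- main case
  set B : ℝ := 2 ^ 18 * K ^ 2 * (1 + Real.log X) with hB
  have hB0 : 0 ≤ B := by positivity
  have hG : ∀ M : ℕ, 1 ≤ M → M ≤ X → Gl M ≤ B * (M : ℝ) ^ (1 - d) := by
    intro M hM1 hMX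
    have e1 := lam_pow hf hd0 hd hK hP hM1 (by omega)
    have e2 : Real.log M ≤ Real.log X := Real.log_le_log (by exact_mod_cast hM1) (by exact_mod_cast hMX)
    refine e1.trans ?_
    have e3 : 0 ≤ 2 ^ 18 * K ^ 2 * (M : ℝ) ^ (1 - d) := by positivity
    calc 2 ^ 18 * K ^ 2 * (M : ℝ) ^ (1 - d) * (1 + Real.log M)
        ≤ 2 ^ 18 * K ^ 2 * (M : ℝ) ^ (1 - d) * (1 + Real.log X) := by gcongr
      _ = _ := by rw [hB]; ring
  have hup := up_bound hB0 hd0 hd hκ0 hκ1 (s := s) (by rw [hκ]; linarith) hs' hz (X := X) hXτ hG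
  have hlo := hlow X hXN s hs
  have hsq := sum_hc_lam (R := ℂ) (fun k ↦ (k : ℂ) ^ (-s) * ((X : ℂ) - k)) X
  have hsq' : ∑ k ∈ Finset.Icc 1 X, ((hc lamH k : ℝ) : ℂ) * ((k : ℂ) ^ (-s) * ((X : ℂ) - k))
      = ∑ r ∈ Icc 1 (Nat.sqrt X), (((r ^ 2 : ℕ) : ℂ) ^ (-s) * ((X : ℂ) - ((r ^ 2 : ℕ) : ℂ))) := hsq
  rw [hsq', ← hτ] at hup
  have h1 := hlo.trans hup
  have e2 : (X : ℝ) ^ (1 + κ - d) * (X : ℝ) ^ (d - κ) = X := by
    rw [← Real.rpow_add hX0]
    have : 1 + κ - d + (d - κ) = 1 := by ring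
    rw [this, Real.rpow_one]
  have hp1 : 0 < (X : ℝ) ^ (1 + κ - d) := by positivity
  have h2 : c * (X : ℝ) ^ (d - κ) ≤ 50 * B * τ ^ (1 + d) * (1 + Real.log τ) / κ := by
    have h3 : (c * (X : ℝ) ^ (d - κ)) * (X : ℝ) ^ (1 + κ - d)
        ≤ (50 * B * τ ^ (1 + d) * (1 + Real.log τ) / κ) * (X : ℝ) ^ (1 + κ - d) := by
      calc (c * (X : ℝ) ^ (d - κ)) * (X : ℝ) ^ (1 + κ - d)
          = c * ((X : ℝ) ^ (1 + κ - d) * (X : ℝ) ^ (d - κ)) := by ring
        _ = c * X := by rw [e2]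
        _ ≤ _ := h1
        _ = _ := by ring
    exact le_of_mul_le_mul_right h3 hp1
  have h4 : (X : ℝ) ^ (d - κ) ≤ (50 * B * τ ^ (1 + d) * (1 + Real.log τ) / κ) / c := by
    rw [le_div_iff₀ hcp]
    linarith
  refine h4.trans ?_
  have h5 : (50 * B * τ ^ (1 + d) * (1 + Real.log τ) / κ) / c
      = (50 * 2 ^ 18 / c) * (K ^ 2 * τ ^ (1 + d) * (1 + Real.log X) * (1 + Real.log τ) / κ) := by
    rw [hB]
    field_simp
  rw [h5]
  have h6 : 0 ≤ K ^ 2 * τ ^ (1 + d) * (1 + Real.log X) * (1 + Real.log τ) / κ := by positivity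
  calc _ ≤ C * (K ^ 2 * τ ^ (1 + d) * (1 + Real.log X) * (1 + Real.log τ) / κ) :=
        mul_le_mul_of_nonneg_right hCc h6
    _ = _ := by ring

end Pool.Agent.H48.UP
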