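import Mathlib
import Pool.Agent.H48.UP.Cert
import Pool.Agent.H48.UP.Omega

/-!
Theorem 3: the logarithmic sums of every completely multiplicative `f : ℕ → [-1,1]` are at least
`exp (-(1+ε) ω(y))` infinitely often, uniformly in `f`.
-/

open Finset Complex

namespace Pool.Agent.H48.UP

open Pool.Agent.H6

/-- the hypothesis of Theorem 3 implies a power bound -/
lemma powB_of {f : ℕ →*₀ ℝ} {ε ε' : ℝ} {x : ℕ} (hx : 2 ≤ x) (hε : 0 ≤ ε)
    (h : ∀ y : ℕ, 1 ≤ y → y ≤ x → S f y ≤ Real.exp (ε' * om x - (1 + ε) * om y)) :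
    PowB f ((1 + ε) * om x / Real.log x) (Real.exp (ε' * om x)) x := by
  intro y hy hyx
  refine (h y hy hyx).trans ?_
  have hy0 : (0 : ℝ) < y := by exact_mod_cast hy
  have hy1 : (1 : ℝ) ≤ y := by exact_mod_cast hy
  have hx1 : (1 : ℝ) < x := by
    have : 1 < x := by omega
    exact_mod_cast this
  have hlx : 0 < Real.log x := Real.log_pos hx1
  have h1 := om_concave hy1 (by exact_mod_cast hyx : (y : ℝ) ≤ x) hx1
  rw [Real.rpow_def_of_pos hy0, ← Real.exp_add]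
  refine Real.exp_le_exp.mpr ?_
  have h2 : Real.log y * -((1 + ε) * om x / Real.log x) = -((1 + ε) * (Real.log y / Real.log x * om x)) := by
    ring
  rw [h2]
  nlinarith

/-- powers of `u` against exponentials -/
lemma exp_beats (a C : ℝ) (ha : 0 < a) : ∃ U : ℝ, ∀ u : ℝ, U ≤ u → C * u ^ 4 < Real.exp (a * u) := by
  have h := Real.tendsto_pow_mul_exp_neg_atTop_nhds_zero 4
  have h2 : Filter.Tendsto (fun u : ℝ ↦ a * u) Filter.atTop Filter.atTop :=
    Filter.tendsto_id.const_mul_atTop ha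
  have h3 := (h.comp h2).const_mul (|C| / a ^ 4)
  rw [mul_zero] at h3
  obtain ⟨U, hU⟩ := Filter.eventually_atTop.mp (h3.eventually (gt_mem_nhds (zero_lt_one)))
  refine ⟨max U 0, fun u hu ↦ ?_⟩
  have h4 := hU u ((le_max_left _ _).trans hu)
  simp only [Function.comp_apply] at h4
  have h5 : |C| / a ^ 4 * ((a * u) ^ 4 * Real.exp (-(a * u))) = |C| * u ^ 4 * Real.exp (-(a * u)) := by
    field_simp
  rw [h5, Real.exp_neg, ← div_eq_mul_inv, div_lt_one (Real.exp_pos _)] at h4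
  refine lt_of_le_of_lt ?_ h4
  exact mul_le_mul_of_nonneg_right (le_abs_self C) (by positivity)

/-- `ω(x) → ∞` -/
lemma om_large (U : ℝ) : ∃ x0 : ℝ, ∀ x : ℝ, x0 ≤ x → U ≤ om x := by
  obtain ⟨c, hc, h⟩ := om_lower
  refine ⟨max 2 (Real.exp ((U / c) ^ 2)), fun x hx ↦ ?_⟩
  have h2 : 2 ≤ x := (le_max_left _ _).trans hx
  have h3 : (U / c) ^ 2 ≤ Real.log x := by
    rw [Real.le_log_iff_exp_le (by linarith)]
    exact (le_max_right _ _).trans hx
  have h4 : U / c ≤ Real.sqrt (Real.log x) := Real.le_sqrt_of_sq_le h3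
  have h5 := h x h2
  rw [div_le_iff₀ hc] at h4
  linarith

/-- the case of a zero to the right of `1/2` -/
theorem osc_B (hz : ∃ r ∈ Zer, 1 / 2 < r.re) {ε : ℝ} (hε : 0 < ε) (hε1 : ε ≤ 1 / 8) :
    ∃ x0 : ℕ, ∀ x : ℕ, x0 ≤ x → ∀ f : ℕ →*₀ ℝ, (∀ n, |f n| ≤ 1) →
      ∃ y : ℕ, 1 ≤ y ∧ y ≤ x ∧ Real.exp (ε / 8 * om x - (1 + ε) * om y) < S f y := by
  obtain ⟨k0, hk0, xa, hact⟩ := active hz (e := ε / 8) (by positivity)
  obtain ⟨r0, hr0, hr0'⟩ := hz
  obtain ⟨C, hC1, hcert⟩ := cert (k0 := max k0 0) (le_max_right _ _) (max_lt hk0 (by norm_num))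
  obtain ⟨c1, hc1, hcl⟩ := classical
  obtain ⟨c2, hc2, hlow⟩ := om_lower
  set P : ℝ := 16 * C * ((12 / c1) * (1 + 1 / c2 ^ 2)) with hP
  obtain ⟨U, hU⟩ := exp_beats (3 * ε / 8) P (by positivity)
  obtain ⟨x1, hx1⟩ := om_large (max U 1)
  -- a bound for `d`
  set C0 : ℝ := Real.log (1 + |r0.im|) with hC0
  have hC00 : 0 ≤ C0 := Real.log_nonneg (by linarith [abs_nonneg r0.im])
  refine ⟨max 4 (⌈max (max xa x1) (Real.exp (16 * C0 + 1))⌉₊), fun x hx f hf ↦ ?_⟩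
  have hx4 : 4 ≤ x := (le_max_left _ _).trans hx
  have hxm : max (max xa x1) (Real.exp (16 * C0 + 1)) ≤ x :=
    (Nat.le_ceil _).trans (by exact_mod_cast (le_max_right _ _).trans hx)
  have hxa : xa ≤ x := ((le_max_left _ _).trans (le_max_left _ _)).trans hxm
  have hxx1 : x1 ≤ x := ((le_max_right _ _).trans (le_max_left _ _)).trans hxm
  have hxe : Real.exp (16 * C0 + 1) ≤ x := (le_max_right _ _).trans hxm
  have hxr : (4 : ℝ) ≤ x := by exact_mod_cast hx4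
  have hx0 : (0 : ℝ) < x := by linarith
  have hlx : 16 * C0 + 1 ≤ Real.log x := by
    rw [Real.le_log_iff_exp_le hx0]
    exact hxe
  have hlx0 : 0 < Real.log x := by linarith
  set u : ℝ := om x with hu
  have huU : U ≤ u := (le_max_left _ _).trans (hx1 x hxx1)
  have hu1 : 1 ≤ u := (le_max_right _ _).trans (hx1 x hxx1)
  have hu0 : 0 < u := by linarith
  by_contra hcon
  push Not at hcon
  have hall : ∀ y : ℕ, 1 ≤ y → y ≤ x → S f y ≤ Real.exp (ε / 8 * om x - (1 + ε) * om y) :=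
    fun y h1 h2 ↦ hcon y h1 h2
  set d : ℝ := (1 + ε) * u / Real.log x with hd
  set K : ℝ := Real.exp (ε / 8 * u) with hK
  have hpow : PowB f d K x := powB_of (by omega) hε.le hall
  have hd0 : 0 < d := by positivity
  have hdlog : d * Real.log x = (1 + ε) * u := by rw [hd]; field_simp
  have hd34 : d ≤ 3 / 4 := by
    have h1 := om_le (x := x) (by linarith) hr0
    rw [← hu, ← hC0] at h1
    have h2 : u ≤ 1 / 2 * Real.log x + 1 / 16 * Real.log x := by nlinarith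
    rw [hd, div_le_iff₀ hlx0]
    nlinarith
  have hK1 : 1 ≤ K := by
    rw [hK]
    exact Real.one_le_exp (by positivity)
  obtain ⟨r, hr, hrk, hr1, hr2⟩ := hact x hxa
  obtain ⟨hrz, hrpos, hrlt⟩ := hr
  set g : ℝ := |r.im| with hg
  have hg0 : 0 ≤ g := abs_nonneg _
  set κ : ℝ := 1 - r.re with hκ
  have hκ0 : 0 < κ := by rw [hκ]; linarith
  set X : ℕ := x / 2 with hX
  have hX1 : 1 ≤ X := by omega
  have hX2 : 2 * X ≤ x := by omega
  have hX4 : x ≤ 4 * X := by omega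
  have hX0 : (0 : ℝ) < X := by exact_mod_cast hX1
  have hXx : (X : ℝ) ≤ x := by
    have : X ≤ x := by omega
    exact_mod_cast this
  have hX4r : (x : ℝ) / 4 ≤ X := by
    have : (x : ℝ) ≤ 4 * X := by exact_mod_cast hX4
    linarith
  have hpow2 : PowB f d K (2 * X) := fun y h1 h2 ↦ hpow y h1 (h2.trans hX2)
  have hmain := hcert f hf d K hd0 hd34 hK1 X hX1 hpow2 r hrz
    (by have := le_max_left k0 0; linarith) hrlt
  rw [← hκ] at hmain
  -- sizes
  have hlg : 0 ≤ Real.log (1 + g) := Real.log_nonneg (by linarith)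
  have hlg2 : Real.log (1 + g) ≤ 2 * u := by
    have h1 : 0 ≤ κ * Real.log x := by positivity
    nlinarith
  have hln2 : Real.log 2 ≤ 1 := by
    have := Real.log_two_lt_d9
    linarith
  have hτ : 1 + ‖r‖ ≤ 2 * (1 + g) := by
    have h1 := norm_le_abs_re_add_abs_im r
    have h2 : |r.re| ≤ 1 := by rw [abs_le]; constructor <;> linarith
    rw [← hg] at h1
    linarith
  have hτ1 : 1 ≤ 1 + ‖r‖ := by have := norm_nonneg r; linarith
  have hlτ : 1 + Real.log (1 + ‖r‖) ≤ 4 * u := by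
    have h1 : Real.log (1 + ‖r‖) ≤ Real.log (2 * (1 + g)) := Real.log_le_log (by linarith) hτ
    rw [Real.log_mul (by norm_num) (by linarith)] at h1
    linarith
  have hlτ0 : 0 ≤ Real.log (1 + ‖r‖) := Real.log_nonneg hτ1
  have hlX : 1 + Real.log X ≤ (1 + 1 / c2 ^ 2) * u ^ 2 := by
    have h1 : Real.log X ≤ Real.log x := Real.log_le_log hX0 hXx
    have h2 := hlow x (by linarith)
    rw [← hu] at h2
    have h3 : Real.log x ≤ u ^ 2 / c2 ^ 2 := by
      rw [le_div_iff₀ (by positivity)]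
      have h4 : (c2 * Real.sqrt (Real.log x)) ^ 2 ≤ u ^ 2 :=
        pow_le_pow_left₀ (by positivity) h2 2
      rw [mul_pow, Real.sq_sqrt hlx0.le] at h4
      linarith
    have h4 : 1 ≤ u ^ 2 := one_le_pow₀ hu1
    have h5 : (1 + 1 / c2 ^ 2) * u ^ 2 = u ^ 2 + u ^ 2 / c2 ^ 2 := by ring
    rw [h5]
    linarith
  have hlX0 : 0 ≤ Real.log X := Real.log_natCast_nonneg X
  have hκinv : 1 / κ ≤ 3 * u / c1 := by
    have h1 := hcl r hrz hrpos
    rw [← hg] at h1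
    have h2 : 0 < Real.log (2 + g) := Real.log_pos (by linarith)
    have h3 : c1 / Real.log (2 + g) ≤ κ := by rw [hκ]; linarith
    have h4 : Real.log (2 + g) ≤ 3 * u := by
      have h5 : Real.log (2 + g) ≤ Real.log (2 * (1 + g)) := Real.log_le_log (by linarith) (by linarith)
      rw [Real.log_mul (by norm_num) (by linarith)] at h5
      linarith
    calc 1 / κ ≤ 1 / (c1 / Real.log (2 + g)) := one_div_le_one_div_of_le (by positivity) h3
      _ = Real.log (2 + g) / c1 := by field_simp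
      _ ≤ _ := div_le_div_of_nonneg_right h4 hc1.le
  have hτd : (1 + ‖r‖) ^ (1 + d) ≤ 4 * (1 + g) * Real.exp (2 * (ε / 8) * u) := by
    have h0 : 0 < 1 + g := by linarith
    calc (1 + ‖r‖) ^ (1 + d) ≤ (2 * (1 + g)) ^ (1 + d) :=
          Real.rpow_le_rpow (by linarith) hτ (by linarith)
      _ = 2 ^ (1 + d) * ((1 + g) * (1 + g) ^ d) := by
          rw [Real.mul_rpow (by norm_num) h0.le, Real.rpow_add h0, Real.rpow_one]
      _ ≤ 4 * ((1 + g) * Real.exp (2 * (ε / 8) * u)) := by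
          have h1 : (2 : ℝ) ^ (1 + d) ≤ 4 := by
            calc (2 : ℝ) ^ (1 + d) ≤ 2 ^ (2 : ℝ) :=
                  Real.rpow_le_rpow_of_exponent_le (by norm_num) (by linarith)
              _ = 4 := by norm_num
          have h2 : (1 + g) ^ d ≤ Real.exp (2 * (ε / 8) * u) := by
            rw [Real.rpow_def_of_pos h0]
            refine Real.exp_le_exp.mpr ?_
            have h3 : Real.log (1 + g) * d = (1 + ε) * (u / Real.log x * Real.log (1 + g)) := by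
              rw [hd]; ring
            rw [h3]
            have h4 : 0 ≤ u / Real.log x * Real.log (1 + g) := by positivity
            nlinarith
          gcongr
      _ = _ := by ring
  have hK2 : K ^ 2 = Real.exp (ε / 4 * u) := by
    rw [hK, ← Real.exp_nat_mul]
    congr 1
    push_cast
    ring
  -- the left side
  have hdκ : (ε - ε / 8) * u + Real.log (1 + g) ≤ (d - κ) * Real.log x := by
    have : (d - κ) * Real.log x = (1 + ε) * u - κ * Real.log x := by rw [sub_mul, hdlog]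
    rw [this]
    linarith
  have hdκ0 : 0 ≤ d - κ := by
    have h1 : 0 ≤ (d - κ) * Real.log x := by
      have : 0 ≤ (ε - ε / 8) * u := by nlinarith
      linarith
    exact nonneg_of_mul_nonneg_left h1 hlx0
  have hleft : (1 + g) * Real.exp ((ε - ε / 8) * u) / 4 ≤ (X : ℝ) ^ (d - κ) := by
    have h0 : 0 < 1 + g := by linarith
    have h1 : ((x : ℝ) / 4) ^ (d - κ) ≤ (X : ℝ) ^ (d - κ) :=
      Real.rpow_le_rpow (by positivity) hX4r hdκ0
    refine le_trans ?_ h1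
    rw [Real.div_rpow hx0.le (by norm_num)]
    have h2 : (4 : ℝ) ^ (d - κ) ≤ 4 := by
      calc (4 : ℝ) ^ (d - κ) ≤ 4 ^ (1 : ℝ) :=
            Real.rpow_le_rpow_of_exponent_le (by norm_num) (by linarith)
        _ = 4 := Real.rpow_one 4
    have h3 : (1 + g) * Real.exp ((ε - ε / 8) * u) ≤ (x : ℝ) ^ (d - κ) := by
      rw [Real.rpow_def_of_pos hx0]
      calc (1 + g) * Real.exp ((ε - ε / 8) * u)
          = Real.exp (Real.log (1 + g)) * Real.exp ((ε - ε / 8) * u) := by rw [Real.exp_log h0]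
        _ = Real.exp (Real.log (1 + g) + (ε - ε / 8) * u) := by rw [Real.exp_add]
        _ ≤ _ := Real.exp_le_exp.mpr (by linarith)
    have h4 : 0 < (4 : ℝ) ^ (d - κ) := by positivity
    calc (1 + g) * Real.exp ((ε - ε / 8) * u) / 4 ≤ (x : ℝ) ^ (d - κ) / 4 := by gcongr
      _ ≤ (x : ℝ) ^ (d - κ) / 4 ^ (d - κ) := div_le_div_of_nonneg_left (by positivity) h4 h2
  -- the right side
  have hright : C * K ^ 2 * (1 + ‖r‖) ^ (1 + d) * (1 + Real.log X) * (1 + Real.log (1 + ‖r‖)) / κ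
      ≤ (1 + g) / 4 * (Real.exp (ε / 4 * u) * Real.exp (2 * (ε / 8) * u)) * (P * u ^ 4) := by
    have hC0' : 0 < C := by linarith
    calc C * K ^ 2 * (1 + ‖r‖) ^ (1 + d) * (1 + Real.log X) * (1 + Real.log (1 + ‖r‖)) / κ
        = C * K ^ 2 * (1 + ‖r‖) ^ (1 + d) * (1 + Real.log X) * (1 + Real.log (1 + ‖r‖)) * (1 / κ) := by
          ring
      _ ≤ C * Real.exp (ε / 4 * u) * (4 * (1 + g) * Real.exp (2 * (ε / 8) * u)) *
            ((1 + 1 / c2 ^ 2) * u ^ 2) * (4 * u) * (3 * u / c1) := by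
          rw [hK2]
          gcongr
      _ = _ := by
          rw [hP]
          ring
  have hfin : (1 + g) * Real.exp ((ε - ε / 8) * u) / 4
      ≤ (1 + g) / 4 * (Real.exp (ε / 4 * u) * Real.exp (2 * (ε / 8) * u)) * (P * u ^ 4) :=
    hleft.trans (hmain.trans hright)
  have hg4 : 0 < (1 + g) / 4 := by positivity
  have hE : 0 < Real.exp (ε / 4 * u) * Real.exp (2 * (ε / 8) * u) := by positivity
  have h5 : Real.exp ((ε - ε / 8) * u)
      = (Real.exp (ε / 4 * u) * Real.exp (2 * (ε / 8) * u)) * Real.exp (3 * ε / 8 * u) := by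
    rw [← Real.exp_add, ← Real.exp_add]
    congr 1
    ring
  have h6 : Real.exp (3 * ε / 8 * u) ≤ P * u ^ 4 := by
    have h7 : ((1 + g) / 4 * (Real.exp (ε / 4 * u) * Real.exp (2 * (ε / 8) * u))) *
        Real.exp (3 * ε / 8 * u) ≤
        ((1 + g) / 4 * (Real.exp (ε / 4 * u) * Real.exp (2 * (ε / 8) * u))) * (P * u ^ 4) := by
      calc _ = (1 + g) * Real.exp ((ε - ε / 8) * u) / 4 := by rw [h5]; ring
        _ ≤ _ := hfin
    exact le_of_mul_le_mul_left h7 (by positivity)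
  exact absurd (hU u huU) (not_lt.mpr h6)

/-- a power bound with `d` is impossible unless `√x ≪ K² x^{1-d} log x` -/
lemma sq_count {f : ℕ →*₀ ℝ} (hf : ∀ n, |f n| ≤ 1) {d K : ℝ} (hd0 : 0 < d) (hd : d ≤ 3 / 4)
    (hK : 1 ≤ K) {x : ℕ} (hx : 32 ≤ x) (h : PowB f d K x) :
    Real.sqrt x ≤ 2 ^ 23 * K ^ 2 * (x : ℝ) ^ (1 - d) * (1 + Real.log x) := by
  set X : ℕ := x / 2 with hX
  have hX1 : 1 ≤ X := by omega
  have h1 := lam_pow hf hd0 hd hK h hX1 (by omega)
  set Y : ℕ := X / 2 with hY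
  have h2 := A_le abs_lamH_le Y
  have h3 : ∑ k ∈ Icc 1 Y, hc lamH k = (Nat.sqrt Y : ℝ) := by
    have := sum_hc_lam (R := ℝ) (fun _ ↦ 1) Y
    simpa using this
  have h4 : P lamH (2 * Y) ≤ ∑ n ∈ Icc 1 X, |Sl n| := by
    unfold P
    calc ∑ m ∈ Ico 1 (2 * Y), Sp lamH m ≤ ∑ m ∈ Ico 1 (2 * Y), |Sl m| := by
          refine Finset.sum_le_sum fun m _ ↦ ?_
          exact max_le (le_abs_self _) (abs_nonneg _)
      _ ≤ _ := by
          refine Finset.sum_le_sum_of_subset_of_nonneg ?_ fun _ _ _ ↦ abs_nonneg _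
          intro m hm
          rw [Finset.mem_Ico] at hm
          rw [Finset.mem_Icc]
          omega
  rw [h3] at h2
  have h5 : x ≤ 8 * Y := by omega
  have h6 : Y < (Nat.sqrt Y + 1) ^ 2 := Nat.lt_succ_sqrt' Y
  have hxr : (32 : ℝ) ≤ x := by exact_mod_cast hx
  have h7 : Real.sqrt x ≤ 8 * (Nat.sqrt Y : ℝ) := by
    have e1 : 1 ≤ Nat.sqrt Y := by
      rw [Nat.le_sqrt']
      omega
    have e2 : x ≤ (8 * Nat.sqrt Y) ^ 2 := by
      have e3 : (Nat.sqrt Y + 1) ^ 2 ≤ (2 * Nat.sqrt Y) ^ 2 := Nat.pow_le_pow_left (by omega) 2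
      nlinarith
    have e3 : (x : ℝ) ≤ (8 * (Nat.sqrt Y : ℝ)) ^ 2 := by exact_mod_cast e2
    exact Real.sqrt_le_iff.mpr ⟨by positivity, e3⟩
  have hX0 : (0 : ℝ) < X := by exact_mod_cast hX1
  have hXx : (X : ℝ) ≤ x := by
    have : X ≤ x := by omega
    exact_mod_cast this
  have h8 : (X : ℝ) ^ (1 - d) ≤ (x : ℝ) ^ (1 - d) := Real.rpow_le_rpow hX0.le hXx (by linarith)
  have h9 : Real.log X ≤ Real.log x := Real.log_le_log hX0 hXx
  have h10 : 0 ≤ Real.log X := Real.log_natCast_nonneg X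
  calc Real.sqrt x ≤ 8 * (4 * ∑ n ∈ Icc 1 X, |Sl n|) := by linarith
    _ ≤ 8 * (4 * (2 ^ 18 * K ^ 2 * (X : ℝ) ^ (1 - d) * (1 + Real.log X))) := by gcongr
    _ ≤ 8 * (4 * (2 ^ 18 * K ^ 2 * (x : ℝ) ^ (1 - d) * (1 + Real.log x))) := by gcongr
    _ = _ := by ring

/-- the case of the Riemann hypothesis -/
theorem osc_A (hz : ¬ ∃ r ∈ Zer, 1 / 2 < r.re) {ε : ℝ} (hε : 0 < ε) (hε1 : ε ≤ 1 / 8) :
    ∃ x0 : ℕ, ∀ x : ℕ, x0 ≤ x → ∀ f : ℕ →*₀ ℝ, (∀ n, |f n| ≤ 1) →
      ∃ y : ℕ, 1 ≤ y ∧ y ≤ x ∧ Real.exp (ε / 8 * om x - (1 + ε) * om y) < S f y := by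
  obtain ⟨hlow, C0, hup⟩ := rh_case hz
  set P : ℝ := 2 ^ 23 * Real.exp (ε / 4 * C0) * 2 with hP
  obtain ⟨U, hU⟩ := exp_beats (3 * ε / 8) P (by positivity)
  refine ⟨max 32 (⌈Real.exp (max U 1)⌉₊), fun x hx f hf ↦ ?_⟩
  have hx32 : 32 ≤ x := (le_max_left _ _).trans hx
  have hxm : Real.exp (max U 1) ≤ x :=
    (Nat.le_ceil _).trans (by exact_mod_cast (le_max_right _ _).trans hx)
  have hxr : (32 : ℝ) ≤ x := by exact_mod_cast hx32
  have hx0 : (0 : ℝ) < x := by linarith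
  have hlx : max U 1 ≤ Real.log x := by
    rw [Real.le_log_iff_exp_le hx0]
    exact hxm
  set v : ℝ := Real.log x with hv
  have hvU : U ≤ v := (le_max_left _ _).trans hlx
  have hv1 : 1 ≤ v := (le_max_right _ _).trans hlx
  by_contra hcon
  push Not at hcon
  set d : ℝ := (1 + ε) / 2 with hd
  set K : ℝ := Real.exp (ε / 8 * om x) with hK
  have hom : 0 ≤ om x := om_nonneg (by linarith)
  have hK1 : 1 ≤ K := by
    rw [hK]
    exact Real.one_le_exp (by positivity)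
  have hpow : PowB f d K x := by
    intro y hy hyx
    refine (hcon y hy hyx).trans ?_
    have hy0 : (0 : ℝ) < y := by exact_mod_cast hy
    have h1 := hlow y (by exact_mod_cast hy)
    rw [Real.rpow_def_of_pos hy0, hK, ← Real.exp_add]
    refine Real.exp_le_exp.mpr ?_
    have h2 : Real.log y * -d = -((1 + ε) * (Real.log y / 2)) := by rw [hd]; ring
    rw [h2]
    nlinarith
  have hmain := sq_count hf (by rw [hd]; linarith) (by rw [hd]; linarith) hK1 hx32 hpow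
  rw [← hv] at hmain
  have h1 := hup x (by linarith)
  have hK2 : K ^ 2 ≤ Real.exp (ε / 4 * C0) * Real.exp (ε / 8 * v) := by
    rw [hK, ← Real.exp_nat_mul, ← Real.exp_add]
    refine Real.exp_le_exp.mpr ?_
    push_cast
    nlinarith
  have h2 : Real.sqrt x = Real.exp (v / 2) := by
    rw [Real.sqrt_eq_rpow, Real.rpow_def_of_pos hx0]
    congr 1
    rw [hv]
    ring
  have h3 : (x : ℝ) ^ (1 - d) = Real.exp ((1 / 2 - ε / 2) * v) := by
    rw [Real.rpow_def_of_pos hx0]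
    congr 1
    rw [hv, hd]
    ring
  rw [h2, h3] at hmain
  have h4 : 1 + v ≤ 2 * v ^ 4 := by
    have h5 : 1 ≤ v ^ 3 := one_le_pow₀ hv1
    have h6 : v ≤ v ^ 4 := by
      have : v ^ 4 = v * v ^ 3 := by ring
      rw [this]
      nlinarith
    nlinarith
  have h5 : Real.exp (v / 2) ≤ (Real.exp (ε / 8 * v) * Real.exp ((1 / 2 - ε / 2) * v)) * (P * v ^ 4) := by
    calc Real.exp (v / 2) ≤ 2 ^ 23 * K ^ 2 * Real.exp ((1 / 2 - ε / 2) * v) * (1 + v) := hmain
      _ ≤ 2 ^ 23 * (Real.exp (ε / 4 * C0) * Real.exp (ε / 8 * v)) * Real.exp ((1 / 2 - ε / 2) * v)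
          * (2 * v ^ 4) := by gcongr
      _ = _ := by rw [hP]; ring
  have h6 : Real.exp (v / 2) = (Real.exp (ε / 8 * v) * Real.exp ((1 / 2 - ε / 2) * v)) *
      Real.exp (3 * ε / 8 * v) := by
    rw [← Real.exp_add, ← Real.exp_add]
    congr 1
    ring
  rw [h6] at h5
  have h7 : Real.exp (3 * ε / 8 * v) ≤ P * v ^ 4 := le_of_mul_le_mul_left h5 (by positivity)
  exact absurd (hU v hvU) (not_lt.mpr h7)

/-- **Theorem 3** -/
theorem osc {ε : ℝ} (hε : 0 < ε) : ∃ ε' : ℝ, 0 < ε' ∧ ∃ x0 : ℕ, ∀ x : ℕ, x0 ≤ x →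
    ∀ f : ℕ →*₀ ℝ, (∀ n, |f n| ≤ 1) →
      ∃ y : ℕ, 1 ≤ y ∧ y ≤ x ∧ Real.exp (ε' * om x - (1 + ε) * om y) < S f y := by
  set e : ℝ := min ε (1 / 8) with he
  have he0 : 0 < e := lt_min hε (by norm_num)
  have he1 : e ≤ 1 / 8 := min_le_right _ _
  have hee : e ≤ ε := min_le_left _ _
  have key : ∃ x0 : ℕ, ∀ x : ℕ, x0 ≤ x → ∀ f : ℕ →*₀ ℝ, (∀ n, |f n| ≤ 1) →
      ∃ y : ℕ, 1 ≤ y ∧ y ≤ x ∧ Real.exp (e / 8 * om x - (1 + e) * om y) < S f y := by
    by_cases hz : ∃ r ∈ Zer, 1 / 2 < r.re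
    · exact osc_B hz he0 he1
    · exact osc_A hz he0 he1
  obtain ⟨x0, hx0⟩ := key
  refine ⟨e / 8, by positivity, x0, fun x hx f hf ↦ ?_⟩
  obtain ⟨y, hy1, hyx, hy⟩ := hx0 x hx f hf
  refine ⟨y, hy1, hyx, lt_of_le_of_lt ?_ hy⟩
  refine Real.exp_le_exp.mpr ?_
  have h1 : 0 ≤ om y := om_nonneg (by exact_mod_cast hy1)
  nlinarith

end Pool.Agent.H48.UP
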